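import Pool.Agent.Q255.FG.Law

/-!
# Project FG: the law for characters modulo a prime
-/

set_option autoImplicit false

open MeasureTheory Finset Filter Topology

namespace Pool.Agent.Q255.FG

open Q289.PAM Pool.Agent.Q255.RM

lemma char_inj (q : ℕ) [NeZero q] :
    Function.Injective (fun (χ : DirichletCharacter ℂ q) (n : ℕ) => χ (n : ZMod q)) := by
  intro χ ψ h
  ext x
  have h1 := congrFun h ((x : ZMod q).val)
  simp only [ZMod.natCast_val, ZMod.cast_id', id_eq] at h1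
  exact h1

lemma mem_chars {q : ℕ} (hq : q.Prime) {a : ℕ → ℂ} :
    a ∈ chars q ↔ ∃ χ : DirichletCharacter ℂ q, a = fun n : ℕ => χ (n : ZMod q) := by
  classical
  unfold chars
  rw [dif_neg hq.ne_zero]
  simp only [Finset.mem_image, Finset.mem_univ, true_and]
  constructor
  · rintro ⟨χ, h⟩
    exact ⟨χ, h.symm⟩
  · rintro ⟨χ, h⟩
    exact ⟨χ, h.symm⟩

lemma cm_chars {q : ℕ} (hq : q.Prime) {a : ℕ → ℂ} (ha : a ∈ chars q) : CM a := by
  obtain ⟨χ, rfl⟩ := (mem_chars hq).1 ha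
  refine ⟨by simp, fun m n => by simp, fun n => ?_⟩
  exact DirichletCharacter.norm_le_one χ _

lemma mid_lt {N : ℕ} {η : ℝ} (hη : 0 < η) (hL : 1 < Real.log N) {p : ℕ} (hp : p ∈ mid N η) : p < N := by
  unfold mid at hp
  rw [Finset.mem_filter] at hp
  have h1 := hp.2.2.2
  have hN0 : (0 : ℝ) < N := by
    rcases Nat.eq_zero_or_pos N with h | h
    · subst h
      rw [Nat.cast_zero, Real.log_zero] at hL
      linarith
    · exact_mod_cast h
  have h2 : Real.log N ^ (1 / 2 - η) < Real.log N := by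
    calc Real.log N ^ (1 / 2 - η) < Real.log N ^ (1 : ℝ) :=
          Real.rpow_lt_rpow_of_exponent_lt hL (by linarith)
      _ = Real.log N := Real.rpow_one _
  have h3 : (p : ℝ) < N := by
    calc (p : ℝ) ≤ Real.exp (Real.log N ^ (1 / 2 - η)) := h1
      _ < Real.exp (Real.log N) := Real.exp_lt_exp.2 h2
      _ = N := Real.exp_log hN0
  exact_mod_cast h3

lemma norm_char {q : ℕ} (hq : q.Prime) {a : ℕ → ℂ} (ha : a ∈ chars q) {p : ℕ} (hp : p.Prime) (hpq : p ≠ q) :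
    ‖a p‖ = 1 := by
  obtain ⟨χ, rfl⟩ := (mem_chars hq).1 ha
  have h1 : IsUnit ((p : ℕ) : ZMod q) := by
    rw [ZMod.isUnit_iff_coprime]
    exact (Nat.coprime_primes hp hq).2 hpq
  obtain ⟨u, hu⟩ := h1
  show ‖χ ((p : ℕ) : ZMod q)‖ = 1
  rw [← hu]
  haveI : NeZero q := ⟨hq.ne_zero⟩
  exact DirichletCharacter.unit_norm_eq_one χ u

lemma hm_chars (hH : S_HMC) {q : ℕ} (hq : q.Prime) : HM (chars q) (q - 1) := by
  intro P Y m c hP hY
  have h1 : Y ^ m ≤ q - 1 := by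
    have h2 : ((Y ^ m : ℕ) : ℝ) ≤ ((q - 1 : ℕ) : ℝ) := by
      rw [Nat.cast_pow, Nat.cast_sub hq.one_le]
      push_cast
      exact hY
    exact_mod_cast h2
  have h2 := hH q (fun _ => 1) hq (fun _ => by simp) P Y m c hP h1
  simp only [mul_one] at h2
  refine h2.trans ?_
  have h3 : (0 : ℝ) ≤ (q - 1 : ℝ) * (Nat.factorial m) * (∑ p ∈ P, ‖c p‖ ^ 2) ^ m := by
    have : (1 : ℝ) ≤ q := by exact_mod_cast hq.one_le
    have h4 : (0 : ℝ) ≤ q - 1 := by linarith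
    have h5 : (0 : ℝ) ≤ (∑ p ∈ P, ‖c p‖ ^ 2) ^ m := by positivity
    positivity
  nlinarith

open Classical in
lemma bad_of_blk {η ε : ℝ} {N : ℕ} {X : Finset (ℕ → ℂ)}
    (hB : ∀ b : ℕ → ℂ, (∀ n, ‖b n‖ ≤ 1) →
    ((X.filter fun ψ => Real.exp (-(Real.log N ^ (η / 2))) <
      ‖∑ p ∈ mid N η, (((p : ℝ) ^ (-(1 + 2 * dl N)) : ℝ) : ℂ) * b p * ψ p‖).card : ℝ) ≤ (N : ℝ) ^ ε)
    {I : Finset (ℕ → ℂ)} (hI : I ⊆ X) {a : ℕ → ℂ} (ha : ∀ n, ‖a n‖ ≤ 1) :
    ((I.filter fun b => Real.exp (-(Real.log N ^ (η / 2))) < corr N η a b).card : ℝ) ≤ (N : ℝ) ^ ε := by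
  refine le_trans ?_ (hB (fun n => star (a n)) fun n => by rw [norm_star]; exact ha n)
  apply Nat.cast_le.2
  apply Finset.card_le_card
  intro b hb
  rw [Finset.mem_filter] at hb ⊢
  refine ⟨hI hb.1, lt_of_lt_of_le hb.2 ?_⟩
  refine le_trans (le_of_eq ?_) (Complex.re_le_norm _)
  unfold corr
  rw [Complex.re_sum]
  refine Finset.sum_congr rfl fun p _ => ?_
  rw [mul_assoc, Complex.re_ofReal_mul]
  congr 1
  simp only [Complex.mul_re, Complex.star_def, Complex.conj_re, Complex.conj_im]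
  ring

theorem chars_law (hF : S_FAM) (hU : S_U4) (hH : S_HMC) (hB : S_BLK) {ε : ℝ} (hε : 0 < ε) (hε1 : ε ≤ 1) :
    ∃ c : ℝ, 0 < c ∧ c < 1 ∧ ∃ q₀ : ℕ, ∀ q : ℕ, q₀ ≤ q → q.Prime → ∀ I : Finset (ℕ → ℂ), I ⊆ chars q →
      PT.real {ω | ¬ LawF ε q I ω} ≤ Real.exp (-(Real.log q ^ c)) := by
  classical
  obtain ⟨η, hη0, hη1, N₁, hN₁⟩ := law_prob hF hU hε hε1
  obtain ⟨N₂, hN₂⟩ := hB η hη0 hη1 (ε / 64) (by positivity)
  obtain ⟨N₃, hN₃⟩ := eventually_atTop.1 (tendsto_L.eventually_gt_atTop 1)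
  refine ⟨η / 8, by positivity, by linarith, max (max N₁ N₂) (max N₃ 5), fun q hq hqp I hI => ?_⟩
  have hN1 : N₁ ≤ q := le_trans (le_trans (le_max_left _ _) (le_max_left _ _)) hq
  have hN2 : N₂ ≤ q := le_trans (le_trans (le_max_right _ _) (le_max_left _ _)) hq
  have hN3 : N₃ ≤ q := le_trans (le_trans (le_max_left _ _) (le_max_right _ _)) hq
  have hN5 : 5 ≤ q := le_trans (le_trans (le_max_right _ _) (le_max_right _ _)) hq
  have h5 : (5 : ℝ) ≤ q := by exact_mod_cast hN5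
  have hL := hN₃ q hN3
  have hT1 : (q : ℝ) ^ (1 / 2 : ℝ) ≤ (q : ℝ) - 1 := by
    rw [← Real.sqrt_eq_rpow]
    apply Real.sqrt_le_iff.2
    constructor
    · linarith
    · nlinarith
  have hT2 : (q : ℝ) - 1 ≤ (q : ℝ) ^ 3 := by nlinarith [sq_nonneg ((q : ℝ) - 1)]
  have hB1 := hN₂ q hN2 (q - 1) hT1 hT2 (chars q) (hm_chars hH hqp)
  refine hN₁ q hN1 I ?_ ?_ ?_
  · intro a ha
    refine ⟨cm_chars hqp (hI ha), fun p hp => ?_⟩
    refine norm_char hqp (hI ha) ?_ (mid_lt hη0 hL hp).ne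
    unfold mid at hp
    exact (Finset.mem_filter.1 hp).2.1
  · have h1 : I.card ≤ (chars q).card := Finset.card_le_card hI
    haveI : NeZero q := ⟨hqp.ne_zero⟩
    haveI : Fact q.Prime := ⟨hqp⟩
    have h2 : (chars q).card ≤ q := by
      unfold chars
      rw [dif_neg hqp.ne_zero]
      refine Finset.card_image_le.trans ?_
      rw [Finset.card_univ, ← Nat.card_eq_fintype_card,
        DirichletCharacter.card_eq_totient_of_hasEnoughRootsOfUnity ℂ q]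
      exact Nat.totient_le q
    exact_mod_cast h1.trans h2
  · intro a ha
    exact bad_of_blk hB1 hI (cm_chars hqp (hI ha)).2.2

end Pool.Agent.Q255.FG
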