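import Pool.Agent.Q255.RM.Basic

/-!
# Project FG: large values of `∑ f(n) a(n) / √n`, `f` a random unimodular completely multiplicative
function, `a` in a finite family (characters modulo `q`, `n^(-it)`), definitions
-/

set_option autoImplicit false

open MeasureTheory Finset

namespace Pool.Agent.Q255.FG

open Q289.PAM Pool.Agent.Q255.RM

/-- sums of `f(n) a(n) / √n` -/
noncomputable def S (ω : Om) (a : ℕ → ℂ) (N : ℕ) : ℂ :=
  ∑ n ∈ Icc 1 N, f ω n * a n / ((Real.sqrt n : ℝ) : ℂ)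

/-- `exp (v √(log N log log N))` -/
noncomputable def big (v : ℝ) (N : ℕ) : ℝ :=
  Real.exp (v * Real.sqrt (Real.log N * Real.log (Real.log N)))

/-- completely multiplicative, bounded by one -/
def CM (a : ℕ → ℂ) : Prop := a 1 = 1 ∧ (∀ m n, a (m * n) = a m * a n) ∧ ∀ n, ‖a n‖ ≤ 1

/-- `δ = 5 √(log log N / log N)` -/
noncomputable def dl (N : ℕ) : ℝ := 5 * Real.sqrt (Real.log (Real.log N) / Real.log N)

open Classical in
/-- the primes `p ≤ N` with `exp (L^η) < p ≤ exp (L^(1/2 - η))`, `L = log N` -/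
noncomputable def mid (N : ℕ) (η : ℝ) : Finset ℕ :=
  (range (N + 1)).filter fun p => p.Prime ∧ Real.exp (Real.log N ^ η) < p ∧
    (p : ℝ) ≤ Real.exp (Real.log N ^ (1 / 2 - η))

/-- correlation of two members of the family -/
noncomputable def corr (N : ℕ) (η : ℝ) (a b : ℕ → ℂ) : ℝ :=
  ∑ p ∈ mid N η, (p : ℝ) ^ (-(1 + 2 * dl N)) * (a p * star (b p)).re

/-- the high moment inequality for a finite set of functions -/
def HM (X : Finset (ℕ → ℂ)) (T : ℝ) : Prop :=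
  ∀ (P : Finset ℕ) (Y m : ℕ) (c : ℕ → ℂ), (∀ p ∈ P, p.Prime ∧ p ≤ Y) → (Y : ℝ) ^ m ≤ T →
    ∑ ψ ∈ X, ‖∑ p ∈ P, c p * ψ p‖ ^ (2 * m) ≤ 60 * T * (Nat.factorial m) * (∑ p ∈ P, ‖c p‖ ^ 2) ^ m

lemma S_cont (a : ℕ → ℂ) (N : ℕ) : Continuous fun ω => S ω a N := by
  unfold S
  refine continuous_finsetSum _ fun n _ => ?_
  exact ((f_cont n).mul continuous_const).div_const _

end Pool.Agent.Q255.FG
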