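import Pool.Agent.Q255.FG.SBound

/-!
# Project FG: the large deviation lower bound for a family (FAM)
-/

set_option autoImplicit false

open MeasureTheory Finset Filter Topology

namespace Pool.Agent.Q255.FG

open Q289.PAM Pool.Agent.Q255.RM

/-- weight of the prime `p` -/
noncomputable def rr (N p : ℕ) : ℝ := (p : ℝ) ^ (-(1 / 2 + dl N))

lemma dl_nonneg (N : ℕ) : 0 ≤ dl N := by unfold dl; positivity

lemma rr_nonneg (N p : ℕ) : 0 ≤ rr N p := by unfold rr; positivity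

lemma rr_sq (N : ℕ) {p : ℕ} (hp : 0 < p) : rr N p ^ 2 = (p : ℝ) ^ (-(1 + 2 * dl N)) := by
  unfold rr
  rw [← Real.rpow_natCast, ← Real.rpow_mul (by positivity)]
  congr 1
  push_cast
  ring

lemma rr_le (N : ℕ) {p : ℕ} (hp : 0 < p) : rr N p ≤ (p : ℝ) ^ (-(1 / 2) : ℝ) := by
  unfold rr
  apply Real.rpow_le_rpow_of_exponent_le
  · exact_mod_cast hp
  · linarith [dl_nonneg N]

lemma rr_le34 (N : ℕ) {p : ℕ} (hp : 2 ≤ p) : rr N p ≤ 3 / 4 := by
  refine (rr_le N (by omega)).trans ?_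
  have h2 : (2 : ℝ) ≤ p := by exact_mod_cast hp
  rw [Real.rpow_neg (by positivity), ← Real.sqrt_eq_rpow]
  have h3 : (4 / 3 : ℝ) ≤ Real.sqrt p := by
    apply Real.le_sqrt_of_sq_le
    norm_num
    linarith
  calc (Real.sqrt p)⁻¹ ≤ (4 / 3 : ℝ)⁻¹ := inv_anti₀ (by norm_num) h3
    _ = 3 / 4 := by norm_num

/-- the real part of the prime sum -/
noncomputable def XX (N : ℕ) (η : ℝ) (a : ℕ → ℂ) (ω : Om) : ℝ :=
  ∑ p ∈ mid N η, rr N p * (f ω p * a p).re

/-- the remaining primes -/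
noncomputable def rest (N : ℕ) (η : ℝ) : Finset ℕ := (range (N + 1)).filter Nat.Prime \ mid N η

/-- the inverse square of the remaining Euler factors -/
noncomputable def YY (N : ℕ) (η : ℝ) (a : ℕ → ℂ) (ω : Om) : ℝ :=
  ∏ p ∈ rest N η, ‖1 - (a p * (rr N p : ℂ)) * f ω p‖ ^ 2

lemma XX_cont (N : ℕ) (η : ℝ) (a : ℕ → ℂ) : Continuous (XX N η a) := by
  unfold XX
  refine continuous_finsetSum _ fun p _ => ?_
  exact continuous_const.mul (Complex.continuous_re.comp ((f_cont p).mul continuous_const))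

lemma YY_cont (N : ℕ) (η : ℝ) (a : ℕ → ℂ) : Continuous (YY N η a) := by
  unfold YY
  refine continuous_finsetProd _ fun p _ => ?_
  exact ((continuous_const.sub (continuous_const.mul (f_cont p))).norm).pow 2

lemma mid_prime {N : ℕ} {η : ℝ} {p : ℕ} (hp : p ∈ mid N η) : p.Prime := by
  unfold mid at hp
  rw [Finset.mem_filter] at hp
  exact hp.2.1

lemma mid_gt {N : ℕ} {η : ℝ} {p : ℕ} (hp : p ∈ mid N η) : Real.exp (Real.log N ^ η) < p := by
  unfold mid at hp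
  rw [Finset.mem_filter] at hp
  exact hp.2.2.1

lemma mid_sub (N : ℕ) (η : ℝ) : mid N η ⊆ (range (N + 1)).filter Nat.Prime := by
  intro p hp
  have hp' := hp
  unfold mid at hp
  rw [Finset.mem_filter] at hp ⊢
  exact ⟨hp.1, hp.2.1⟩

lemma two_XX (N : ℕ) (η : ℝ) (a : ℕ → ℂ) (t : ℝ) (ω : Om) :
    2 * t * XX N η a ω = (∑ p ∈ mid N η, (((2 * t * rr N p : ℝ) : ℂ) * a p) * f ω p).re := by
  unfold XX
  rw [Complex.re_sum, Finset.mul_sum]
  refine Finset.sum_congr rfl fun p _ => ?_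
  rw [mul_assoc (((2 * t * rr N p : ℝ) : ℂ)), Complex.re_ofReal_mul, mul_comm (a p)]
  ring

/-- lower bound of the Euler product -/
lemma prod_lower (hLG : S_LG) (N : ℕ) (η : ℝ) (a : ℕ → ℂ) (ha : ∀ n, ‖a n‖ ≤ 1) (ω : Om) (Λ : ℝ) (hΛ : 0 < Λ)
    (hY : YY N η a ω ≤ Λ) :
    Real.exp (XX N η a ω - 2 * ∑ p ∈ mid N η, (p : ℝ) ^ (-(1 + 2 * dl N))) * (Real.sqrt Λ)⁻¹ ≤
      ‖∏ p ∈ (range (N + 1)).filter Nat.Prime, (1 - f ω p * a p * ((rr N p : ℝ) : ℂ))⁻¹‖ := by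
  have hz : ∀ p ∈ (range (N + 1)).filter Nat.Prime, ‖f ω p * a p * ((rr N p : ℝ) : ℂ)‖ ≤ rr N p := by
    intro p hp
    rw [norm_mul, norm_mul, norm_f, one_mul, Complex.norm_real, Real.norm_of_nonneg (rr_nonneg N p)]
    exact mul_le_of_le_one_left (rr_nonneg N p) (ha p)
  have hz2 : ∀ p ∈ (range (N + 1)).filter Nat.Prime, ‖f ω p * a p * ((rr N p : ℝ) : ℂ)‖ ≤ 3 / 4 := by
    intro p hp
    refine (hz p hp).trans (rr_le34 N ?_)
    exact (Finset.mem_filter.1 hp).2.two_le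
  rw [norm_prod]
  simp only [norm_inv]
  have hsplit : (range (N + 1)).filter Nat.Prime = mid N η ∪ rest N η := by
    unfold rest
    rw [Finset.union_sdiff_of_subset (mid_sub N η)]
  have hdisj : Disjoint (mid N η) (rest N η) := by
    unfold rest
    exact Finset.disjoint_sdiff
  have hrest_sub : rest N η ⊆ (range (N + 1)).filter Nat.Prime := by
    unfold rest
    exact Finset.sdiff_subset
  rw [hsplit, Finset.prod_union hdisj]
  have h1 : Real.exp (XX N η a ω - 2 * ∑ p ∈ mid N η, (p : ℝ) ^ (-(1 + 2 * dl N))) ≤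
      ∏ p ∈ mid N η, ‖1 - f ω p * a p * ((rr N p : ℝ) : ℂ)‖⁻¹ := by
    unfold XX
    rw [Finset.mul_sum, ← Finset.sum_sub_distrib, Real.exp_sum]
    refine Finset.prod_le_prod (fun p _ => (Real.exp_pos _).le) fun p hp => ?_
    refine le_trans ?_ (hLG _ (hz2 p (mid_sub N η hp))).1
    apply Real.exp_le_exp.2
    have e1 : (f ω p * a p * ((rr N p : ℝ) : ℂ)).re = rr N p * (f ω p * a p).re := by
      rw [mul_comm, Complex.re_ofReal_mul]
    have e2 : ‖f ω p * a p * ((rr N p : ℝ) : ℂ)‖ ^ 2 ≤ (p : ℝ) ^ (-(1 + 2 * dl N)) := by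
      rw [← rr_sq N (mid_prime hp).pos]
      exact pow_le_pow_left₀ (norm_nonneg _) (hz p (mid_sub N η hp)) 2
    rw [e1]
    linarith
  have h2 : (Real.sqrt Λ)⁻¹ ≤ ∏ p ∈ rest N η, ‖1 - f ω p * a p * ((rr N p : ℝ) : ℂ)‖⁻¹ := by
    have e1 : ∏ p ∈ rest N η, ‖1 - f ω p * a p * ((rr N p : ℝ) : ℂ)‖⁻¹ =
        (∏ p ∈ rest N η, ‖1 - f ω p * a p * ((rr N p : ℝ) : ℂ)‖)⁻¹ := by
      rw [Finset.prod_inv_distrib]
    have e2 : (∏ p ∈ rest N η, ‖1 - f ω p * a p * ((rr N p : ℝ) : ℂ)‖) ^ 2 = YY N η a ω := by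
      unfold YY
      rw [← Finset.prod_pow]
      refine Finset.prod_congr rfl fun p _ => ?_
      congr 3
      ring
    have h3 : 0 < ∏ p ∈ rest N η, ‖1 - f ω p * a p * ((rr N p : ℝ) : ℂ)‖ := by
      apply Finset.prod_pos
      intro p hp
      rw [norm_pos_iff]
      intro h0
      have h4 := hz2 p (hrest_sub hp)
      have h5 : f ω p * a p * ((rr N p : ℝ) : ℂ) = 1 := (sub_eq_zero.1 h0).symm
      rw [h5, norm_one] at h4
      norm_num at h4
    rw [e1]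
    apply inv_anti₀ h3
    apply Real.le_sqrt_of_sq_le
    rw [e2]
    exact hY
  exact mul_le_mul h1 h2 (by positivity) (Finset.prod_nonneg fun p _ => by positivity)

end Pool.Agent.Q255.FG
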