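import Pool.Agent.Q255.FG.Fam

/-!
# Project FG: exponential moments for the family
-/

set_option autoImplicit false

open MeasureTheory Finset Filter Topology

namespace Pool.Agent.Q255.FG

open Q289.PAM Pool.Agent.Q255.RM

lemma y_rpow (N : ℕ) (η : ℝ) :
    Real.exp (Real.log N ^ η) ^ (-(1 / 2) : ℝ) = Real.exp (-(Real.log N ^ η) / 2) := by
  rw [← Real.exp_mul]
  congr 1
  ring

/-- bounds for weights `≤ 4 k p^(-1/2)` -/
lemma wsum (hA : S_A1) {N : ℕ} {η k : ℝ} (hk : 0 < k) (hL : 0 ≤ Real.log N)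
    (hsm : 4 * k * Real.exp (-(Real.log N ^ η) / 2) ≤ 1) (w : ℕ → ℂ)
    (hw : ∀ p ∈ mid N η, ‖w p‖ ≤ 4 * k * rr N p) :
    (∀ p ∈ mid N η, ‖w p‖ ≤ 1) ∧
    ∑ p ∈ mid N η, ‖w p‖ ^ 3 ≤ 256 * k ^ 3 * Real.exp (-(Real.log N ^ η) / 2) ∧
    ∑ p ∈ mid N η, ‖w p‖ ^ 4 / 32 ≤ 256 * k ^ 3 * Real.exp (-(Real.log N ^ η) / 2) := by
  have hr : ∀ p ∈ mid N η, rr N p ≤ Real.exp (-(Real.log N ^ η) / 2) := by
    intro p hp
    refine (rr_le N (mid_prime hp).pos).trans ?_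
    rw [← y_rpow]
    apply Real.rpow_le_rpow_of_nonpos (Real.exp_pos _) (mid_gt hp).le
    norm_num
  have h1 : ∀ p ∈ mid N η, ‖w p‖ ≤ 1 := by
    intro p hp
    refine (hw p hp).trans (le_trans ?_ hsm)
    exact mul_le_mul_of_nonneg_left (hr p hp) (by positivity)
  have h3 : ∑ p ∈ mid N η, ‖w p‖ ^ 3 ≤ 256 * k ^ 3 * Real.exp (-(Real.log N ^ η) / 2) := by
    have hb : ∀ p ∈ mid N η, ‖w p‖ ^ 3 ≤ 64 * k ^ 3 * (p : ℝ) ^ (-(3 / 2) : ℝ) := by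
      intro p hp
      have hp0 : 0 < p := (mid_prime hp).pos
      have e1 : (p : ℝ) ^ (-(3 / 2) : ℝ) = ((p : ℝ) ^ (-(1 / 2) : ℝ)) ^ 3 := by
        rw [← Real.rpow_natCast, ← Real.rpow_mul (by positivity)]
        congr 1
        norm_num
      calc ‖w p‖ ^ 3 ≤ (4 * k * (p : ℝ) ^ (-(1 / 2) : ℝ)) ^ 3 := by
            apply pow_le_pow_left₀ (norm_nonneg _)
            exact (hw p hp).trans (mul_le_mul_of_nonneg_left (rr_le N hp0) (by positivity))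
        _ = 64 * k ^ 3 * (p : ℝ) ^ (-(3 / 2) : ℝ) := by rw [e1]; ring
    have hy : (1 : ℝ) ≤ Real.exp (Real.log N ^ η) := Real.one_le_exp (by positivity)
    have h4 := hA.2.2.1 (mid N η) (Real.exp (Real.log N ^ η)) hy (fun p hp => mid_gt hp)
    rw [y_rpow] at h4
    calc ∑ p ∈ mid N η, ‖w p‖ ^ 3 ≤ ∑ p ∈ mid N η, 64 * k ^ 3 * (p : ℝ) ^ (-(3 / 2) : ℝ) :=
          Finset.sum_le_sum hb
      _ = 64 * k ^ 3 * ∑ p ∈ mid N η, (p : ℝ) ^ (-(3 / 2) : ℝ) := by rw [Finset.mul_sum]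
      _ ≤ 64 * k ^ 3 * (4 * Real.exp (-(Real.log N ^ η) / 2)) :=
          mul_le_mul_of_nonneg_left h4 (by positivity)
      _ = _ := by ring
  refine ⟨h1, h3, le_trans (Finset.sum_le_sum fun p hp => ?_) h3⟩
  have h5 := h1 p hp
  have h6 : 0 ≤ ‖w p‖ := norm_nonneg _
  have h7 : ‖w p‖ ^ 4 ≤ ‖w p‖ ^ 3 := pow_le_pow_of_le_one h6 h5 (by norm_num)
  have h8 : 0 ≤ ‖w p‖ ^ 3 := by positivity
  linarith

/-- the sum of squares -/
noncomputable def ss (N : ℕ) (η : ℝ) : ℝ := ∑ p ∈ mid N η, (p : ℝ) ^ (-(1 + 2 * dl N))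

lemma norm_w {N : ℕ} {η t : ℝ} (ht : 0 ≤ t) {a : ℕ → ℂ} (ha : ∀ p ∈ mid N η, ‖a p‖ = 1) {p : ℕ}
    (hp : p ∈ mid N η) : ‖((2 * t * rr N p : ℝ) : ℂ) * a p‖ = 2 * t * rr N p := by
  rw [norm_mul, ha p hp, mul_one, Complex.norm_real, Real.norm_of_nonneg]
  have := rr_nonneg N p
  positivity

lemma mom_upper (hA : S_A1) (hE : S_EXPM) {N : ℕ} {η k t : ℝ} (hk : 0 < k) (hL : 0 ≤ Real.log N)
    (hsm : 4 * k * Real.exp (-(Real.log N ^ η) / 2) ≤ 1) (ht0 : 0 ≤ t) (ht : t ≤ 2 * k)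
    {a : ℕ → ℂ} (ha : ∀ p ∈ mid N η, ‖a p‖ = 1) :
    ∫ ω, Real.exp (2 * t * XX N η a ω) ∂PT ≤
      Real.exp (t ^ 2 * ss N η + 256 * k ^ 3 * Real.exp (-(Real.log N ^ η) / 2)) := by
  have hw : ∀ p ∈ mid N η, ‖((2 * t * rr N p : ℝ) : ℂ) * a p‖ ≤ 4 * k * rr N p := by
    intro p hp
    rw [norm_w ht0 ha hp]
    have := rr_nonneg N p
    nlinarith
  obtain ⟨h1, h2, _⟩ := wsum hA hk hL hsm _ hw
  simp_rw [two_XX]
  refine (hE.2.1 (mid N η) (fun p => ((2 * t * rr N p : ℝ) : ℂ) * a p)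
    (fun p hp => ⟨mid_prime hp, h1 p hp⟩)).trans ?_
  apply Real.exp_le_exp.2
  rw [Finset.sum_add_distrib]
  apply add_le_add _ h2
  unfold ss
  rw [Finset.mul_sum]
  apply le_of_eq
  refine Finset.sum_congr rfl fun p hp => ?_
  rw [norm_w ht0 ha hp, ← rr_sq N (mid_prime hp).pos]
  ring

lemma mom_lower (hA : S_A1) (hE : S_EXPM) {N : ℕ} {η k : ℝ} (hk : 0 < k) (hL : 0 ≤ Real.log N)
    (hsm : 4 * k * Real.exp (-(Real.log N ^ η) / 2) ≤ 1)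
    {a : ℕ → ℂ} (ha : ∀ p ∈ mid N η, ‖a p‖ = 1) :
    Real.exp (k ^ 2 * ss N η - 256 * k ^ 3 * Real.exp (-(Real.log N ^ η) / 2)) ≤
      ∫ ω, Real.exp (2 * k * XX N η a ω) ∂PT := by
  have hw : ∀ p ∈ mid N η, ‖((2 * k * rr N p : ℝ) : ℂ) * a p‖ ≤ 4 * k * rr N p := by
    intro p hp
    rw [norm_w hk.le ha hp]
    have := rr_nonneg N p
    nlinarith
  obtain ⟨_, _, h3⟩ := wsum hA hk hL hsm _ hw
  simp_rw [two_XX]
  refine le_trans ?_ (hE.1 (mid N η) (fun p => ((2 * k * rr N p : ℝ) : ℂ) * a p)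
    (fun p hp => mid_prime hp))
  apply Real.exp_le_exp.2
  rw [Finset.sum_sub_distrib]
  apply sub_le_sub _ h3
  unfold ss
  rw [Finset.mul_sum]
  apply le_of_eq
  refine Finset.sum_congr rfl fun p hp => ?_
  rw [norm_w hk.le ha hp, ← rr_sq N (mid_prime hp).pos]
  ring

lemma mom_pair (hA : S_A1) (hE : S_EXPM) {N : ℕ} {η k : ℝ} (hk : 0 < k) (hL : 0 ≤ Real.log N)
    (hsm : 4 * k * Real.exp (-(Real.log N ^ η) / 2) ≤ 1)
    {a b : ℕ → ℂ} (ha : ∀ p ∈ mid N η, ‖a p‖ = 1) (hb : ∀ p ∈ mid N η, ‖b p‖ = 1) :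
    ∫ ω, Real.exp (2 * k * XX N η a ω) * Real.exp (2 * k * XX N η b ω) ∂PT ≤
      Real.exp (2 * (k ^ 2 * ss N η) + 2 * k ^ 2 * corr N η a b +
        256 * k ^ 3 * Real.exp (-(Real.log N ^ η) / 2)) := by
  have hw : ∀ p ∈ mid N η, ‖((2 * k * rr N p : ℝ) : ℂ) * a p + ((2 * k * rr N p : ℝ) : ℂ) * b p‖ ≤
      4 * k * rr N p := by
    intro p hp
    refine (norm_add_le _ _).trans ?_
    rw [norm_w hk.le ha hp, norm_w hk.le hb hp]
    linarith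
  obtain ⟨h1, h2, _⟩ := wsum hA hk hL hsm _ hw
  have e1 : ∀ ω, Real.exp (2 * k * XX N η a ω) * Real.exp (2 * k * XX N η b ω) =
      Real.exp (∑ p ∈ mid N η, (((2 * k * rr N p : ℝ) : ℂ) * a p + ((2 * k * rr N p : ℝ) : ℂ) * b p) *
        f ω p).re := by
    intro ω
    rw [← Real.exp_add, two_XX, two_XX, ← Complex.add_re, ← Finset.sum_add_distrib]
    congr 2
    exact Finset.sum_congr rfl fun p _ => by ring
  simp_rw [e1]
  refine (hE.2.1 (mid N η) (fun p => ((2 * k * rr N p : ℝ) : ℂ) * a p + ((2 * k * rr N p : ℝ) : ℂ) * b p)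
    (fun p hp => ⟨mid_prime hp, h1 p hp⟩)).trans ?_
  apply Real.exp_le_exp.2
  rw [Finset.sum_add_distrib]
  apply add_le_add _ h2
  unfold ss corr
  rw [Finset.mul_sum, Finset.mul_sum, Finset.mul_sum, ← Finset.sum_add_distrib]
  apply le_of_eq
  refine Finset.sum_congr rfl fun p hp => ?_
  have e2 : ‖((2 * k * rr N p : ℝ) : ℂ) * a p + ((2 * k * rr N p : ℝ) : ℂ) * b p‖ ^ 2 =
      (2 * k * rr N p) ^ 2 * (2 + 2 * (a p * star (b p)).re) := by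
    rw [← mul_add, norm_mul, mul_pow, Complex.norm_real, Real.norm_eq_abs, sq_abs]
    congr 1
    have e3 : ‖a p + b p‖ ^ 2 = ‖a p‖ ^ 2 + ‖b p‖ ^ 2 + 2 * (a p * star (b p)).re := by
      rw [← Complex.normSq_eq_norm_sq, ← Complex.normSq_eq_norm_sq, ← Complex.normSq_eq_norm_sq,
        Complex.normSq_add]
      rfl
    rw [e3, ha p hp, hb p hp]
    ring
  rw [e2, ← rr_sq N (mid_prime hp).pos]
  ring

lemma mom_rest (hA : S_A1) (hE : S_EXPM) {N : ℕ} {η k : ℝ} (hk : 0 < k) (hL : 0 ≤ Real.log N)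
    (hsm : 4 * k * Real.exp (-(Real.log N ^ η) / 2) ≤ 1) (hd : 0 < dl N)
    {a : ℕ → ℂ} (ha : ∀ p ∈ mid N η, ‖a p‖ = 1) (ha1 : ∀ n, ‖a n‖ ≤ 1) :
    ∫ ω, Real.exp (2 * k * XX N η a ω) * YY N η a ω ∂PT ≤
      Real.exp (k ^ 2 * ss N η + 256 * k ^ 3 * Real.exp (-(Real.log N ^ η) / 2)) *
        (1 + 1 / (2 * dl N)) := by
  have hw : ∀ p ∈ mid N η, ‖((2 * k * rr N p : ℝ) : ℂ) * a p‖ ≤ 4 * k * rr N p := by
    intro p hp
    rw [norm_w hk.le ha hp]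
    have := rr_nonneg N p
    nlinarith
  obtain ⟨h1, h2, _⟩ := wsum hA hk hL hsm _ hw
  simp_rw [two_XX]
  unfold YY
  refine (hE.2.2 (mid N η) (rest N η) (fun p => ((2 * k * rr N p : ℝ) : ℂ) * a p)
    (fun p => a p * (rr N p : ℂ)) (fun p hp => ⟨mid_prime hp, h1 p hp⟩) ?_ ?_).trans ?_
  · intro p hp
    unfold rest at hp
    exact (Finset.mem_filter.1 (Finset.mem_sdiff.1 hp).1).2
  · unfold rest
    exact Finset.disjoint_sdiff
  · apply mul_le_mul _ _ (Finset.prod_nonneg fun p _ => by positivity) (Real.exp_pos _).le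
    · apply Real.exp_le_exp.2
      rw [Finset.sum_add_distrib]
      apply add_le_add _ h2
      unfold ss
      rw [Finset.mul_sum]
      apply le_of_eq
      refine Finset.sum_congr rfl fun p hp => ?_
      rw [norm_w hk.le ha hp, ← rr_sq N (mid_prime hp).pos]
      ring
    · have hpr : ∀ p ∈ rest N η, p.Prime := by
        intro p hp
        unfold rest at hp
        exact (Finset.mem_filter.1 (Finset.mem_sdiff.1 hp).1).2
      have h3 : ∀ p ∈ rest N η, (1 + ‖a p * (rr N p : ℂ)‖ ^ 2) ≤ Real.exp ((p : ℝ) ^ (-(1 + 2 * dl N))) := by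
        intro p hp
        have e1 : ‖a p * (rr N p : ℂ)‖ ^ 2 ≤ (p : ℝ) ^ (-(1 + 2 * dl N)) := by
          rw [← rr_sq N (hpr p hp).pos]
          apply pow_le_pow_left₀ (norm_nonneg _)
          rw [norm_mul, Complex.norm_real, Real.norm_of_nonneg (rr_nonneg N p)]
          exact mul_le_of_le_one_left (rr_nonneg N p) (ha1 p)
        have := Real.add_one_le_exp ((p : ℝ) ^ (-(1 + 2 * dl N)))
        linarith
      calc ∏ p ∈ rest N η, (1 + ‖a p * (rr N p : ℂ)‖ ^ 2) ≤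
          ∏ p ∈ rest N η, Real.exp ((p : ℝ) ^ (-(1 + 2 * dl N))) :=
            Finset.prod_le_prod (fun p _ => by positivity) h3
        _ = Real.exp (∑ p ∈ rest N η, (p : ℝ) ^ (-(1 + 2 * dl N))) := by rw [Real.exp_sum]
        _ ≤ Real.exp (Real.log (1 + 1 / (2 * dl N))) := by
            apply Real.exp_le_exp.2
            exact hA.1 (rest N η) (2 * dl N) hpr (by positivity)
        _ = 1 + 1 / (2 * dl N) := Real.exp_log (by positivity)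

end Pool.Agent.Q255.FG
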