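import Pool.Agent.Q255.FG.Fam2

/-!
# Project FG: assembly of FAM
-/

set_option autoImplicit false

open MeasureTheory Finset Filter Topology

namespace Pool.Agent.Q255.FG

open Q289.PAM Pool.Agent.Q255.RM

lemma ev_params (hA : S_A1) {ε e η : ℝ} (hε : 0 < ε) (hε1 : ε ≤ 1) (he : e = ε / 400) (hη : η = e / 6) :
    ∃ N₀ : ℕ, ∀ N : ℕ, N₀ ≤ N →
      1 ≤ Real.log N ∧ 1 ≤ Real.log (Real.log N) ∧
      (1 / 2 - 3 * η) * Real.log (Real.log N) ≤ ss N η ∧ ss N η ≤ 1 / 2 * Real.log (Real.log N) ∧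
      20 * Real.sqrt (Real.log N) * Real.exp (-(Real.log N ^ η) / 2) ≤ 1 ∧
      Real.exp (-(Real.log N ^ η) / 2) ≤ Real.exp (-(Real.log N ^ (η / 2))) ∧
      (32050 * 800) * Real.log N ^ 2 * Real.exp (-(Real.log N ^ (η / 2))) ≤
        Real.exp (-(Real.log N ^ (η / 4))) ∧
      1600 * Real.log N * Real.exp (-(2 * e ^ 2 * ε ^ 2 * Real.sqrt (Real.log N))) ≤
        Real.exp (-(Real.log N ^ (η / 4))) ∧
      Real.log (Real.log N) + 1 ≤ 4 * e * ε * Real.sqrt (Real.log N) ∧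
      4 ≤ Real.exp (0.6 * ε * Real.log N) := by
  have he0 : 0 < e := by rw [he]; positivity
  have he1 : e ≤ 1 / 400 := by rw [he]; linarith
  have hη0 : 0 < η := by rw [hη]; positivity
  have hη1 : η < 1 / 8 := by rw [hη]; linarith
  obtain ⟨N₁, hN₁⟩ := s_bounds hA hη0 hη1
  have hl : Tendsto (fun N : ℕ => Real.log (Real.log N)) atTop atTop := Real.tendsto_log_atTop.comp tendsto_L
  have h5 : ∀ᶠ L : ℝ in atTop, 20 * Real.sqrt L * Real.exp (-(L ^ η) / 2) ≤ 1 := by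
    have a := ev_small (η := 2 * η) (by positivity) 0
    have h1 : Tendsto (fun L : ℝ => L ^ η) atTop atTop := tendsto_rpow_atTop hη0
    have h2 := (tendsto_rpow_mul_exp_neg_mul_atTop_nhds_zero (1 / (2 * η)) (1 / 2) (by norm_num)).comp h1
    have h3 : Tendsto (fun L : ℝ => 20 * ((L ^ η) ^ (1 / (2 * η)) * Real.exp (-(1 / 2) * L ^ η)))
        atTop (𝓝 (20 * 0)) := h2.const_mul _
    rw [mul_zero] at h3
    filter_upwards [h3.eventually (gt_mem_nhds (show (0 : ℝ) < 1 by norm_num)), eventually_gt_atTop 0] with L h4 h0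
    have e1 : (L ^ η) ^ (1 / (2 * η)) = Real.sqrt L := by
      rw [← Real.rpow_mul h0.le, Real.sqrt_eq_rpow]
      congr 1
      field_simp
    rw [e1] at h4
    have e2 : Real.exp (-(L ^ η) / 2) = Real.exp (-(1 / 2) * L ^ η) := by congr 1; ring
    rw [e2]
    linarith
  have h6 : ∀ᶠ L : ℝ in atTop, Real.exp (-(L ^ η) / 2) ≤ Real.exp (-(L ^ (η / 2))) := by
    have h1 : Tendsto (fun L : ℝ => L ^ (η / 2)) atTop atTop := tendsto_rpow_atTop (by positivity)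
    filter_upwards [h1.eventually_ge_atTop 2, eventually_gt_atTop 0] with L h2 h0
    have e2 : L ^ η = (L ^ (η / 2)) ^ 2 := by
      rw [← Real.rpow_natCast (L ^ (η / 2)) 2, ← Real.rpow_mul h0.le]
      congr 1
      push_cast
      ring
    apply Real.exp_le_exp.2
    rw [e2]
    nlinarith
  have h9 : ∀ᶠ L : ℝ in atTop, Real.log L + 1 ≤ 4 * e * ε * Real.sqrt L := by
    have h1 := (isLittleO_log_rpow_atTop (show (0 : ℝ) < 1 / 2 by norm_num)).bound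
      (show (0 : ℝ) < 2 * e * ε by positivity)
    have h2 : Tendsto (fun L : ℝ => Real.sqrt L) atTop atTop := Real.tendsto_sqrt_atTop
    filter_upwards [h1, h2.eventually_ge_atTop (1 / (2 * e * ε)), eventually_ge_atTop 1] with L h3 h4 h0
    rw [Real.norm_eq_abs, Real.norm_eq_abs, ← Real.sqrt_eq_rpow, abs_of_nonneg (Real.sqrt_nonneg L)] at h3
    have h5 : 1 ≤ 2 * e * ε * Real.sqrt L := by
      have := mul_le_mul_of_nonneg_left h4 (show 0 ≤ 2 * e * ε by positivity)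
      have e1 : 2 * e * ε * (1 / (2 * e * ε)) = 1 := by field_simp
      linarith
    have h6 := le_abs_self (Real.log L)
    linarith
  have h10 : ∀ᶠ L : ℝ in atTop, 4 ≤ Real.exp (0.6 * ε * L) := by
    filter_upwards [eventually_ge_atTop (3 / (0.6 * ε))] with L h
    have h1 : 3 ≤ 0.6 * ε * L := by
      have := mul_le_mul_of_nonneg_left h (show 0 ≤ 0.6 * ε by positivity)
      have e1 : 0.6 * ε * (3 / (0.6 * ε)) = 3 := by field_simp
      linarith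
    have := Real.add_one_le_exp (0.6 * ε * L)
    linarith
  have h8 := ev_sqrt (η := η) (c := 2 * e ^ 2 * ε ^ 2) hη0 hη1 (by positivity) 1600
  have h7 := ev_small (η := η) hη0 (32050 * 800)
  obtain ⟨N₂, hN₂⟩ := eventually_atTop.1 (((tendsto_L.eventually_ge_atTop 1).and
    (hl.eventually_ge_atTop 1)).and ((((tendsto_L.eventually h5).and (tendsto_L.eventually h6)).and
    ((tendsto_L.eventually h7).and (tendsto_L.eventually h8))).and
    ((tendsto_L.eventually h9).and (tendsto_L.eventually h10))))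
  refine ⟨max N₁ N₂, fun N hN => ?_⟩
  obtain ⟨a1, a2⟩ := hN₁ N (le_trans (le_max_left _ _) hN)
  obtain ⟨⟨b1, b2⟩, ⟨⟨b3, b4⟩, b5, b6⟩, b7, b8⟩ := hN₂ N (le_trans (le_max_right _ _) hN)
  exact ⟨b1, b2, a1, a2, b3, b4, b5, b6, b7, b8⟩

/-- the real parameters -/
lemma par {ε e η L l s v : ℝ} (hε : 0 < ε) (hε1 : ε ≤ 1) (he : e = ε / 400) (hη : η = e / 6) (hL1 : 1 ≤ L)
    (hl1 : 1 ≤ l) (hs1 : (1 / 2 - 3 * η) * l ≤ s) (hv1 : ε ≤ v) (hv2 : v ≤ 2)
    (hl2 : l + 1 ≤ 4 * e * ε * Real.sqrt L) :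
    ∃ k κ : ℝ, 0 < k ∧ 3 / 8 ≤ s ∧ 2 * ε ^ 2 ≤ κ ∧ (1 + 2 * e) * κ ≤ 2 * v ^ 2 + 0.4 * ε ∧
      k ^ 2 * s = κ * L ∧ k ^ 2 ≤ 25 * L ∧ k ≤ 5 * Real.sqrt L ∧ k ^ 3 ≤ 125 * L ^ 2 ∧
      v * Real.sqrt (L * l) + l + 1 ≤ (1 - 2 * e) * (k * s) ∧ 0 < v * Real.sqrt (L * l) ∧
      ε * Real.sqrt L ≤ k * s := by
  have he0 : 0 < e := by rw [he]; positivity
  have he1 : e ≤ 1 / 400 := by rw [he]; linarith
  have hL0 : 0 < L := by linarith
  have hl0 : 0 < l := by linarith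
  have hv0 : 0 < v := by linarith
  have hsq1 : 1 ≤ Real.sqrt L := Real.one_le_sqrt.2 hL1
  have hsqL : Real.sqrt L ≤ L := by
    have := Real.sq_sqrt hL0.le
    nlinarith only [this, hsq1]
  have hs0 : 3 / 8 ≤ s := by
    have : (3 / 8 : ℝ) ≤ (1 / 2 - 3 * η) * l := by
      have h1 : η ≤ 1 / 2400 := by rw [hη]; linarith
      nlinarith only [h1, hl1]
    linarith
  obtain ⟨κ, hκ⟩ : ∃ κ, κ = 2 * (1 + 8 * e) ^ 2 * v ^ 2 := ⟨_, rfl⟩
  have hκ0 : 2 * ε ^ 2 ≤ κ := by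
    rw [hκ]
    have h1 : ε ^ 2 ≤ v ^ 2 := pow_le_pow_left₀ hε.le hv1 2
    have h2 : (1 : ℝ) ≤ (1 + 8 * e) ^ 2 := by nlinarith only [he0]
    have h3 : 0 ≤ ε ^ 2 := by positivity
    have h4 := mul_le_mul h2 h1 h3 (by positivity : (0 : ℝ) ≤ (1 + 8 * e) ^ 2)
    linarith
  have hv4 : v ^ 2 ≤ 4 := by nlinarith only [hv0, hv2]
  have hκ9 : κ ≤ 9 := by
    rw [hκ]
    have h2 : (1 + 8 * e) ^ 2 ≤ 1.0404 := by nlinarith only [he0, he1]
    have h3 : 0 ≤ v ^ 2 := by positivity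
    have h4 := mul_le_mul h2 hv4 h3 (by norm_num : (0 : ℝ) ≤ 1.0404)
    linarith
  have hκe : (1 + 2 * e) * κ ≤ 2 * v ^ 2 + 0.4 * ε := by
    rw [hκ]
    have h2 : (1 + 2 * e) * (1 + 8 * e) ^ 2 ≤ 1 + 20 * e := by
      have h5 : e ^ 2 ≤ 1 / 400 * e := by nlinarith only [he0, he1]
      have h6 : e ^ 3 ≤ 1 / 400 * e := by nlinarith only [he0, he1, h5]
      nlinarith only [h5, h6, he0]
    have h3 : 0 ≤ v ^ 2 := by positivity
    have h4 := mul_le_mul_of_nonneg_right h2 (show 0 ≤ 2 * v ^ 2 by positivity)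
    have h5 : 20 * e * (2 * v ^ 2) ≤ 20 * e * 8 := mul_le_mul_of_nonneg_left (by linarith) (by positivity)
    have h6 : 20 * e * 8 = 0.4 * ε := by rw [he]; ring
    nlinarith only [h4, h5, h6]
  have hκp : 0 < κ := lt_of_lt_of_le (by positivity) hκ0
  obtain ⟨k, hk⟩ : ∃ k, k = Real.sqrt (κ * L / s) := ⟨_, rfl⟩
  have hsp : 0 < s := by linarith
  have hk0 : 0 < k := by rw [hk]; positivity
  have hk2s : k ^ 2 * s = κ * L := by
    rw [hk, Real.sq_sqrt (by positivity)]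
    field_simp
  have hk2 : k ^ 2 ≤ 25 * L := by
    have h1 : k ^ 2 * (3 / 8) ≤ k ^ 2 * s := mul_le_mul_of_nonneg_left hs0 (by positivity)
    have h2 : κ * L ≤ 9 * L := mul_le_mul_of_nonneg_right hκ9 hL0.le
    rw [hk2s] at h1
    linarith
  have hk5 : k ≤ 5 * Real.sqrt L := by
    have h1 : k ^ 2 ≤ (5 * Real.sqrt L) ^ 2 := by
      rw [mul_pow, Real.sq_sqrt hL0.le]
      linarith
    exact abs_le_of_sq_le_sq' h1 (by positivity) |>.2
  have hk3 : k ^ 3 ≤ 125 * L ^ 2 := by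
    have e1 : k ^ 3 = k * k ^ 2 := by ring
    rw [e1]
    have h1 : k * k ^ 2 ≤ (5 * Real.sqrt L) * (25 * L) := mul_le_mul hk5 hk2 (by positivity) (by positivity)
    have h2 : Real.sqrt L * L ≤ L * L := mul_le_mul_of_nonneg_right hsqL hL0.le
    nlinarith only [h1, h2]
  obtain ⟨K, hK⟩ : ∃ K, K = k * s := ⟨_, rfl⟩
  obtain ⟨R, hR⟩ : ∃ R, R = v * Real.sqrt (L * l) := ⟨_, rfl⟩
  have hsl : Real.sqrt L ≤ Real.sqrt (L * l) := by
    apply Real.sqrt_le_sqrt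
    nlinarith only [hL0, hl1]
  have hRL : ε * Real.sqrt L ≤ R := by
    rw [hR]
    exact mul_le_mul hv1 hsl (by positivity) hv0.le
  have hR0 : 0 < R := by
    have : 0 < ε * Real.sqrt L := by positivity
    linarith
  have hK0 : 0 < K := by rw [hK]; positivity
  have hKR : (1 + 8 * e) * (1 - e) * R ≤ K := by
    have h1 : ((1 + 8 * e) * (1 - e) * R) ^ 2 ≤ K ^ 2 := by
      have e1 : K ^ 2 = κ * L * s := by rw [hK, mul_pow, ← hk2s]; ring
      have e2 : R ^ 2 = v ^ 2 * (L * l) := by rw [hR, mul_pow, Real.sq_sqrt (by positivity)]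
      rw [e1, mul_pow, e2, hκ]
      have h2 : (1 / 2 - 3 * η) * l ≤ s := hs1
      have h3 : (1 / 2 - 3 * η) = (1 - e) / 2 := by rw [hη]; ring
      rw [h3] at h2
      have h4 : 2 * (1 + 8 * e) ^ 2 * v ^ 2 * L * ((1 - e) / 2 * l) ≤ 2 * (1 + 8 * e) ^ 2 * v ^ 2 * L * s :=
        mul_le_mul_of_nonneg_left h2 (by positivity)
      refine le_trans ?_ h4
      have h5 : (1 - e) ^ 2 ≤ 1 - e := by nlinarith only [he0, he1]
      have h6 : 0 ≤ (1 + 8 * e) ^ 2 * (v ^ 2 * (L * l)) := by positivity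
      calc ((1 + 8 * e) * (1 - e)) ^ 2 * (v ^ 2 * (L * l)) =
          (1 - e) ^ 2 * ((1 + 8 * e) ^ 2 * (v ^ 2 * (L * l))) := by ring
        _ ≤ (1 - e) * ((1 + 8 * e) ^ 2 * (v ^ 2 * (L * l))) := mul_le_mul_of_nonneg_right h5 h6
        _ = _ := by ring
    exact (abs_le_of_sq_le_sq' h1 hK0.le).2
  have hKR1 : R ≤ K := by
    have h1 : 1 ≤ (1 + 8 * e) * (1 - e) := by nlinarith only [he0, he1]
    have h2 := mul_le_mul_of_nonneg_right h1 hR0.le
    linarith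
  have hmain : R + l + 1 ≤ (1 - 2 * e) * K := by
    have h1 : (1 + 4 * e) * R ≤ (1 - 2 * e) * K := by
      have h2 : (1 - 2 * e) * ((1 + 8 * e) * (1 - e) * R) ≤ (1 - 2 * e) * K :=
        mul_le_mul_of_nonneg_left hKR (by linarith)
      have h3 : 1 + 4 * e ≤ (1 - 2 * e) * ((1 + 8 * e) * (1 - e)) := by
        have h5 : e ^ 2 ≤ 1 / 400 * e := by nlinarith only [he0, he1]
        have h6 : 0 ≤ e ^ 3 := by positivity
        nlinarith only [h5, h6, he0]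
      have h4 := mul_le_mul_of_nonneg_right h3 hR0.le
      linarith
    have h2 : l + 1 ≤ 4 * e * R := by
      have : 4 * e * (ε * Real.sqrt L) ≤ 4 * e * R := mul_le_mul_of_nonneg_left hRL (by positivity)
      linarith
    linarith
  refine ⟨k, κ, hk0, hs0, hκ0, hκe, hk2s, hk2, hk5, hk3, ?_, ?_, ?_⟩
  · rw [← hR, ← hK]
    exact hmain
  · rw [← hR]
    exact hR0
  · rw [← hK]
    exact hRL.trans hKR1

/-- the error `θ` -/
lemma thb {k L lam mu g : ℝ} (hk0 : 0 < k) (hL1 : 1 ≤ L) (hk2 : k ^ 2 ≤ 25 * L) (hk3 : k ^ 3 ≤ 125 * L ^ 2)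
    (hmu0 : 0 < mu) (hlam0 : 0 < lam) (hml : mu ≤ lam) (hθ0 : (32050 * 800) * L ^ 2 * lam ≤ g) :
    800 * (2 * k ^ 2 * lam + 256 * k ^ 3 * mu) ≤ g := by
  have h1 : 2 * k ^ 2 * lam + 256 * k ^ 3 * mu ≤ 32050 * L ^ 2 * lam := by
    have a1 : 2 * k ^ 2 * lam ≤ 50 * L ^ 2 * lam := by
      apply mul_le_mul_of_nonneg_right _ hlam0.le
      nlinarith only [hk2, hL1]
    have a2 : 256 * k ^ 3 * mu ≤ 32000 * L ^ 2 * lam := by
      have : 256 * k ^ 3 ≤ 32000 * L ^ 2 := by linarith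
      exact mul_le_mul this hml hmu0.le (by positivity)
    linarith
  calc 800 * (2 * k ^ 2 * lam + 256 * k ^ 3 * mu) ≤ 800 * (32050 * L ^ 2 * lam) :=
        mul_le_mul_of_nonneg_left h1 (by norm_num)
    _ = (32050 * 800) * L ^ 2 * lam := by ring
    _ ≤ g := hθ0

/-- the factor `B` -/
lemma Bb {N : ℕ} {L l θ : ℝ} (hL : L = Real.log N) (hl : l = Real.log L) (hL1 : 1 ≤ L) (hl1 : 1 ≤ l)
    (hθ4 : θ ≤ 1 / 4) : Real.exp θ * (1 + 1 / (2 * dl N)) ≤ 2 * L := by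
  have hL0 : 0 < L := by linarith
  have hl0 : 0 < l := by linarith
  have hsq1 : 1 ≤ Real.sqrt L := Real.one_le_sqrt.2 hL1
  have hsqL : Real.sqrt L ≤ L := by
    have := Real.sq_sqrt hL0.le
    nlinarith only [this, hsq1]
  have hd0 : 0 < dl N := by
    unfold dl
    rw [← hL, ← hl]
    positivity
  have h1 : Real.exp θ ≤ 3 / 2 := by
    have := Real.exp_le_exp.2 hθ4
    have h2 : Real.exp (1 / 4) ≤ 3 / 2 := by
      have h3 := Real.exp_bound' (x := 1 / 4) (by norm_num) (by norm_num) (n := 2) (by norm_num)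
      norm_num [Finset.sum_range_succ, Nat.factorial] at h3
      linarith
    linarith
  have h2 : 1 / (2 * dl N) ≤ Real.sqrt L / 10 := by
    unfold dl
    rw [← hL, ← hl, div_le_iff₀ (by positivity)]
    have e1 : Real.sqrt L / 10 * (2 * (5 * Real.sqrt (l / L))) = Real.sqrt l := by
      rw [Real.sqrt_div' _ hL0.le]
      have : Real.sqrt L ≠ 0 := by positivity
      field_simp
      ring
    rw [e1]
    exact Real.one_le_sqrt.2 hl1
  have h3 : 0 < 1 / (2 * dl N) := by positivity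
  calc Real.exp θ * (1 + 1 / (2 * dl N)) ≤ 3 / 2 * (1 + Real.sqrt L / 10) :=
        mul_le_mul h1 (by linarith) (by positivity) (by norm_num)
    _ ≤ 2 * L := by linarith

open Classical in
/-- application of LS -/
lemma ls_app (hA : S_A1) (hE : S_EXPM) (hLS : S_LS) {N : ℕ} {η k s e θ B Λ D lam mu : ℝ}
    {I : Finset (ℕ → ℂ)} (hIne : I.Nonempty) (hk0 : 0 < k) (hsp : 0 < s) (he0 : 0 < e) (he1 : e ≤ 1 / 4)
    (hlam : lam = Real.exp (-(Real.log N ^ (η / 2)))) (hmu : mu = Real.exp (-(Real.log N ^ η) / 2))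
    (hθ : θ = 2 * k ^ 2 * lam + 256 * k ^ 3 * mu) (hθ4 : θ ≤ 1 / 4) (hB0 : 0 < B) (hΛ0 : 0 < Λ) (hD : 0 ≤ D)
    (hs : s = ss N η) (hL0 : 0 ≤ Real.log N) (hsm4 : 4 * k * Real.exp (-(Real.log N ^ η) / 2) ≤ 1)
    (hd0 : 0 < dl N) (hB : Real.exp θ * (1 + 1 / (2 * dl N)) ≤ B)
    (hI : ∀ a ∈ I, CM a ∧ ∀ p ∈ mid N η, ‖a p‖ = 1)
    (hbad : ∀ a ∈ I, ((I.filter fun b => Real.exp (-(Real.log N ^ (η / 2))) < corr N η a b).card : ℝ) ≤ D) :
    PT.real {ω | ((I.filter fun i => (1 - e) * k * s ≤ XX N η i ω ∧ YY N η i ω ≤ Λ).card : ℝ) <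
        (I.card : ℝ) / 4 * Real.exp (-((1 + 2 * e) * (k ^ 2 * s)))} ≤
      100 * (θ + Real.exp (-(e ^ 2 * (k ^ 2 * s))) + B / Λ +
        D * Real.exp ((1 + 2 * e) * (k ^ 2 * s)) / I.card) := by
  have hlam0 : 0 < lam := by rw [hlam]; exact Real.exp_pos _
  have hmu0 : 0 < mu := by rw [hmu]; exact Real.exp_pos _
  have hθn : 0 ≤ θ := by rw [hθ]; positivity
  have h2k : 0 ≤ 2 * k ^ 2 * lam := by positivity
  have m1 : ∀ i ∈ I, Real.exp (k ^ 2 * s - θ) ≤ ∫ ω, Real.exp (2 * k * XX N η i ω) ∂PT := by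
    intro a ha
    refine le_trans (Real.exp_le_exp.2 ?_) (mom_lower hA hE hk0 hL0 hsm4 (hI a ha).2)
    rw [← hs, ← hmu, hθ]
    linarith
  have m2 : ∀ i ∈ I, ∫ ω, Real.exp (2 * k * XX N η i ω) ∂PT ≤ Real.exp (k ^ 2 * s + θ) := by
    intro a ha
    refine le_trans (mom_upper hA hE hk0 hL0 hsm4 hk0.le (by linarith) (hI a ha).2)
      (Real.exp_le_exp.2 ?_)
    rw [← hs, ← hmu, hθ]
    linarith
  have m3 : ∀ i ∈ I, ∫ ω, Real.exp (2 * ((1 + e) * k) * XX N η i ω) ∂PT ≤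
      Real.exp (((1 + e) * k) ^ 2 * s + θ) := by
    intro a ha
    refine le_trans (mom_upper hA hE hk0 hL0 hsm4 (t := (1 + e) * k) (by positivity)
      (by nlinarith only [hk0, he1]) (hI a ha).2) (Real.exp_le_exp.2 ?_)
    rw [← hs, ← hmu, hθ]
    linarith
  have m4 : ∀ i ∈ I, ∫ ω, Real.exp (2 * ((1 - e) * k) * XX N η i ω) ∂PT ≤
      Real.exp (((1 - e) * k) ^ 2 * s + θ) := by
    intro a ha
    refine le_trans (mom_upper hA hE hk0 hL0 hsm4 (t := (1 - e) * k)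
      (mul_nonneg (by linarith) hk0.le) (by nlinarith only [hk0, he0]) (hI a ha).2) (Real.exp_le_exp.2 ?_)
    rw [← hs, ← hmu, hθ]
    linarith
  have m5 : ∀ i ∈ I, ∫ ω, Real.exp (2 * k * XX N η i ω) * YY N η i ω ∂PT ≤ B * Real.exp (k ^ 2 * s) := by
    intro a ha
    refine le_trans (mom_rest hA hE hk0 hL0 hsm4 hd0 (hI a ha).2 (hI a ha).1.2.2) ?_
    rw [← hs, ← hmu]
    have h1 : k ^ 2 * s + 256 * k ^ 3 * mu ≤ k ^ 2 * s + θ := by
      rw [hθ]
      linarith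
    calc Real.exp (k ^ 2 * s + 256 * k ^ 3 * mu) * (1 + 1 / (2 * dl N)) ≤
        Real.exp (k ^ 2 * s + θ) * (1 + 1 / (2 * dl N)) :=
          mul_le_mul_of_nonneg_right (Real.exp_le_exp.2 h1) (by positivity)
      _ = (Real.exp θ * (1 + 1 / (2 * dl N))) * Real.exp (k ^ 2 * s) := by rw [Real.exp_add]; ring
      _ ≤ B * Real.exp (k ^ 2 * s) := mul_le_mul_of_nonneg_right hB (Real.exp_pos _).le
  have m6 : ∀ i ∈ I, ∀ j ∈ I, j ∉ (fun a => I.filter fun b => Real.exp (-(Real.log N ^ (η / 2))) <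
      corr N η a b) i →
      ∫ ω, Real.exp (2 * k * XX N η i ω) * Real.exp (2 * k * XX N η j ω) ∂PT ≤
        Real.exp (2 * (k ^ 2 * s) + θ) := by
    intro a ha b hb hab
    refine le_trans (mom_pair hA hE hk0 hL0 hsm4 (hI a ha).2 (hI b hb).2)
      (Real.exp_le_exp.2 ?_)
    rw [← hs, ← hmu, hθ]
    have h1 : corr N η a b ≤ lam := by
      rw [hlam]
      by_contra h
      exact hab (Finset.mem_filter.2 ⟨hb, not_le.1 h⟩)
    have h2 : 2 * k ^ 2 * corr N η a b ≤ 2 * k ^ 2 * lam := mul_le_mul_of_nonneg_left h1 (by positivity)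
    linarith
  have hY0 : ∀ (i : ℕ → ℂ) (ω : Om), 0 ≤ YY N η i ω := by
    intro a ω
    unfold YY
    exact Finset.prod_nonneg fun p _ => by positivity
  exact hLS I (XX N η) (YY N η) k s e θ B Λ D
    (fun a => I.filter fun b => Real.exp (-(Real.log N ^ (η / 2))) < corr N η a b) hIne hk0 hsp he0 he1
    hθn hθ4 hB0 hΛ0 hD (fun a _ => XX_cont N η a) (fun a _ => YY_cont N η a) hY0 m1 m2 m3 m4 m5 m6 hbad

end Pool.Agent.Q255.FG
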