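import Pool.Agent.Q255.FG.Fam3

/-!
# Project FG: assembly of FAM, the events
-/

set_option autoImplicit false

open MeasureTheory Finset Filter Topology

namespace Pool.Agent.Q255.FG

open Q289.PAM Pool.Agent.Q255.RM

/-- the exceptional event of LT -/
def Tt (N : ℕ) (a : ℕ → ℂ) : Set Om :=
  {ω | 1 ≤ ‖∑ n ∈ Icc 1 N, f ω n * a n * (((n : ℝ) ^ (-(1 / 2 + dl N)) : ℝ) : ℂ) -
      ∏ p ∈ (range (N + 1)).filter Nat.Prime,
        (1 - f ω p * a p * (((p : ℝ) ^ (-(1 / 2 + dl N)) : ℝ) : ℂ))⁻¹‖}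

/-- a good member has a large sum -/
lemma good_large (hLG : S_LG) (hAb : S_ABEL) {N : ℕ} {η k s e Λ R l : ℝ} {a : ℕ → ℂ} {ω : Om}
    (ha : ∀ n, ‖a n‖ ≤ 1) (hs : s = ss N η) (hΛ : Λ = Real.exp (2 * e * (k * s)))
    {v : ℝ} (hbig : big v N = Real.exp R) (hR0 : 0 < R)
    (hmain : R + l + 1 ≤ (1 - 2 * e) * (k * s)) (hs2 : s ≤ 1 / 2 * l)
    (hX : (1 - e) * k * s ≤ XX N η a ω) (hY : YY N η a ω ≤ Λ) (hT : ω ∉ Tt N a) :
    ∃ n ≤ N, big v N ≤ ‖S ω a n‖ := by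
  by_contra hno
  push Not at hno
  have hΛ0 : 0 < Λ := by rw [hΛ]; exact Real.exp_pos _
  have hsqΛ : (Real.sqrt Λ)⁻¹ = Real.exp (-(e * (k * s))) := by
    rw [hΛ, show 2 * e * (k * s) = e * (k * s) + e * (k * s) by ring, Real.exp_add,
      Real.sqrt_mul_self (Real.exp_pos _).le, Real.exp_neg]
  have h1 := hAb ω a N (dl N) (big v N) (dl_nonneg N) (fun n hn => (hno n hn).le)
  have h2 : ω ∉ Tt N a := hT
  unfold Tt at h2
  rw [Set.mem_setOf_eq, not_le] at h2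
  have h3 := prod_lower hLG N η a ha ω Λ hΛ0 hY
  have h4 : Real.exp (R + 1) ≤ Real.exp (XX N η a ω - 2 * ∑ p ∈ mid N η, (p : ℝ) ^ (-(1 + 2 * dl N))) *
      (Real.sqrt Λ)⁻¹ := by
    rw [hsqΛ, ← Real.exp_add]
    apply Real.exp_le_exp.2
    have h5 : ∑ p ∈ mid N η, (p : ℝ) ^ (-(1 + 2 * dl N)) = s := by rw [hs]; rfl
    rw [h5]
    have h6 : (1 - e) * k * s = (1 - e) * (k * s) := by ring
    rw [h6] at hX
    linarith
  have h5 := h4.trans h3
  rw [hbig] at h1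
  have h7 : ‖∏ p ∈ (range (N + 1)).filter Nat.Prime, (1 - f ω p * a p * ((rr N p : ℝ) : ℂ))⁻¹‖ <
      Real.exp R + 1 := by
    have h8 := norm_sub_norm_le (∏ p ∈ (range (N + 1)).filter Nat.Prime,
      (1 - f ω p * a p * ((rr N p : ℝ) : ℂ))⁻¹)
      (∑ n ∈ Icc 1 N, f ω n * a n * (((n : ℝ) ^ (-(1 / 2 + dl N)) : ℝ) : ℂ))
    rw [norm_sub_rev] at h8
    unfold rr at h8 ⊢
    linarith
  have h8 : Real.exp R + 1 ≤ Real.exp (R + 1) := by
    rw [Real.exp_add]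
    have h9 : (2 : ℝ) ≤ Real.exp 1 := by
      have := Real.add_one_le_exp (1 : ℝ)
      linarith
    have h10 : 1 ≤ Real.exp R := Real.one_le_exp hR0.le
    nlinarith only [h9, h10]
  linarith

/-- numerical estimates for the final bound -/
lemma fin_num {ε e L s k κ v g K M : ℝ} (hε : 0 < ε) (hε1 : ε ≤ 1) (he : e = ε / 400) (hL1 : 1 ≤ L)
    (hκ0 : 2 * ε ^ 2 ≤ κ) (hκe : (1 + 2 * e) * κ ≤ 2 * v ^ 2 + 0.4 * ε) (hk2s : k ^ 2 * s = κ * L)
    (hK : ε * Real.sqrt L ≤ K) (hM : Real.exp (L * (2 * v ^ 2 + ε)) ≤ M)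
    (hc0 : 1600 * L * Real.exp (-(2 * e ^ 2 * ε ^ 2 * Real.sqrt L)) ≤ g) :
    1600 * Real.exp (-(e ^ 2 * (k ^ 2 * s))) ≤ g ∧
    800 * (2 * L / Real.exp (2 * e * K)) ≤ g ∧
    1600 * (Real.exp (L * (ε / 8)) * Real.exp ((1 + 2 * e) * (k ^ 2 * s)) / M) ≤ g ∧
    1600 * Real.exp (-(3 * L)) ≤ g := by
  have he0 : 0 < e := by rw [he]; positivity
  have he1 : e ≤ 1 / 400 := by rw [he]; linarith
  have hL0 : 0 < L := by linarith
  have hsq1 : 1 ≤ Real.sqrt L := Real.one_le_sqrt.2 hL1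
  have hsqL : Real.sqrt L ≤ L := by
    have := Real.sq_sqrt hL0.le
    nlinarith only [this, hsq1]
  have hκp : 0 < κ := lt_of_lt_of_le (by positivity) hκ0
  have hM0 : 0 < M := lt_of_lt_of_le (Real.exp_pos _) hM
  have hexpc : ∀ x : ℝ, 2 * e ^ 2 * ε ^ 2 * Real.sqrt L ≤ x → 1600 * Real.exp (-x) ≤ g := by
    intro x hx
    have h1 : Real.exp (-x) ≤ Real.exp (-(2 * e ^ 2 * ε ^ 2 * Real.sqrt L)) := Real.exp_le_exp.2 (by linarith)
    have h2 : 1600 * Real.exp (-x) ≤ 1600 * L * Real.exp (-(2 * e ^ 2 * ε ^ 2 * Real.sqrt L)) := by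
      have h3 := Real.exp_pos (-(2 * e ^ 2 * ε ^ 2 * Real.sqrt L))
      have h4 := mul_le_mul_of_nonneg_right hL1 h3.le
      linarith
    linarith
  have hee : e ^ 2 ≤ 1 := by nlinarith only [he0, he1]
  have hεε : ε ^ 2 ≤ 1 := by nlinarith only [hε, hε1]
  have q1 : 1600 * Real.exp (-(e ^ 2 * (k ^ 2 * s))) ≤ g := by
    apply hexpc
    rw [hk2s]
    have h1 : e ^ 2 * (2 * ε ^ 2 * Real.sqrt L) ≤ e ^ 2 * (κ * L) := by
      apply mul_le_mul_of_nonneg_left _ (by positivity)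
      exact mul_le_mul hκ0 hsqL (by positivity) hκp.le
    linarith
  have q2 : 800 * (2 * L / Real.exp (2 * e * K)) ≤ g := by
    have h1 : 2 * e ^ 2 * ε ^ 2 * Real.sqrt L ≤ 2 * e * K := by
      have a1 : e * ε ≤ 1 := by nlinarith only [he0, he1, hε, hε1]
      have a3 : 0 ≤ ε * Real.sqrt L := by positivity
      calc 2 * e ^ 2 * ε ^ 2 * Real.sqrt L = 2 * e * ((e * ε) * (ε * Real.sqrt L)) := by ring
        _ ≤ 2 * e * (1 * (ε * Real.sqrt L)) := by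
            apply mul_le_mul_of_nonneg_left _ (by positivity)
            exact mul_le_mul_of_nonneg_right a1 a3
        _ ≤ 2 * e * K := by
            apply mul_le_mul_of_nonneg_left _ (by positivity)
            linarith
    have h2 : 2 * L / Real.exp (2 * e * K) = 2 * L * Real.exp (-(2 * e * K)) := by
      rw [Real.exp_neg, div_eq_mul_inv]
    rw [h2]
    have h3 : Real.exp (-(2 * e * K)) ≤ Real.exp (-(2 * e ^ 2 * ε ^ 2 * Real.sqrt L)) :=
      Real.exp_le_exp.2 (by linarith)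
    have h4 : 1600 * L * Real.exp (-(2 * e * K)) ≤ 1600 * L * Real.exp (-(2 * e ^ 2 * ε ^ 2 * Real.sqrt L)) :=
      mul_le_mul_of_nonneg_left h3 (by positivity)
    linarith
  have q3 : 1600 * (Real.exp (L * (ε / 8)) * Real.exp ((1 + 2 * e) * (k ^ 2 * s)) / M) ≤ g := by
    have h1 : Real.exp (L * (ε / 8)) * Real.exp ((1 + 2 * e) * (k ^ 2 * s)) / M ≤
        Real.exp (-(0.4 * ε * L)) := by
      rw [div_le_iff₀ hM0, hk2s]
      refine le_trans ?_ (mul_le_mul_of_nonneg_left hM (Real.exp_pos _).le)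
      rw [← Real.exp_add, ← Real.exp_add]
      apply Real.exp_le_exp.2
      have h3 : (1 + 2 * e) * κ * L ≤ (2 * v ^ 2 + 0.4 * ε) * L := mul_le_mul_of_nonneg_right hκe hL0.le
      have h4 : 0 ≤ ε * L := by positivity
      linarith
    refine le_trans (mul_le_mul_of_nonneg_left h1 (by norm_num)) ?_
    apply hexpc
    have a1 : e ^ 2 * ε ≤ e * (1 / 400) := by
      have : e * ε ≤ 1 / 400 := by nlinarith only [he0, he1, hε, hε1]
      calc e ^ 2 * ε = e * (e * ε) := by ring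
        _ ≤ e * (1 / 400) := mul_le_mul_of_nonneg_left this he0.le
    have a2 : 2 * e ^ 2 * ε ^ 2 * Real.sqrt L = 2 * (e ^ 2 * ε) * (ε * Real.sqrt L) := by ring
    have a3 : ε * Real.sqrt L ≤ ε * L := mul_le_mul_of_nonneg_left hsqL hε.le
    have a4 : 0 ≤ ε * L := by positivity
    rw [a2]
    calc 2 * (e ^ 2 * ε) * (ε * Real.sqrt L) ≤ 0.4 * (ε * L) := by
          apply mul_le_mul (by linarith) a3 (by positivity) (by norm_num)
      _ = 0.4 * ε * L := by ring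
  have q4 : 1600 * Real.exp (-(3 * L)) ≤ g := by
    apply hexpc
    have a1 : 2 * e ^ 2 * ε ^ 2 ≤ 2 := by
      have := mul_le_mul hee hεε (by positivity) (by norm_num : (0:ℝ) ≤ 1)
      linarith
    calc 2 * e ^ 2 * ε ^ 2 * Real.sqrt L ≤ 2 * L := mul_le_mul a1 hsqL (by positivity) (by norm_num)
      _ ≤ 3 * L := by linarith
  exact ⟨q1, q2, q3, q4⟩

open Classical in
theorem fam (hLG : S_LG) (hA : S_A1) (hE : S_EXPM) (hLS : S_LS) (hLT : S_LT) (hAb : S_ABEL) : S_FAM := by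
  intro ε hε hε1
  obtain ⟨e, he⟩ : ∃ e, e = ε / 400 := ⟨_, rfl⟩
  obtain ⟨η, hη⟩ : ∃ η, η = e / 6 := ⟨_, rfl⟩
  have he0 : 0 < e := by rw [he]; positivity
  have he1 : e ≤ 1 / 400 := by rw [he]; linarith
  have hη0 : 0 < η := by rw [hη]; positivity
  have hη1 : η < 1 / 8 := by rw [hη]; linarith
  obtain ⟨N₁, hN₁⟩ := ev_params hA hε hε1 he hη
  obtain ⟨N₂, hN₂⟩ := hLT
  refine ⟨η, hη0, hη1, max N₁ N₂, fun N hN I hI hIc hbad v hv1 hv2 hM => ?_⟩
  obtain ⟨hL1, hl1, hs1, hs2, hsm, hml, hθ0, hc0, hl2, h4⟩ := hN₁ N (le_trans (le_max_left _ _) hN)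
  have hT := hN₂ N (le_trans (le_max_right _ _) hN)
  have hL0' : 0 ≤ Real.log N := by linarith
  have hN0 : (0 : ℝ) < N := by
    rcases Nat.eq_zero_or_pos N with h | h
    · subst h
      rw [Nat.cast_zero, Real.log_zero] at hL1
      linarith
    · exact_mod_cast h
  obtain ⟨lam, hlam⟩ : ∃ lam, lam = Real.exp (-(Real.log N ^ (η / 2))) := ⟨_, rfl⟩
  obtain ⟨mu, hmu⟩ : ∃ mu, mu = Real.exp (-(Real.log N ^ η) / 2) := ⟨_, rfl⟩
  obtain ⟨g, hg⟩ : ∃ g, g = Real.exp (-(Real.log N ^ (η / 4))) := ⟨_, rfl⟩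
  obtain ⟨s, hs⟩ : ∃ s, s = ss N η := ⟨_, rfl⟩
  rw [← hs] at hs1 hs2
  rw [← hlam, ← hmu] at hml
  rw [← hmu] at hsm
  rw [← hlam, ← hg] at hθ0
  rw [← hg] at hc0 ⊢
  obtain ⟨k, κ, hk0, hs0, hκ0, hκe, hk2s, hk2, hk5, hk3, hmain, hR0, hK⟩ :=
    par hε hε1 he hη hL1 hl1 hs1 hv1 hv2 hl2
  have hmu0 : 0 < mu := by rw [hmu]; exact Real.exp_pos _
  have hlam0 : 0 < lam := by rw [hlam]; exact Real.exp_pos _
  have hg0 : 0 < g := by rw [hg]; exact Real.exp_pos _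
  have hg1 : g ≤ 1 := by
    rw [hg]
    apply Real.exp_le_one_iff.2
    have : 0 ≤ Real.log N ^ (η / 4) := by positivity
    linarith
  have hsp : 0 < s := by linarith
  have hsm4 : 4 * k * Real.exp (-(Real.log N ^ η) / 2) ≤ 1 := by
    rw [← hmu]
    have : 4 * k * mu ≤ 20 * Real.sqrt (Real.log N) * mu := mul_le_mul_of_nonneg_right (by linarith) hmu0.le
    linarith
  obtain ⟨θ, hθ⟩ : ∃ θ, θ = 2 * k ^ 2 * lam + 256 * k ^ 3 * mu := ⟨_, rfl⟩
  have hθle : 800 * θ ≤ g := by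
    rw [hθ]
    exact thb hk0 hL1 hk2 hk3 hmu0 hlam0 hml hθ0
  have hθ4 : θ ≤ 1 / 4 := by linarith
  have hd0 : 0 < dl N := by
    unfold dl
    have h1 : 0 < Real.log N := by linarith
    have h2 : 0 < Real.log (Real.log N) := by linarith
    positivity
  have hB := Bb (N := N) rfl rfl hL1 hl1 hθ4
  have hNp : ∀ x : ℝ, (N : ℝ) ^ x = Real.exp (Real.log N * x) := fun x => by
    rw [Real.rpow_def_of_pos hN0]
  rw [hNp] at hM
  have hM0 : (0 : ℝ) < I.card := lt_of_lt_of_le (Real.exp_pos _) hM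
  have hIne : I.Nonempty := by
    rw [← Finset.card_pos]
    exact_mod_cast hM0
  have hbad' : ∀ a ∈ I, ((I.filter fun b => Real.exp (-(Real.log N ^ (η / 2))) < corr N η a b).card : ℝ) ≤
      Real.exp (Real.log N * (ε / 8)) := by
    intro a ha
    rw [← hNp]
    exact hbad a ha
  obtain ⟨Λ, hΛ⟩ : ∃ Λ, Λ = Real.exp (2 * e * (k * s)) := ⟨_, rfl⟩
  have hΛ0 : 0 < Λ := by rw [hΛ]; exact Real.exp_pos _
  have key := ls_app hA hE hLS hIne hk0 hsp he0 (by linarith) hlam hmu hθ hθ4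
    (show 0 < 2 * Real.log N by linarith) hΛ0 (Real.exp_pos (Real.log N * (ε / 8))).le hs hL0' hsm4 hd0 hB hI hbad'
  obtain ⟨q1, q2, q3, q4⟩ := fin_num hε hε1 he hL1 hκ0 hκe hk2s hK hM hc0
  rw [← hΛ] at q2
  obtain ⟨E₁, hE₁⟩ : ∃ E₁ : Set Om, E₁ = {ω | ((I.filter fun i => (1 - e) * k * s ≤ XX N η i ω ∧
    YY N η i ω ≤ Λ).card : ℝ) < (I.card : ℝ) / 4 * Real.exp (-((1 + 2 * e) * (k ^ 2 * s)))} := ⟨_, rfl⟩
  rw [← hE₁] at key
  have hTt' : ∀ a ∈ I, PT.real (Tt N a) ≤ Real.exp (Real.log N * (-6)) := by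
    intro a ha
    have := hT a (hI a ha).1
    rw [hNp] at this
    exact this
  have hbigv : big v N = Real.exp (v * Real.sqrt (Real.log N * Real.log (Real.log N))) := rfl
  have hsub : {ω | ((I.filter fun a => ∃ n ≤ N, big v N ≤ ‖S ω a n‖).card : ℝ) <
        I.card * (N : ℝ) ^ (-(2 * v ^ 2 + ε))} ⊆ E₁ ∪ ⋃ a ∈ I, Tt N a := by
    intro ω hω
    by_contra hn
    rw [Set.mem_union, not_or] at hn
    obtain ⟨hn1, hn2⟩ := hn
    rw [hE₁, Set.mem_setOf_eq, not_lt] at hn1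
    apply absurd hω
    rw [Set.mem_setOf_eq, not_lt]
    have hcard : ((I.filter fun i => (1 - e) * k * s ≤ XX N η i ω ∧ YY N η i ω ≤ Λ).card : ℝ) ≤
        ((I.filter fun a => ∃ n ≤ N, big v N ≤ ‖S ω a n‖).card : ℝ) := by
      apply Nat.cast_le.2
      apply Finset.card_le_card
      intro a ha
      rw [Finset.mem_filter] at ha ⊢
      refine ⟨ha.1, ?_⟩
      exact good_large hLG hAb (hI a ha.1).1.2.2 hs hΛ hbigv hR0 hmain hs2 ha.2.1 ha.2.2
        (fun h => hn2 (Set.mem_biUnion ha.1 h))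
    refine le_trans ?_ (hn1.trans hcard)
    rw [hNp, hk2s]
    have h1 : Real.exp (Real.log N * -(2 * v ^ 2 + ε)) * 4 ≤ Real.exp (-((1 + 2 * e) * (κ * Real.log N))) := by
      have h2 : Real.exp (Real.log N * -(2 * v ^ 2 + ε)) * 4 ≤
          Real.exp (Real.log N * -(2 * v ^ 2 + ε)) * Real.exp (0.6 * ε * Real.log N) :=
        mul_le_mul_of_nonneg_left h4 (Real.exp_pos _).le
      refine h2.trans ?_
      rw [← Real.exp_add]
      apply Real.exp_le_exp.2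
      have h3 : (1 + 2 * e) * κ * Real.log N ≤ (2 * v ^ 2 + 0.4 * ε) * Real.log N :=
        mul_le_mul_of_nonneg_right hκe hL0'
      linarith
    calc (I.card : ℝ) * Real.exp (Real.log N * -(2 * v ^ 2 + ε)) =
        (I.card : ℝ) / 4 * (Real.exp (Real.log N * -(2 * v ^ 2 + ε)) * 4) := by ring
      _ ≤ _ := mul_le_mul_of_nonneg_left h1 (by positivity)
  have hp1 : PT.real (⋃ a ∈ I, Tt N a) ≤ Real.exp (-(3 * Real.log N)) := by
    calc PT.real (⋃ a ∈ I, Tt N a) ≤ ∑ a ∈ I, PT.real (Tt N a) := measureReal_biUnion_finset_le _ _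
      _ ≤ ∑ _a ∈ I, Real.exp (Real.log N * (-6)) := Finset.sum_le_sum hTt'
      _ = I.card * Real.exp (Real.log N * (-6)) := by rw [Finset.sum_const, nsmul_eq_mul]
      _ ≤ (N : ℝ) ^ 3 * Real.exp (Real.log N * (-6)) := mul_le_mul_of_nonneg_right hIc (Real.exp_pos _).le
      _ = Real.exp (-(3 * Real.log N)) := by
          have e1 : (N : ℝ) ^ 3 = Real.exp (3 * Real.log N) := by
            rw [← Real.rpow_natCast, Real.rpow_def_of_pos hN0]
            congr 1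
            push_cast
            ring
          rw [e1, ← Real.exp_add]
          congr 1
          ring
  calc PT.real _ ≤ PT.real (E₁ ∪ ⋃ a ∈ I, Tt N a) := measureReal_mono hsub
    _ ≤ PT.real E₁ + PT.real (⋃ a ∈ I, Tt N a) := measureReal_union_le _ _
    _ ≤ 100 * (θ + Real.exp (-(e ^ 2 * (k ^ 2 * s))) + 2 * Real.log N / Λ +
        Real.exp (Real.log N * (ε / 8)) * Real.exp ((1 + 2 * e) * (k ^ 2 * s)) / I.card) +
          Real.exp (-(3 * Real.log N)) :=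
      add_le_add key hp1
    _ ≤ g := by linarith

end Pool.Agent.Q255.FG
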