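import Pool.Agent.Q255.FG.Part2
import Pool.Agent.Q255.FG.Fam4
import Pool.Agent.Q154.FG.One
import Pool.Agent.Q162.FG.BLK
import Pool.Agent.Q162.FG.LT
import Pool.Agent.Q211.FG.A1
import Pool.Agent.Q211.FG.EXPM
import Pool.Agent.Q211.FG.LS
import Pool.Agent.Q299.FG.Abel
import Pool.Agent.Q299.FG.Dom
import Pool.Agent.Q299.FG.Hml
import Pool.Agent.Q299.FG.Sg
import Pool.Agent.Q299.FG.Tup
import Pool.Agent.Q299.FG.U3
import Pool.Agent.Q299.FG.U4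

/-!
# Project FG: the maximum over a coset, and the assembly
-/

set_option autoImplicit false

open MeasureTheory Finset Filter Topology

namespace Pool.Agent.Q255.FG

open Q289.PAM Pool.Agent.Q255.RM

/-- the maximum over `C` is `exp ((√(θ/2) + O(ε)) √(log q log log q))`, `#C = q ^ θ` -/
def MaxLaw (ε : ℝ) (q : ℕ) (C : Set (DirichletCharacter ℂ q)) (ω : Om) : Prop :=
  (∀ χ ∈ C, ∀ n ≤ q, ‖S ω (fun m : ℕ => χ m) n‖ ≤
    big (Real.sqrt (Real.log C.ncard / Real.log q / 2) + ε) q) ∧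
  ∃ χ ∈ C, ∃ n ≤ q, big (Real.sqrt (Real.log C.ncard / Real.log q / 2) - ε) q ≤
    ‖S ω (fun m : ℕ => χ m) n‖

lemma maxLaw_of_law {ε : ℝ} (hε : 0 < ε) (hε1 : ε ≤ 1) {q : ℕ} (hq : q.Prime)
    {C : Set (DirichletCharacter ℂ q)} (hC : C.Nonempty) {ω : Om} (h : LawC (ε ^ 2) q C ω) :
    MaxLaw ε q C ω := by
  haveI : NeZero q := ⟨hq.ne_zero⟩
  have hq1 : (1 : ℝ) < q := by exact_mod_cast hq.one_lt
  have hq0 : (0 : ℝ) < q := by linarith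
  have hlq : 0 < Real.log q := Real.log_pos hq1
  have hc1 : 1 ≤ C.ncard := (Set.ncard_pos (Set.toFinite C)).2 hC
  have hc0 : (0 : ℝ) < C.ncard := by exact_mod_cast hc1
  have hcq : C.ncard ≤ q := by
    have h1 := Set.ncard_le_card C
    rw [card_char hq] at h1
    omega
  obtain ⟨θ, hθ⟩ : ∃ θ, θ = Real.log C.ncard / Real.log q := ⟨_, rfl⟩
  have hθ0 : 0 ≤ θ := by
    rw [hθ]
    exact div_nonneg (Real.log_nonneg (by exact_mod_cast hc1)) hlq.le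
  have hθ1 : θ ≤ 1 := by
    rw [hθ, div_le_one hlq]
    exact Real.log_le_log hc0 (by exact_mod_cast hcq)
  have hCθ : (C.ncard : ℝ) = (q : ℝ) ^ θ := by
    rw [Real.rpow_def_of_pos hq0, hθ, mul_div_cancel₀ _ hlq.ne', Real.exp_log hc0]
  have hs0 : 0 ≤ Real.sqrt (θ / 2) := Real.sqrt_nonneg _
  have hs2 : Real.sqrt (θ / 2) ^ 2 = θ / 2 := Real.sq_sqrt (by positivity)
  have hs1 : Real.sqrt (θ / 2) ≤ 1 := by
    apply Real.sqrt_le_iff.2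
    constructor
    · norm_num
    · linarith
  unfold MaxLaw
  rw [← hθ]
  constructor
  · intro χ hχ n hn
    by_contra hc
    push Not at hc
    obtain ⟨h1, -⟩ := h (Real.sqrt (θ / 2) + ε) (by positivity) (by linarith)
    have h2 : 1 ≤ num (Real.sqrt (θ / 2) + ε) q C ω := by
      unfold num
      rw [Nat.one_le_iff_ne_zero]
      apply Set.ncard_ne_zero_of_mem (a := χ) _ (Set.toFinite _)
      exact ⟨hχ, n, hn, hc.le⟩
    have h3 : (1 : ℝ) ≤ num (Real.sqrt (θ / 2) + ε) q C ω := by exact_mod_cast h2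
    have h4 := h3.trans h1
    rw [hCθ, ← Real.rpow_add hq0] at h4
    have h5 : (q : ℝ) ^ (θ + (ε ^ 2 - 2 * (Real.sqrt (θ / 2) + ε) ^ 2)) < 1 := by
      apply Real.rpow_lt_one_of_one_lt_of_neg hq1
      have : 0 < ε ^ 2 := by positivity
      have : 0 ≤ Real.sqrt (θ / 2) * ε := by positivity
      nlinarith
    linarith
  · rcases le_or_gt (Real.sqrt (θ / 2)) ε with h1 | h1
    · obtain ⟨χ, hχ⟩ := hC
      refine ⟨χ, hχ, 1, hq.one_le, ?_⟩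
      have h2 : ‖S ω (fun m : ℕ => χ m) 1‖ = 1 := by
        unfold S
        rw [Finset.Icc_self, Finset.sum_singleton, norm_div, norm_mul, norm_f]
        simp
      rw [h2]
      unfold big
      apply Real.exp_le_one_iff.2
      apply mul_nonpos_of_nonpos_of_nonneg (by linarith) (Real.sqrt_nonneg _)
    · obtain ⟨-, h2⟩ := h (Real.sqrt (θ / 2) - ε) (by linarith) (by linarith)
      have h3 : 2 * (Real.sqrt (θ / 2) - ε) ^ 2 + ε ^ 2 ≤ θ := by nlinarith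
      have h4 := h2 (by rw [hCθ]; exact Real.rpow_le_rpow_of_exponent_le hq1.le h3)
      have h5 : (0 : ℝ) < num (Real.sqrt (θ / 2) - ε) q C ω := lt_of_lt_of_le (by positivity) h4
      have h6 : 0 < num (Real.sqrt (θ / 2) - ε) q C ω := by exact_mod_cast h5
      unfold num at h6
      rw [Set.ncard_pos (Set.toFinite _)] at h6
      obtain ⟨χ, hχ, n, hn, h7⟩ := h6
      exact ⟨χ, hχ, n, hn, h7⟩

lemma cos_nonempty (q : ℕ) (χ : DirichletCharacter ℂ q) (H : Subgroup (DirichletCharacter ℂ q)) :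
    (cos q χ H).Nonempty := ⟨χ * 1, 1, H.one_mem, rfl⟩

/-- the primes `q ≤ Q` such that for some subgroup `H` many cosets violate the laws -/
def Exc (ε c : ℝ) (Q : ℕ) (ω : Om) : Set ℕ :=
  {q | q ≤ Q ∧ q.Prime ∧ ∃ H : Subgroup (DirichletCharacter ℂ q), Real.exp (-(Real.log q ^ c)) * (q - 1) <
    ({χ | ¬ (LawC ε q (cos q χ H) ω ∧ MaxLaw ε q (cos q χ H) ω)}.ncard : ℝ)}

lemma exc_le {ε c : ℝ} (hε : 0 < ε) (hε1 : ε ≤ 1) {δ : ℝ} (hδ : δ ≤ ε ^ 2) (Q : ℕ) (ω : Om) :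
    (Exc ε c Q ω).ncard ≤ nbad δ c Q ω := by
  classical
  unfold nbad
  rw [← Set.ncard_coe_finset]
  apply Set.ncard_le_ncard _ (Finset.finite_toSet _)
  intro q hq
  obtain ⟨h1, h2, H, h3⟩ := hq
  rw [Finset.mem_coe, Finset.mem_filter, Finset.mem_Icc]
  refine ⟨⟨h2.one_le, h1⟩, h2, H, lt_of_lt_of_le h3 ?_⟩
  haveI : NeZero q := ⟨h2.ne_zero⟩
  apply Nat.cast_le.2
  apply Set.ncard_le_ncard _ (Set.toFinite _)
  intro χ hχ hl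
  apply hχ
  have h4 := LawC_mono hδ h2.one_le hl
  refine ⟨LawC_mono (by nlinarith) h2.one_le h4, maxLaw_of_law hε hε1 h2 (cos_nonempty q χ H) h4⟩

theorem part1 (hF : S_FAM) (hU : S_U4) (hH : S_HMC) (hB : S_BLK) (hSG : S_SG) :
    ∀ᵐ ω ∂PT, ∀ ε : ℝ, 0 < ε → ε ≤ 1 → ∃ c : ℝ, 0 < c ∧ ∃ Q₀ : ℕ, ∀ Q : ℕ, Q₀ ≤ Q →
      ((Exc ε c Q ω).ncard : ℝ) ≤ Q * Real.exp (-(Real.log Q ^ c)) := by
  have h1 : ∀ k : ℕ, ∀ᵐ ω ∂PT, ∃ c : ℝ, 0 < c ∧ ∃ Q₀ : ℕ, ∀ Q : ℕ, Q₀ ≤ Q →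
      (nbad (1 / ((k : ℝ) + 1)) c Q ω : ℝ) ≤ Q * Real.exp (-(Real.log Q ^ c)) := by
    intro k
    have hk1 : 1 / ((k : ℝ) + 1) ≤ 1 := by
      rw [div_le_one (by positivity)]
      have : (0 : ℝ) ≤ k := by positivity
      linarith
    obtain ⟨c, hc, h2⟩ := part1_eps hF hU hH hB hSG (show 0 < 1 / ((k : ℝ) + 1) by positivity) hk1
    filter_upwards [h2] with ω h3
    exact ⟨c, hc, h3⟩
  filter_upwards [ae_all_iff.2 h1] with ω hω ε hε hε1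
  obtain ⟨k, hk⟩ := exists_nat_one_div_lt (show 0 < ε ^ 2 by positivity)
  obtain ⟨c, hc, Q₀, h2⟩ := hω k
  refine ⟨c, hc, Q₀, fun Q hQ => le_trans ?_ (h2 Q hQ)⟩
  exact_mod_cast exc_le hε hε1 hk.le Q ω

theorem all (hU0 : S_U0) :
    (∀ᵐ ω ∂PT, ∀ ε : ℝ, 0 < ε → ε ≤ 1 → ∃ c : ℝ, 0 < c ∧ ∃ Q₀ : ℕ, ∀ Q : ℕ, Q₀ ≤ Q →
      ((Exc ε c Q ω).ncard : ℝ) ≤ Q * Real.exp (-(Real.log Q ^ c))) ∧
    (∀ᵐ ω ∂PT, ∀ ε : ℝ, 0 < ε →
      (∃ Q₀ : ℕ, ∀ q : ℕ, Q₀ ≤ q → ∀ χ : DirichletCharacter ℂ q, ∀ n ≤ q,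
        ‖S ω (fun m : ℕ => χ m) n‖ < big (1 + ε) q) ∧
      ∃ Q₀ : ℕ, ∀ Q : ℕ, Q₀ ≤ Q → ∃ q : ℕ, q.Prime ∧ Q < q ∧ q ≤ 4 * Q ∧
        ∃ χ : DirichletCharacter ℂ q, χ ≠ 1 ∧ ∃ n ≤ q, big (1 - ε) q ≤ ‖S ω (fun m : ℕ => χ m) n‖) := by
  have hA : S_A1 := Pool.Agent.Q211.FG.a1
  have hONE : S_ONE := Pool.Agent.Q154.FG.one
  have hLG : S_LG := Pool.Agent.Q154.FG.lg
  have hE : S_EXPM := Pool.Agent.Q211.FG.expm hONE Pool.Agent.Q211.FG.prod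
  have hDOM : S_DOM := Pool.Agent.Q299.FG.dom
  have hU2 : S_U2 := Pool.Agent.Q162.FG.u2 hDOM hU0
  have hU3 : S_U3 := Pool.Agent.Q299.FG.u3 hDOM
  have hU4 : S_U4 := Pool.Agent.Q299.FG.u4 hU2 hU3
  have hLT : S_LT := Pool.Agent.Q162.FG.lt hDOM hU0
  have hF : S_FAM := fam hLG hA hE Pool.Agent.Q211.FG.ls hLT Pool.Agent.Q299.FG.abel
  have hTUP : S_TUP := Pool.Agent.Q299.FG.tup
  have hHMC : S_HMC := Pool.Agent.Q299.FG.hmc hTUP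
  have hHML : S_HML := Pool.Agent.Q299.FG.hml hTUP
  have hBLK : S_BLK := Pool.Agent.Q162.FG.blk hA
  have hSG : S_SG := Pool.Agent.Q299.FG.sg
  refine ⟨part1 hF hU4 hHMC hBLK hSG, ?_⟩
  filter_upwards [part2_up hU4, part2_lo hF hHML hBLK] with ω h1 h2 ε hε
  exact ⟨h1 ε hε, h2 ε hε⟩

end Pool.Agent.Q255.FG
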