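import Pool.Agent.Q255.FG.Stm

/-!
# Project FG: the sum over the middle primes, and asymptotic inequalities
-/

set_option autoImplicit false

open MeasureTheory Finset Filter Topology

namespace Pool.Agent.Q255.FG

open Q289.PAM Pool.Agent.Q255.RM

/-- `L = log N` tends to infinity -/
lemma tendsto_L : Tendsto (fun N : ℕ => Real.log N) atTop atTop :=
  Real.tendsto_log_atTop.comp tendsto_natCast_atTop_atTop

lemma ev_small {η : ℝ} (hη : 0 < η) (C : ℝ) :
    ∀ᶠ L : ℝ in atTop, C * L ^ 2 * Real.exp (-(L ^ (η / 2))) ≤ Real.exp (-(L ^ (η / 4))) := by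
  have h1 : Tendsto (fun L : ℝ => L ^ (η / 4)) atTop atTop := tendsto_rpow_atTop (by positivity)
  have h2 := (tendsto_rpow_mul_exp_neg_mul_atTop_nhds_zero (8 / η) 1 one_pos).comp h1
  have h3 : Tendsto (fun L : ℝ => (|C| + 1) * ((L ^ (η / 4)) ^ (8 / η) * Real.exp (-1 * L ^ (η / 4))))
      atTop (𝓝 ((|C| + 1) * 0)) := h2.const_mul _
  rw [mul_zero] at h3
  have h4 := h3.eventually (gt_mem_nhds (show (0 : ℝ) < 1 by norm_num))
  filter_upwards [h4, h1.eventually_ge_atTop 2, eventually_gt_atTop 0] with L h5 h6 h0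
  have e1 : (L ^ (η / 4)) ^ (8 / η) = L ^ 2 := by
    rw [← Real.rpow_mul h0.le, ← Real.rpow_natCast L 2]
    congr 1
    push_cast
    field_simp
    norm_num
  have e2 : L ^ (η / 2) = (L ^ (η / 4)) ^ 2 := by
    rw [← Real.rpow_natCast (L ^ (η / 4)) 2, ← Real.rpow_mul h0.le]
    congr 1
    push_cast
    ring
  rw [e1] at h5
  set t := L ^ (η / 4) with ht
  rw [e2]
  have h7 : C * L ^ 2 ≤ (|C| + 1) * L ^ 2 := by
    have := le_abs_self C
    have : (0 : ℝ) ≤ L ^ 2 := by positivity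
    nlinarith
  have h8 : Real.exp (-(t ^ 2)) ≤ Real.exp (-1 * t) * Real.exp (-t) := by
    rw [← Real.exp_add]
    apply Real.exp_le_exp.2
    nlinarith
  calc C * L ^ 2 * Real.exp (-(t ^ 2)) ≤ (|C| + 1) * L ^ 2 * (Real.exp (-1 * t) * Real.exp (-t)) := by
        apply mul_le_mul h7 h8 (Real.exp_pos _).le
        positivity
    _ = ((|C| + 1) * (L ^ 2 * Real.exp (-1 * t))) * Real.exp (-t) := by ring
    _ ≤ 1 * Real.exp (-t) := by
        apply mul_le_mul_of_nonneg_right h5.le (Real.exp_pos _).le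
    _ = Real.exp (-t) := one_mul _

lemma ev_sqrt {η c : ℝ} (hη : 0 < η) (hη1 : η < 1 / 8) (hc : 0 < c) (C : ℝ) :
    ∀ᶠ L : ℝ in atTop, C * L * Real.exp (-(c * Real.sqrt L)) ≤ Real.exp (-(L ^ (η / 4))) := by
  have h1 : Tendsto (fun L : ℝ => Real.sqrt L) atTop atTop := Real.tendsto_sqrt_atTop
  have h2 := (tendsto_rpow_mul_exp_neg_mul_atTop_nhds_zero 2 (c / 2) (by positivity)).comp h1
  have h3 : Tendsto (fun L : ℝ => (|C| + 1) * ((Real.sqrt L) ^ (2 : ℝ) * Real.exp (-(c / 2) * Real.sqrt L)))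
      atTop (𝓝 ((|C| + 1) * 0)) := h2.const_mul _
  rw [mul_zero] at h3
  have h4 := h3.eventually (gt_mem_nhds (show (0 : ℝ) < 1 by norm_num))
  have h5 : Tendsto (fun L : ℝ => L ^ (1 / 4 : ℝ)) atTop atTop := tendsto_rpow_atTop (by norm_num)
  filter_upwards [h4, h5.eventually_ge_atTop (2 / c), eventually_ge_atTop 1] with L h6 h7 h0
  have e1 : (Real.sqrt L) ^ (2 : ℝ) = L := by
    rw [Real.rpow_two, Real.sq_sqrt (by linarith)]
  rw [e1] at h6
  have h8 : L ^ (η / 4) ≤ c / 2 * Real.sqrt L := by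
    have a1 : Real.sqrt L = L ^ (1 / 4 : ℝ) * L ^ (1 / 4 : ℝ) := by
      rw [← Real.rpow_add (by linarith), Real.sqrt_eq_rpow]
      norm_num
    have a2 : L ^ (η / 4) ≤ L ^ (1 / 4 : ℝ) := Real.rpow_le_rpow_of_exponent_le h0 (by linarith)
    have a3 : 1 ≤ c / 2 * L ^ (1 / 4 : ℝ) := by
      have := mul_le_mul_of_nonneg_left h7 (show 0 ≤ c / 2 by positivity)
      have e : c / 2 * (2 / c) = 1 := by field_simp
      linarith
    have a4 : 0 ≤ L ^ (1 / 4 : ℝ) := by positivity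
    rw [a1]
    nlinarith
  have h9 : Real.exp (-(c * Real.sqrt L)) ≤ Real.exp (-(c / 2) * Real.sqrt L) * Real.exp (-(L ^ (η / 4))) := by
    rw [← Real.exp_add]
    apply Real.exp_le_exp.2
    linarith
  calc C * L * Real.exp (-(c * Real.sqrt L)) ≤
      (|C| + 1) * L * (Real.exp (-(c / 2) * Real.sqrt L) * Real.exp (-(L ^ (η / 4)))) := by
        apply mul_le_mul _ h9 (Real.exp_pos _).le (by positivity)
        have := le_abs_self C
        nlinarith
    _ = ((|C| + 1) * (L * Real.exp (-(c / 2) * Real.sqrt L))) * Real.exp (-(L ^ (η / 4))) := by ring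
    _ ≤ 1 * Real.exp (-(L ^ (η / 4))) := by
        apply mul_le_mul_of_nonneg_right h6.le (Real.exp_pos _).le
    _ = Real.exp (-(L ^ (η / 4))) := one_mul _

lemma mid_eq {N : ℕ} {η : ℝ} (hN : 1 ≤ Real.log N) (hη : 0 < η) :
    mid N η = (Icc 1 ⌊Real.exp (Real.log N ^ (1 / 2 - η))⌋₊).filter
      (fun p : ℕ => p.Prime ∧ Real.exp (Real.log N ^ η) < (p : ℝ)) := by
  classical
  have hN0 : (0 : ℝ) < N := by
    rcases Nat.eq_zero_or_pos N with h | h
    · subst h; norm_num at hN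
    · exact_mod_cast h
  ext p
  unfold mid
  simp only [Finset.mem_filter, Finset.mem_range, Finset.mem_Icc]
  constructor
  · rintro ⟨_, h2, h3, h4⟩
    exact ⟨⟨h2.one_lt.le, Nat.le_floor h4⟩, h2, h3⟩
  · rintro ⟨⟨_, h1⟩, h2, h3⟩
    have h4 : (p : ℝ) ≤ Real.exp (Real.log N ^ (1 / 2 - η)) :=
      (Nat.cast_le.2 h1).trans (Nat.floor_le (Real.exp_pos _).le)
    refine ⟨?_, h2, h3, h4⟩
    have h5 : Real.exp (Real.log N ^ (1 / 2 - η)) ≤ N := by
      calc Real.exp (Real.log N ^ (1 / 2 - η)) ≤ Real.exp (Real.log N ^ (1 : ℝ)) := by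
            apply Real.exp_le_exp.2
            exact Real.rpow_le_rpow_of_exponent_le hN (by linarith)
        _ = N := by rw [Real.rpow_one, Real.exp_log hN0]
    have h6 : (p : ℝ) ≤ N := h4.trans h5
    have h7 : p ≤ N := by exact_mod_cast h6
    omega

lemma s_bounds (hA : S_A1) {η : ℝ} (hη : 0 < η) (hη1 : η < 1 / 8) :
    ∃ N₀ : ℕ, ∀ N : ℕ, N₀ ≤ N →
      (1 / 2 - 3 * η) * Real.log (Real.log N) ≤ ∑ p ∈ mid N η, (p : ℝ) ^ (-(1 + 2 * dl N)) ∧
      ∑ p ∈ mid N η, (p : ℝ) ^ (-(1 + 2 * dl N)) ≤ 1 / 2 * Real.log (Real.log N) := by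
  obtain ⟨C, hC⟩ := hA.2.1
  -- eventual facts
  have hl : Tendsto (fun N : ℕ => Real.log (Real.log N)) atTop atTop := Real.tendsto_log_atTop.comp tendsto_L
  have hpow : Tendsto (fun L : ℝ => L ^ η) atTop atTop := tendsto_rpow_atTop hη
  have hlo : Tendsto (fun L : ℝ => 10 * (Real.sqrt (Real.log L) * L ^ (-η))) atTop (𝓝 (10 * 0)) := by
    apply Tendsto.const_mul
    have h1 : Tendsto (fun L : ℝ => Real.log L / L ^ (2 * η)) atTop (𝓝 0) :=
      (isLittleO_log_rpow_atTop (by positivity : 0 < 2 * η)).tendsto_div_nhds_zero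
    have h2 := (Real.continuous_sqrt.tendsto 0).comp h1
    rw [Real.sqrt_zero] at h2
    refine h2.congr' ?_
    filter_upwards [eventually_gt_atTop 0] with L hL
    simp only [Function.comp]
    rw [Real.sqrt_div' _ (by positivity), Real.rpow_neg hL.le, div_eq_mul_inv]
    congr 2
    rw [Real.sqrt_eq_rpow, ← Real.rpow_mul hL.le]
    congr 1
    ring
  rw [mul_zero] at hlo
  have hlo2 := hlo.eventually (gt_mem_nhds (show (0 : ℝ) < η by exact hη))
  have ev : ∀ᶠ N : ℕ in atTop, 1 ≤ Real.log N ∧ 1 ≤ Real.log (Real.log N) ∧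
      2 ≤ Real.exp (Real.log N ^ η) ∧ 2 * (C / η + |C| / η) ≤ Real.log (Real.log N) ∧
      10 * (Real.sqrt (Real.log (Real.log N)) * Real.log N ^ (-η)) < η := by
    filter_upwards [tendsto_L.eventually_ge_atTop 1, hl.eventually_ge_atTop 1,
      (hpow.comp tendsto_L).eventually_ge_atTop 1, hl.eventually_ge_atTop (2 * (C / η + |C| / η)),
      tendsto_L.eventually hlo2] with N h1 h2 h3 h4 h5
    refine ⟨h1, h2, ?_, h4, h5⟩
    have : (1 : ℝ) ≤ Real.log N ^ η := h3
    calc (2 : ℝ) ≤ 1 + 1 := by norm_num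
      _ ≤ Real.log N ^ η + 1 := by linarith
      _ ≤ Real.exp (Real.log N ^ η) := Real.add_one_le_exp _
  obtain ⟨N₀, hN₀⟩ := eventually_atTop.1 ev
  refine ⟨N₀, fun N hN => ?_⟩
  obtain ⟨h1, h2, h3, h4, h5⟩ := hN₀ N hN
  set L := Real.log N with hL
  set l := Real.log L with hl'
  have hL0 : 0 < L := by linarith
  have hxy : Real.exp (L ^ η) ≤ Real.exp (L ^ (1 / 2 - η)) :=
    Real.exp_le_exp.2 (Real.rpow_le_rpow_of_exponent_le h1 (by linarith))
  have hM := hC (Real.exp (L ^ (1 / 2 - η))) (Real.exp (L ^ η)) h3 hxy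
  rw [← mid_eq h1 hη, Real.log_exp, Real.log_exp, Real.log_rpow hL0, Real.log_rpow hL0, ← hl'] at hM
  have hM1 := abs_le.1 hM
  have hCle : C ≤ η / 4 * l := by
    have a := mul_le_mul_of_nonneg_left h4 hη.le
    have e : η * (2 * (C / η + |C| / η)) = 2 * (C + |C|) := by field_simp
    rw [e] at a
    have hCC : 0 ≤ C := le_trans (abs_nonneg _) hM
    rw [abs_of_nonneg hCC] at a
    linarith
  have hpos : ∀ p ∈ mid N η, (0 : ℝ) < p := by
    intro p hp
    rw [mid_eq h1 hη, Finset.mem_filter] at hp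
    exact_mod_cast hp.2.1.pos
  have hdl : 0 ≤ dl N := by unfold dl; positivity
  constructor
  · -- lower
    have hterm : ∀ p ∈ mid N η, (1 - η) * (1 / (p : ℝ)) ≤ (p : ℝ) ^ (-(1 + 2 * dl N)) := by
      intro p hp
      have hp0 := hpos p hp
      have hple : (p : ℝ) ≤ Real.exp (L ^ (1 / 2 - η)) := by
        rw [mid_eq h1 hη, Finset.mem_filter, Finset.mem_Icc] at hp
        exact (Nat.cast_le.2 hp.1.2).trans (Nat.floor_le (Real.exp_pos _).le)
      have e1 : (p : ℝ) ^ (-(1 + 2 * dl N)) = (1 / (p : ℝ)) * Real.exp (-(2 * dl N) * Real.log p) := by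
        rw [show -(1 + 2 * dl N) = -1 + -(2 * dl N) by ring, Real.rpow_add hp0, Real.rpow_neg_one,
          one_div, Real.rpow_def_of_pos hp0 (-(2 * dl N)), mul_comm (Real.log p)]
      rw [e1, mul_comm (1 - η)]
      apply mul_le_mul_of_nonneg_left _ (by positivity)
      have hlogp : Real.log p ≤ L ^ (1 / 2 - η) := by
        rw [← Real.log_exp (L ^ (1 / 2 - η))]
        exact Real.log_le_log hp0 hple
      have e2 : 2 * dl N * Real.log p ≤ 10 * (Real.sqrt l * L ^ (-η)) := by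
        have a1 : 2 * dl N * Real.log p ≤ 2 * dl N * L ^ (1 / 2 - η) :=
          mul_le_mul_of_nonneg_left hlogp (by positivity)
        have a2 : 2 * dl N * L ^ (1 / 2 - η) = 10 * (Real.sqrt l * L ^ (-η)) := by
          unfold dl
          rw [← hL, ← hl', Real.sqrt_div' _ hL0.le, Real.sqrt_eq_rpow L,
            show (1 / 2 - η : ℝ) = 1 / 2 + -η by ring, Real.rpow_add hL0]
          have : L ^ (1 / 2 : ℝ) ≠ 0 := by positivity
          field_simp
          ring
        linarith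
      have e3 : 1 - η ≤ Real.exp (-(2 * dl N) * Real.log p) := by
        have := Real.add_one_le_exp (-(2 * dl N) * Real.log p)
        linarith
      exact e3
    have hsum := Finset.sum_le_sum hterm
    rw [← Finset.mul_sum] at hsum
    have h6 : (1 / 2 - 2 * η) * l - η / 4 * l ≤ ∑ p ∈ mid N η, (1 / (p : ℝ)) := by
      linarith [hM1.1]
    have h7 : (1 - η) * ((1 / 2 - 2 * η) * l - η / 4 * l) ≤ (1 - η) * ∑ p ∈ mid N η, (1 / (p : ℝ)) :=
      mul_le_mul_of_nonneg_left h6 (by linarith)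
    refine le_trans ?_ (h7.trans hsum)
    have h8 : 0 ≤ l * (η / 4 + 9 / 4 * η ^ 2) := by positivity
    nlinarith [h8]
  · have hterm : ∀ p ∈ mid N η, (p : ℝ) ^ (-(1 + 2 * dl N)) ≤ 1 / (p : ℝ) := by
      intro p hp
      have hp0 := hpos p hp
      have hp1 : (1 : ℝ) ≤ p := by exact_mod_cast hp0
      rw [one_div, ← Real.rpow_neg_one]
      exact Real.rpow_le_rpow_of_exponent_le hp1 (by linarith)
    have hsum := Finset.sum_le_sum hterm
    have h6 : ∑ p ∈ mid N η, (1 / (p : ℝ)) ≤ (1 / 2 - η) * l := by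
      have : 0 ≤ η * l := by positivity
      linarith [hM1.2]
    have : 0 ≤ η * l := by positivity
    linarith

end Pool.Agent.Q255.FG
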