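import Pool.Agent.Q255.FG.Stm
import Pool.Agent.Q255.FG.SBound

/-!
# Project FG: the law for a family of functions with few bad pairs
-/

set_option autoImplicit false

open MeasureTheory Finset Filter Topology

namespace Pool.Agent.Q255.FG

open Q289.PAM Pool.Agent.Q255.RM

open Classical in
/-- Markov's inequality for the number of events that occur -/
lemma markov_count {ι : Type*} (s : Finset ι) (B : ι → Set Om) {t : ℝ} (ht : 0 < t) :
    PT.real {ω | t ≤ ((s.filter fun i => ω ∈ B i).card : ℝ)} ≤ (∑ i ∈ s, PT.real (B i)) / t := by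
  have hm : ∀ i, MeasurableSet (toMeasurable PT (B i)) := fun i => measurableSet_toMeasurable _ _
  have h1 : ∀ ω, ((s.filter fun i => ω ∈ B i).card : ℝ) ≤
      ∑ i ∈ s, (toMeasurable PT (B i)).indicator (fun _ => (1 : ℝ)) ω := by
    intro ω
    rw [Finset.card_filter]
    push_cast
    apply Finset.sum_le_sum
    intro i _
    by_cases h : ω ∈ B i
    · rw [if_pos h, Set.indicator_of_mem (subset_toMeasurable _ _ h)]
    · rw [if_neg h]
      exact Set.indicator_nonneg (fun _ _ => zero_le_one) _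
  have hint : Integrable (fun ω => ∑ i ∈ s, (toMeasurable PT (B i)).indicator (fun _ => (1 : ℝ)) ω) PT := by
    apply integrable_finsetSum
    intro i _
    exact (integrable_const (1 : ℝ)).indicator (hm i)
  have h2 := mul_meas_ge_le_integral_of_nonneg (μ := PT)
    (Eventually.of_forall fun ω => Finset.sum_nonneg fun i _ => Set.indicator_nonneg (fun _ _ => zero_le_one) ω)
    hint t
  have h3 : ∫ ω, ∑ i ∈ s, (toMeasurable PT (B i)).indicator (fun _ => (1 : ℝ)) ω ∂PT =
      ∑ i ∈ s, PT.real (B i) := by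
    rw [integral_finsetSum _ fun i _ => (integrable_const (1 : ℝ)).indicator (hm i)]
    apply Finset.sum_congr rfl
    intro i _
    rw [integral_indicator_const _ (hm i), smul_eq_mul, mul_one]
    unfold Measure.real
    rw [measure_toMeasurable]
  rw [h3] at h2
  rw [le_div_iff₀ ht, mul_comm]
  refine le_trans (mul_le_mul_of_nonneg_left (measureReal_mono ?_) ht.le) h2
  intro ω hω
  exact le_trans hω (h1 ω)

open Classical in
/-- the number of members with a large sum -/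
noncomputable def cnt (v : ℝ) (N : ℕ) (I : Finset (ℕ → ℂ)) (ω : Om) : ℕ :=
  (I.filter fun a => ∃ n ≤ N, big v N ≤ ‖S ω a n‖).card

/-- the law for a finite set of functions -/
def LawF (ε : ℝ) (N : ℕ) (I : Finset (ℕ → ℂ)) (ω : Om) : Prop :=
  ∀ v : ℝ, 0 ≤ v → v ≤ 2 → (cnt v N I ω : ℝ) ≤ I.card * (N : ℝ) ^ (ε - 2 * v ^ 2) ∧
    ((N : ℝ) ^ (2 * v ^ 2 + ε) ≤ I.card → I.card * (N : ℝ) ^ (-(2 * v ^ 2 + ε)) ≤ cnt v N I ω)

lemma big_mono {v w : ℝ} (h : v ≤ w) (N : ℕ) : big v N ≤ big w N := by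
  unfold big
  apply Real.exp_le_exp.2
  exact mul_le_mul_of_nonneg_right h (Real.sqrt_nonneg _)

lemma cnt_anti {v w : ℝ} (h : v ≤ w) (N : ℕ) (I : Finset (ℕ → ℂ)) (ω : Om) : cnt w N I ω ≤ cnt v N I ω := by
  classical
  unfold cnt
  apply Finset.card_le_card
  intro a ha
  rw [Finset.mem_filter] at ha ⊢
  obtain ⟨h1, n, h2, h3⟩ := ha
  exact ⟨h1, n, h2, (big_mono h N).trans h3⟩

lemma cnt_le (v : ℝ) (N : ℕ) (I : Finset (ℕ → ℂ)) (ω : Om) : cnt v N I ω ≤ I.card := by
  classical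
  unfold cnt
  exact Finset.card_filter_le _ _

/-- the upper bound fails with small probability -/
lemma up_prob {ε₁ w : ℝ} {N : ℕ} (hN : 1 ≤ N) (I : Finset (ℕ → ℂ))
    (h : ∀ a ∈ I, PT.real {ω | ∃ n ≤ N, big w N ≤ ‖S ω a n‖} ≤ (N : ℝ) ^ (ε₁ - 2 * w ^ 2)) :
    PT.real {ω | I.card * (N : ℝ) ^ (2 * ε₁ - 2 * w ^ 2) < (cnt w N I ω : ℝ)} ≤ (N : ℝ) ^ (-ε₁) := by
  classical
  have hN0 : (0 : ℝ) < N := by exact_mod_cast hN
  rcases Finset.eq_empty_or_nonempty I with hI | hI
  · have : {ω | I.card * (N : ℝ) ^ (2 * ε₁ - 2 * w ^ 2) < (cnt w N I ω : ℝ)} = ∅ := by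
      ext ω
      simp only [Set.mem_setOf_eq, Set.mem_empty_iff_false, iff_false, not_lt]
      have h1 := cnt_le w N I ω
      rw [hI, Finset.card_empty] at h1
      rw [hI, Finset.card_empty, Nat.cast_zero, zero_mul]
      exact_mod_cast h1
    rw [this, measureReal_empty]
    positivity
  · have hc : (0 : ℝ) < I.card := by exact_mod_cast Finset.card_pos.2 hI
    have h1 := markov_count I (fun a => {ω | ∃ n ≤ N, big w N ≤ ‖S ω a n‖})
      (t := I.card * (N : ℝ) ^ (2 * ε₁ - 2 * w ^ 2)) (by positivity)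
    refine le_trans (measureReal_mono fun ω hω => ?_) (h1.trans ?_)
    · rw [Set.mem_setOf_eq] at hω ⊢
      refine le_trans hω.le ?_
      apply Nat.cast_le.2
      unfold cnt
      apply Finset.card_le_card
      intro a ha
      exact (@Finset.mem_filter _ _ (_) _ _).2 (Finset.mem_filter.1 ha)
    · rw [div_le_iff₀ (by positivity)]
      calc ∑ a ∈ I, PT.real {ω | ∃ n ≤ N, big w N ≤ ‖S ω a n‖} ≤ ∑ _a ∈ I, (N : ℝ) ^ (ε₁ - 2 * w ^ 2) :=
            Finset.sum_le_sum h
        _ = I.card * (N : ℝ) ^ (ε₁ - 2 * w ^ 2) := by rw [Finset.sum_const, nsmul_eq_mul]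
        _ = (N : ℝ) ^ (-ε₁) * (I.card * (N : ℝ) ^ (2 * ε₁ - 2 * w ^ 2)) := by
            rw [mul_left_comm, ← Real.rpow_add hN0]
            congr 2
            ring

/-- grid points -/
noncomputable def gp (ε : ℝ) (i : ℕ) : ℝ := ε / 8 + i * (ε / 32)

lemma law_of_grid {ε : ℝ} (hε : 0 < ε) (hε1 : ε ≤ 1) {N : ℕ} (hN : 2 ≤ N) {I : Finset (ℕ → ℂ)}
    (hIc : (I.card : ℝ) ≤ N) {ω : Om} {K : ℕ} (hK : 64 / ε + 1 ≤ K)
    (hu : ∀ i ≤ K, gp ε i ≤ 2 →
      (cnt (gp ε i) N I ω : ℝ) ≤ I.card * (N : ℝ) ^ (2 * (ε / 8) - 2 * gp ε i ^ 2))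
    (hl : ∀ i ≤ K, gp ε i ≤ 2 → (N : ℝ) ^ (2 * gp ε i ^ 2 + ε / 8) ≤ I.card →
      I.card * (N : ℝ) ^ (-(2 * gp ε i ^ 2 + ε / 8)) ≤ cnt (gp ε i) N I ω) :
    LawF ε N I ω := by
  have hN1 : (1 : ℝ) < N := by exact_mod_cast hN
  have hN1' : (1 : ℝ) ≤ N := hN1.le
  intro v hv0 hv2
  have hh : 0 < ε / 32 := by positivity
  constructor
  · -- upper bound
    rcases le_or_gt (2 * v ^ 2) ε with h | h
    · have h1 : (1 : ℝ) ≤ (N : ℝ) ^ (ε - 2 * v ^ 2) := Real.one_le_rpow hN1' (by linarith)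
      have h2 : (cnt v N I ω : ℝ) ≤ I.card := by exact_mod_cast cnt_le v N I ω
      have h3 : (0 : ℝ) ≤ I.card := by positivity
      have := mul_le_mul_of_nonneg_left h1 h3
      linarith
    · have hv : ε / 8 ≤ v := by
        by_contra hc
        push Not at hc
        have : v ^ 2 ≤ (ε / 8) ^ 2 := pow_le_pow_left₀ hv0 hc.le 2
        nlinarith only [this, h, hε, hε1]
      obtain ⟨i, hi⟩ : ∃ i, i = ⌊(v - ε / 8) / (ε / 32)⌋₊ := ⟨_, rfl⟩
      have h1 : (i : ℝ) ≤ (v - ε / 8) / (ε / 32) := by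
        rw [hi]
        apply Nat.floor_le
        apply div_nonneg (by linarith) hh.le
      have h2 : (v - ε / 8) / (ε / 32) < i + 1 := by
        rw [hi]
        exact Nat.lt_floor_add_one _
      rw [le_div_iff₀ hh] at h1
      rw [div_lt_iff₀ hh] at h2
      have h3 : gp ε i ≤ v := by unfold gp; linarith
      have h4 : v < gp ε i + ε / 32 := by unfold gp; linarith
      have h5 : i ≤ K := by
        have : (i : ℝ) ≤ K := by
          refine le_trans ?_ hK
          have : (i : ℝ) ≤ 64 / ε := by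
            rw [le_div_iff₀ hε]
            linarith
          linarith
        exact_mod_cast this
      have h6 := hu i h5 (h3.trans hv2)
      have h7 : (cnt v N I ω : ℝ) ≤ cnt (gp ε i) N I ω := by exact_mod_cast cnt_anti h3 N I ω
      refine h7.trans (h6.trans ?_)
      apply mul_le_mul_of_nonneg_left _ (by positivity)
      apply Real.rpow_le_rpow_of_exponent_le hN1'
      have h8 : 0 ≤ gp ε i := by unfold gp; positivity
      have h9 : v ^ 2 - gp ε i ^ 2 ≤ ε / 8 := by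
        have e1 : v ^ 2 - gp ε i ^ 2 = (v - gp ε i) * (v + gp ε i) := by ring
        rw [e1]
        have h10 : (v - gp ε i) * (v + gp ε i) ≤ (ε / 32) * 4 :=
          mul_le_mul (by linarith) (by linarith) (by linarith) (by positivity)
        linarith
      linarith
  · intro hc
    have hv1 : 2 * v ^ 2 + ε ≤ 1 := by
      have h1 : (N : ℝ) ^ (2 * v ^ 2 + ε) ≤ (N : ℝ) ^ (1 : ℝ) := by
        rw [Real.rpow_one]
        exact hc.trans hIc
      exact (Real.rpow_le_rpow_left_iff hN1).1 h1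
    have hv1' : v ≤ 1 := by nlinarith only [hv1, hv0, hε]
    obtain ⟨i, hi⟩ : ∃ i, i = ⌈(v - ε / 8) / (ε / 32)⌉₊ := ⟨_, rfl⟩
    have h1 : (v - ε / 8) / (ε / 32) ≤ i := by
      rw [hi]
      exact Nat.le_ceil _
    rw [div_le_iff₀ hh] at h1
    have h3 : v ≤ gp ε i := by unfold gp; linarith
    have h4 : 2 * gp ε i ^ 2 ≤ 2 * v ^ 2 + ε / 2 ∧ (i : ℝ) ≤ 64 / ε + 1 ∧ gp ε i ≤ 2 := by
      rcases le_or_gt v (ε / 8) with h | h
      · have : i = 0 := by
          rw [hi, Nat.ceil_eq_zero]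
          apply div_nonpos_of_nonpos_of_nonneg (by linarith) hh.le
        rw [this]
        unfold gp
        push_cast
        refine ⟨?_, by positivity, by linarith⟩
        nlinarith only [hε, hε1, sq_nonneg v]
      · have h2 : (i : ℝ) < (v - ε / 8) / (ε / 32) + 1 := by
          rw [hi]
          apply Nat.ceil_lt_add_one
          apply div_nonneg (by linarith) hh.le
        have h5 : (i : ℝ) * (ε / 32) < v - ε / 8 + ε / 32 := by
          have := mul_lt_mul_of_pos_right h2 hh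
          have e1 : ((v - ε / 8) / (ε / 32) + 1) * (ε / 32) = v - ε / 8 + ε / 32 := by field_simp
          linarith
        have h6 : gp ε i ≤ v + ε / 32 := by unfold gp; linarith
        have h7 : 0 ≤ gp ε i := by unfold gp; positivity
        refine ⟨?_, ?_, by linarith⟩
        · have h8 : gp ε i ^ 2 ≤ (v + ε / 32) ^ 2 := pow_le_pow_left₀ h7 h6 2
          have h9 : (v + ε / 32) ^ 2 ≤ v ^ 2 + ε / 4 := by nlinarith only [hv0, hv1', hε, hε1]
          linarith
        · have h8 : (v - ε / 8) / (ε / 32) ≤ 64 / ε := by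
            rw [div_le_div_iff₀ hh hε]
            nlinarith only [hv1', hε, hε1]
          linarith
    obtain ⟨h4a, h4b, h4c⟩ := h4
    have h5 : i ≤ K := by
      have : (i : ℝ) ≤ K := h4b.trans hK
      exact_mod_cast this
    have h6 := hl i h5 h4c (le_trans (Real.rpow_le_rpow_of_exponent_le hN1' (by linarith)) hc)
    have h7 : (cnt (gp ε i) N I ω : ℝ) ≤ cnt v N I ω := by exact_mod_cast cnt_anti h3 N I ω
    refine le_trans ?_ (h6.trans h7)
    apply mul_le_mul_of_nonneg_left _ (by positivity)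
    apply Real.rpow_le_rpow_of_exponent_le hN1'
    linarith

open Classical in
/-- the law for a family with few bad pairs -/
theorem law_prob (hF : S_FAM) (hU : S_U4) {ε : ℝ} (hε : 0 < ε) (hε1 : ε ≤ 1) :
    ∃ η : ℝ, 0 < η ∧ η < 1 / 8 ∧ ∃ N₀ : ℕ, ∀ N : ℕ, N₀ ≤ N → ∀ I : Finset (ℕ → ℂ),
      (∀ a ∈ I, CM a ∧ ∀ p ∈ mid N η, ‖a p‖ = 1) → (I.card : ℝ) ≤ N →
      (∀ a ∈ I, ((I.filter fun b => Real.exp (-(Real.log N ^ (η / 2))) < corr N η a b).card : ℝ) ≤
        (N : ℝ) ^ (ε / 64)) →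
      PT.real {ω | ¬ LawF ε N I ω} ≤ Real.exp (-(Real.log N ^ (η / 8))) := by
  obtain ⟨η, hη0, hη1, N₁, hN₁⟩ := hF (ε / 8) (by positivity) (by linarith)
  obtain ⟨N₂, hN₂⟩ := hU (ε / 8) (by positivity)
  obtain ⟨K, hK⟩ : ∃ K : ℕ, 64 / ε + 1 ≤ K := exists_nat_ge _
  have hev : ∀ᶠ L : ℝ in atTop, ((K : ℝ) + 1) * (Real.exp (-(ε / 8) * L) + Real.exp (-(L ^ (η / 4)))) ≤
      Real.exp (-(L ^ (η / 8))) := by
    have h1 := ev_small (η := η / 2) (by positivity) ((K : ℝ) + 1 + (K + 1))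
    have h2 : ∀ᶠ L : ℝ in atTop, Real.exp (-(ε / 8) * L) ≤ Real.exp (-(L ^ (η / 4))) := by
      filter_upwards [Real.tendsto_sqrt_atTop.eventually_ge_atTop (8 / ε), eventually_ge_atTop 1] with L h3 h5
      have h4 : L ^ (η / 4) ≤ Real.sqrt L := by
        rw [Real.sqrt_eq_rpow]
        exact Real.rpow_le_rpow_of_exponent_le h5 (by linarith)
      have h6 : Real.sqrt L * (8 / ε) ≤ Real.sqrt L * Real.sqrt L :=
        mul_le_mul_of_nonneg_left h3 (Real.sqrt_nonneg L)
      rw [Real.mul_self_sqrt (by linarith), mul_div_assoc', div_le_iff₀ hε] at h6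
      apply Real.exp_le_exp.2
      linarith
    filter_upwards [h1, h2, eventually_ge_atTop 1] with L h3 h4 h5
    have e1 : η / 2 / 2 = η / 4 := by ring
    have e2 : η / 2 / 4 = η / 8 := by ring
    rw [e1, e2] at h3
    have h6 : (1 : ℝ) ≤ L ^ 2 := by nlinarith
    have h7 := Real.exp_pos (-(L ^ (η / 4)))
    have h8 : (0 : ℝ) ≤ (K : ℝ) + 1 := by positivity
    calc ((K : ℝ) + 1) * (Real.exp (-(ε / 8) * L) + Real.exp (-(L ^ (η / 4)))) ≤
        ((K : ℝ) + 1) * (Real.exp (-(L ^ (η / 4))) + Real.exp (-(L ^ (η / 4)))) :=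
          mul_le_mul_of_nonneg_left (by linarith) h8
      _ = ((K : ℝ) + 1 + (K + 1)) * 1 * Real.exp (-(L ^ (η / 4))) := by ring
      _ ≤ ((K : ℝ) + 1 + (K + 1)) * L ^ 2 * Real.exp (-(L ^ (η / 4))) := by
          apply mul_le_mul_of_nonneg_right _ h7.le
          apply mul_le_mul_of_nonneg_left h6 (by positivity)
      _ ≤ _ := h3
  obtain ⟨N₃, hN₃⟩ := eventually_atTop.1 (tendsto_L.eventually hev)
  refine ⟨η, hη0, hη1, max (max N₁ N₂) (max N₃ 2), fun N hN I hI hIc hbad => ?_⟩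
  have hNN₁ : N₁ ≤ N := le_trans (le_trans (le_max_left _ _) (le_max_left _ _)) hN
  have hNN₂ : N₂ ≤ N := le_trans (le_trans (le_max_right _ _) (le_max_left _ _)) hN
  have hNN₃ : N₃ ≤ N := le_trans (le_trans (le_max_left _ _) (le_max_right _ _)) hN
  have hN2 : 2 ≤ N := le_trans (le_trans (le_max_right _ _) (le_max_right _ _)) hN
  have hN0 : (0 : ℝ) < N := by positivity
  have hN1 : (1 : ℝ) ≤ N := by exact_mod_cast (by omega : 1 ≤ N)
  obtain ⟨U, hU⟩ : ∃ U : ℕ → Set Om, U = fun i =>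
    {ω | I.card * (N : ℝ) ^ (2 * (ε / 8) - 2 * gp ε i ^ 2) < (cnt (gp ε i) N I ω : ℝ)} := ⟨_, rfl⟩
  obtain ⟨V, hV⟩ : ∃ V : ℕ → Set Om, V = fun i =>
    {ω | (cnt (gp ε i) N I ω : ℝ) < I.card * (N : ℝ) ^ (-(2 * gp ε i ^ 2 + ε / 8))} := ⟨_, rfl⟩
  obtain ⟨W, hW⟩ : ∃ W : ℕ → Set Om, W = fun i => if gp ε i ≤ 2 then
    (U i ∪ if (N : ℝ) ^ (2 * gp ε i ^ 2 + ε / 8) ≤ I.card then V i else ∅) else ∅ := ⟨_, rfl⟩
  have hgp : ∀ i, ε / 8 ≤ gp ε i := by
    intro i
    unfold gp
    have : 0 ≤ (i : ℝ) * (ε / 32) := by positivity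
    linarith
  have hWp : ∀ i, PT.real (W i) ≤ Real.exp (-(ε / 8) * Real.log N) + Real.exp (-(Real.log N ^ (η / 4))) := by
    intro i
    have hp1 := Real.exp_pos (-(ε / 8) * Real.log N)
    have hp2 := Real.exp_pos (-(Real.log N ^ (η / 4)))
    rw [hW]
    dsimp only
    split_ifs with h1 h2
    · refine (measureReal_union_le _ _).trans (add_le_add ?_ ?_)
      · rw [hU]
        refine (up_prob (by omega) I fun a ha => hN₂ N hNN₂ _ (hgp i) h1 a (hI a ha).1.2.2).trans ?_
        rw [Real.rpow_def_of_pos hN0]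
        apply le_of_eq
        congr 1
        ring
      · rw [hV]
        have h3 := hN₁ N hNN₁ I hI (hIc.trans ?_) ?_ (gp ε i) (hgp i) h1 h2
        · unfold cnt
          exact h3
        · calc (N : ℝ) = (N : ℝ) ^ 1 := (pow_one _).symm
            _ ≤ (N : ℝ) ^ 3 := pow_le_pow_right₀ hN1 (by norm_num)
        · intro a ha
          have e1 : ε / 8 / 8 = ε / 64 := by ring
          rw [e1]
          exact hbad a ha
    · rw [Set.union_empty]
      refine le_trans ?_ (le_add_of_nonneg_right hp2.le)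
      rw [hU]
      refine (up_prob (by omega) I fun a ha => hN₂ N hNN₂ _ (hgp i) h1 a (hI a ha).1.2.2).trans ?_
      rw [Real.rpow_def_of_pos hN0]
      apply le_of_eq
      congr 1
      ring
    · rw [measureReal_empty]
      positivity
  have hsub : {ω | ¬ LawF ε N I ω} ⊆ ⋃ i ∈ range (K + 1), W i := by
    intro ω hω
    by_contra hn
    apply hω
    simp only [Set.mem_iUnion, not_exists] at hn
    refine law_of_grid hε hε1 hN2 hIc hK ?_ ?_
    · intro i hi hg
      by_contra h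
      push Not at h
      refine hn i (Finset.mem_range.2 (by omega)) ?_
      rw [hW]
      dsimp only
      rw [if_pos hg]
      left
      rw [hU]
      exact h
    · intro i hi hg hc
      by_contra h
      push Not at h
      refine hn i (Finset.mem_range.2 (by omega)) ?_
      rw [hW]
      dsimp only
      rw [if_pos hg, if_pos hc]
      right
      rw [hV]
      exact h
  calc PT.real {ω | ¬ LawF ε N I ω} ≤ PT.real (⋃ i ∈ range (K + 1), W i) :=
        measureReal_mono hsub (measure_ne_top _ _)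
    _ ≤ ∑ i ∈ range (K + 1), PT.real (W i) := measureReal_biUnion_finset_le _ _
    _ ≤ ∑ _i ∈ range (K + 1), (Real.exp (-(ε / 8) * Real.log N) + Real.exp (-(Real.log N ^ (η / 4)))) :=
        Finset.sum_le_sum fun i _ => hWp i
    _ = ((K : ℝ) + 1) * (Real.exp (-(ε / 8) * Real.log N) + Real.exp (-(Real.log N ^ (η / 4)))) := by
        rw [Finset.sum_const, card_range, nsmul_eq_mul]
        push_cast
        ring
    _ ≤ _ := hN₃ N hNN₃

end Pool.Agent.Q255.FG
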