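import Pool.Agent.Q255.FG.Coset

/-!
# Project FG: almost all primes
-/

set_option autoImplicit false

open MeasureTheory Finset Filter Topology

namespace Pool.Agent.Q255.FG

open Q289.PAM Pool.Agent.Q255.RM

/-- the number of `χ ∈ C` with a large sum -/
noncomputable def num (v : ℝ) (q : ℕ) (C : Set (DirichletCharacter ℂ q)) (ω : Om) : ℕ :=
  {χ ∈ C | ∃ n ≤ q, big v q ≤ ‖S ω (fun m : ℕ => χ m) n‖}.ncard

/-- the law for a set of characters -/
def LawC (ε : ℝ) (q : ℕ) (C : Set (DirichletCharacter ℂ q)) (ω : Om) : Prop :=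
  ∀ v : ℝ, 0 ≤ v → v ≤ 2 → (num v q C ω : ℝ) ≤ C.ncard * (q : ℝ) ^ (ε - 2 * v ^ 2) ∧
    ((q : ℝ) ^ (2 * v ^ 2 + ε) ≤ C.ncard → C.ncard * (q : ℝ) ^ (-(2 * v ^ 2 + ε)) ≤ num v q C ω)

/-- cosets -/
def cos (q : ℕ) (χ : DirichletCharacter ℂ q) (H : Subgroup (DirichletCharacter ℂ q)) :
    Set (DirichletCharacter ℂ q) := {ρ | ∃ ψ ∈ H, ρ = χ * ψ}

lemma LawC_mono {ε ε' : ℝ} (h : ε ≤ ε') {q : ℕ} (hq : 1 ≤ q) {C : Set (DirichletCharacter ℂ q)} {ω : Om}
    (hl : LawC ε q C ω) : LawC ε' q C ω := by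
  have h1 : (1 : ℝ) ≤ q := by exact_mod_cast hq
  intro v hv0 hv2
  obtain ⟨h2, h3⟩ := hl v hv0 hv2
  refine ⟨h2.trans ?_, fun h4 => ?_⟩
  · apply mul_le_mul_of_nonneg_left _ (by positivity)
    exact Real.rpow_le_rpow_of_exponent_le h1 (by linarith)
  · refine le_trans ?_ (h3 (le_trans (Real.rpow_le_rpow_of_exponent_le h1 (by linarith)) h4))
    apply mul_le_mul_of_nonneg_left _ (by positivity)
    exact Real.rpow_le_rpow_of_exponent_le h1 (by linarith)

/-- the functions of a set of characters -/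
noncomputable def img (q : ℕ) (C : Set (DirichletCharacter ℂ q)) : Finset (ℕ → ℂ) := by
  classical
  exact (chars q).filter fun a => ∃ χ ∈ C, a = fun m : ℕ => χ m

lemma img_card {q : ℕ} (hq : q.Prime) (C : Set (DirichletCharacter ℂ q)) : (img q C).card = C.ncard := by
  classical
  haveI : NeZero q := ⟨hq.ne_zero⟩
  have h : (fun (χ : DirichletCharacter ℂ q) (n : ℕ) => χ (n : ZMod q)) '' C = ↑(img q C) := by
    ext a
    unfold img
    rw [Finset.coe_filter, Set.mem_setOf_eq, Set.mem_image]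
    constructor
    · rintro ⟨χ, h1, rfl⟩
      exact ⟨(mem_chars hq).2 ⟨χ, rfl⟩, χ, h1, rfl⟩
    · rintro ⟨_, χ, h1, rfl⟩
      exact ⟨χ, h1, rfl⟩
  rw [← Set.ncard_coe_finset, ← h, Set.ncard_image_of_injective _ (char_inj q)]

lemma cnt_img {q : ℕ} (hq : q.Prime) (C : Set (DirichletCharacter ℂ q)) (v : ℝ) (ω : Om) :
    cnt v q (img q C) ω = num v q C ω := by
  classical
  unfold num
  rw [← img_card hq]
  unfold cnt
  congr 1
  ext a
  unfold img
  simp only [Finset.mem_filter, Set.mem_setOf_eq]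
  constructor
  · rintro ⟨⟨h1, χ, h2, rfl⟩, h3⟩
    exact ⟨h1, χ, ⟨h2, h3⟩, rfl⟩
  · rintro ⟨h1, χ, ⟨h2, h3⟩, rfl⟩
    exact ⟨⟨h1, χ, h2, rfl⟩, h3⟩

lemma law_img {q : ℕ} (hq : q.Prime) {C : Set (DirichletCharacter ℂ q)} {ε : ℝ} {ω : Om} :
    LawF ε q (img q C) ω ↔ LawC ε q C ω := by
  unfold LawF LawC
  simp only [cnt_img hq, img_card hq]

lemma img_sub (q : ℕ) (C : Set (DirichletCharacter ℂ q)) : img q C ⊆ chars q := by
  classical
  unfold img
  exact Finset.filter_subset _ _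

/-- Borel-Cantelli -/
lemma bc {E : ℕ → Set Om} {C : ℝ} {J : ℕ} (h : ∀ j ≥ J, PT.real (E j) ≤ C * (1 / (j : ℝ) ^ 2)) :
    ∀ᵐ ω ∂PT, ∀ᶠ j in atTop, ω ∉ E j := by
  have hs : Summable fun j : ℕ => PT.real (E j) := by
    rw [← summable_nat_add_iff J]
    have h1 : Summable fun j : ℕ => C * (1 / ((j + J : ℕ) : ℝ) ^ 2) :=
      ((summable_nat_add_iff J).2 (Real.summable_one_div_nat_pow.2 (by norm_num))).mul_left C
    exact Summable.of_nonneg_of_le (fun j => measureReal_nonneg) (fun j => h _ (by omega)) h1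
  have h2 : ∑' j, PT (E j) ≠ ⊤ := by
    have h3 : ∀ j, PT (E j) = ENNReal.ofReal (PT.real (E j)) := fun j => by
      rw [measureReal_def, ENNReal.ofReal_toReal (measure_ne_top _ _)]
    simp_rw [h3]
    rw [← ENNReal.ofReal_tsum_of_nonneg (fun j => measureReal_nonneg) hs]
    exact ENNReal.ofReal_ne_top
  exact ae_eventually_notMem h2

end Pool.Agent.Q255.FG
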