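import Pool.Agent.Q255.FG.Part1

/-!
# Project FG: almost all primes, conclusion
-/

set_option autoImplicit false

open MeasureTheory Finset Filter Topology

namespace Pool.Agent.Q255.FG

open Q289.PAM Pool.Agent.Q255.RM

/-- the exceptional event of a prime: for some subgroup, many cosets violate the law -/
def BadP (ε c : ℝ) (q : ℕ) (ω : Om) : Prop :=
  ∃ H : Subgroup (DirichletCharacter ℂ q),
    Real.exp (-(Real.log q ^ c)) * (q - 1) < ({χ | ¬ LawC ε q (cos q χ H) ω}.ncard : ℝ)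

lemma card_char {q : ℕ} (hq : q.Prime) : Nat.card (DirichletCharacter ℂ q) = q - 1 := by
  haveI : NeZero q := ⟨hq.ne_zero⟩
  haveI : Fact q.Prime := ⟨hq⟩
  rw [DirichletCharacter.card_eq_totient_of_hasEnoughRootsOfUnity ℂ q, Nat.totient_prime hq]

lemma badP_prob (hSG : S_SG) {ε c₀ c : ℝ} {q : ℕ} (hq : q.Prime)
    (h : ∀ I : Finset (ℕ → ℂ), I ⊆ chars q →
      PT.real {ω | ¬ LawF ε q I ω} ≤ Real.exp (-(Real.log q ^ c₀))) :
    PT.real {ω | BadP ε c q ω} ≤
      ((q - 1).divisors.card : ℝ) * Real.exp (-(Real.log q ^ c₀) + Real.log q ^ c) := by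
  classical
  haveI : NeZero q := ⟨hq.ne_zero⟩
  haveI : Fintype (Subgroup (DirichletCharacter ℂ q)) := Fintype.ofFinite _
  have hq1 : (0 : ℝ) < (q : ℝ) - 1 := by
    have : (1 : ℝ) < q := by exact_mod_cast hq.one_lt
    linarith
  have ht : 0 < Real.exp (-(Real.log q ^ c)) * ((q : ℝ) - 1) := by positivity
  have hH : ∀ H : Subgroup (DirichletCharacter ℂ q),
      PT.real {ω | Real.exp (-(Real.log q ^ c)) * (q - 1) < ({χ | ¬ LawC ε q (cos q χ H) ω}.ncard : ℝ)} ≤
        Real.exp (-(Real.log q ^ c₀) + Real.log q ^ c) := by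
    intro H
    have h1 := markov_count (univ : Finset (DirichletCharacter ℂ q))
      (fun χ => {ω | ¬ LawC ε q (cos q χ H) ω}) ht
    refine le_trans (measureReal_mono (fun ω hω => ?_) (measure_ne_top _ _)) (h1.trans ?_)
    · rw [Set.mem_setOf_eq] at hω ⊢
      refine le_trans hω.le (le_of_eq ?_)
      congr 1
      rw [← Set.ncard_coe_finset]
      congr 1
      ext χ
      rw [Finset.coe_filter]
      simp
    · rw [div_le_iff₀ ht]
      have h2 : ∀ χ : DirichletCharacter ℂ q, PT.real {ω | ¬ LawC ε q (cos q χ H) ω} ≤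
          Real.exp (-(Real.log q ^ c₀)) := by
        intro χ
        have h3 := h (img q (cos q χ H)) (img_sub q _)
        simp only [law_img hq] at h3
        exact h3
      calc ∑ χ : DirichletCharacter ℂ q, PT.real {ω | ¬ LawC ε q (cos q χ H) ω} ≤
          ∑ _χ : DirichletCharacter ℂ q, Real.exp (-(Real.log q ^ c₀)) := Finset.sum_le_sum fun χ _ => h2 χ
        _ = ((q : ℝ) - 1) * Real.exp (-(Real.log q ^ c₀)) := by
            rw [Finset.sum_const, nsmul_eq_mul, Finset.card_univ, ← Nat.card_eq_fintype_card, card_char hq,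
              Nat.cast_sub hq.one_le]
            push_cast
            ring
        _ = Real.exp (-(Real.log q ^ c₀) + Real.log q ^ c) * (Real.exp (-(Real.log q ^ c)) * ((q : ℝ) - 1)) := by
            rw [← mul_assoc, ← Real.exp_add, mul_comm]
            congr 2
            ring
  have hsub : {ω | BadP ε c q ω} ⊆ ⋃ H ∈ (univ : Finset (Subgroup (DirichletCharacter ℂ q))),
      {ω | Real.exp (-(Real.log q ^ c)) * (q - 1) < ({χ | ¬ LawC ε q (cos q χ H) ω}.ncard : ℝ)} := by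
    intro ω hω
    obtain ⟨H, h1⟩ := hω
    simp only [Set.mem_iUnion]
    exact ⟨H, Finset.mem_univ _, h1⟩
  refine (measureReal_mono hsub (measure_ne_top _ _)).trans ((measureReal_biUnion_finset_le _ _).trans ?_)
  refine (Finset.sum_le_sum fun H _ => hH H).trans ?_
  rw [Finset.sum_const, nsmul_eq_mul, Finset.card_univ, ← Nat.card_eq_fintype_card]
  apply mul_le_mul_of_nonneg_right _ (Real.exp_pos _).le
  exact_mod_cast hSG.1 q hq

lemma ev_bc {c : ℝ} (hc : 0 < c) (hc1 : c < 1) : ∀ᶠ x : ℝ in atTop,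
    Real.exp (x ^ (c / 2)) * (Real.exp (-(x / 2)) + (1 + x) * Real.exp (-((x / 2) ^ c) + x ^ (c / 4))) ≤
      1 / x ^ 2 := by
  have h1 : Tendsto (fun x : ℝ => x ^ c) atTop atTop := tendsto_rpow_atTop hc
  have h2 : Tendsto (fun x : ℝ => x ^ (c / 2)) atTop atTop := tendsto_rpow_atTop (by positivity)
  have h3 := (tendsto_rpow_mul_exp_neg_mul_atTop_nhds_zero (3 / c) (1 / 4) (by norm_num)).comp h1
  have h4 : Tendsto (fun x : ℝ => 3 * ((x ^ c) ^ (3 / c) * Real.exp (-(1 / 4) * x ^ c)))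
      atTop (𝓝 (3 * 0)) := h3.const_mul _
  rw [mul_zero] at h4
  filter_upwards [h4.eventually (gt_mem_nhds (show (0 : ℝ) < 1 by norm_num)),
    h2.eventually_ge_atTop 8, eventually_ge_atTop 1] with x h5 h6 h7
  have hx0 : 0 < x := by linarith
  have e1 : (x ^ c) ^ (3 / c) = x ^ 3 := by
    rw [← Real.rpow_mul hx0.le, ← Real.rpow_natCast]
    congr 1
    field_simp
    norm_num
  rw [e1] at h5
  obtain ⟨y, hy⟩ : ∃ y, y = x ^ (c / 2) := ⟨_, rfl⟩
  have e2 : x ^ c = y ^ 2 := by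
    rw [hy, ← Real.rpow_natCast, ← Real.rpow_mul hx0.le]
    congr 1
    push_cast
    ring
  rw [← hy] at h6 ⊢
  rw [e2] at h5
  have h8 : x ^ (c / 4) ≤ y := by
    rw [hy]
    exact Real.rpow_le_rpow_of_exponent_le h7 (by linarith)
  have h9 : y ^ 2 / 2 ≤ (x / 2) ^ c := by
    rw [Real.div_rpow hx0.le (by norm_num), e2]
    apply div_le_div_of_nonneg_left (by positivity) (by positivity)
    calc (2 : ℝ) ^ c ≤ (2 : ℝ) ^ (1 : ℝ) := Real.rpow_le_rpow_of_exponent_le (by norm_num) hc1.le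
      _ = 2 := Real.rpow_one _
  have h10 : y ^ 2 / 2 ≤ x / 2 := by
    rw [← e2]
    have : x ^ c ≤ x ^ (1 : ℝ) := Real.rpow_le_rpow_of_exponent_le h7 hc1.le
    rw [Real.rpow_one] at this
    linarith
  have h11 : Real.exp (-(x / 2)) ≤ Real.exp (-(y ^ 2 / 2) + y) := Real.exp_le_exp.2 (by linarith)
  have h12 : Real.exp (-((x / 2) ^ c) + x ^ (c / 4)) ≤ Real.exp (-(y ^ 2 / 2) + y) :=
    Real.exp_le_exp.2 (by linarith)
  have h13 : Real.exp y * Real.exp (-(y ^ 2 / 2) + y) ≤ Real.exp (-(1 / 4) * y ^ 2) := by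
    rw [← Real.exp_add]
    apply Real.exp_le_exp.2
    nlinarith
  rw [le_div_iff₀ (by positivity)]
  have h14 := Real.exp_pos y
  have h15 := Real.exp_pos (-(y ^ 2 / 2) + y)
  calc Real.exp y * (Real.exp (-(x / 2)) + (1 + x) * Real.exp (-((x / 2) ^ c) + x ^ (c / 4))) * x ^ 2 ≤
      Real.exp y * (Real.exp (-(y ^ 2 / 2) + y) + (1 + x) * Real.exp (-(y ^ 2 / 2) + y)) * x ^ 2 := by
        apply mul_le_mul_of_nonneg_right _ (by positivity)
        apply mul_le_mul_of_nonneg_left _ h14.le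
        exact add_le_add h11 (mul_le_mul_of_nonneg_left h12 (by positivity))
    _ = (2 + x) * x ^ 2 * (Real.exp y * Real.exp (-(y ^ 2 / 2) + y)) := by ring
    _ ≤ (2 + x) * x ^ 2 * Real.exp (-(1 / 4) * y ^ 2) := mul_le_mul_of_nonneg_left h13 (by positivity)
    _ ≤ (3 * x) * x ^ 2 * Real.exp (-(1 / 4) * y ^ 2) := by
        apply mul_le_mul_of_nonneg_right _ (Real.exp_pos _).le
        apply mul_le_mul_of_nonneg_right (by linarith) (by positivity)
    _ = 3 * (x ^ 3 * Real.exp (-(1 / 4) * y ^ 2)) := by ring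
    _ ≤ 1 := h5.le

open Classical in
/-- the number of exceptional primes -/
noncomputable def nbad (ε c : ℝ) (Q : ℕ) (ω : Om) : ℕ :=
  ((Icc 1 Q).filter fun q => q.Prime ∧ BadP ε c q ω).card

lemma nbad_mono {ε c : ℝ} {Q R : ℕ} (h : Q ≤ R) (ω : Om) : nbad ε c Q ω ≤ nbad ε c R ω := by
  classical
  unfold nbad
  apply Finset.card_le_card
  intro q hq
  rw [Finset.mem_filter, Finset.mem_Icc] at hq ⊢
  exact ⟨⟨hq.1.1, hq.1.2.trans h⟩, hq.2⟩

lemma nbad_prob (hSG : S_SG) {ε c₀ : ℝ} (hc : 0 < c₀) {q₀ : ℕ}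
    (h : ∀ q : ℕ, q₀ ≤ q → q.Prime → ∀ I : Finset (ℕ → ℂ), I ⊆ chars q →
      PT.real {ω | ¬ LawF ε q I ω} ≤ Real.exp (-(Real.log q ^ c₀))) {Q : ℕ} (hQ : q₀ ^ 2 ≤ Q) (hQ1 : 3 ≤ Q) :
    PT.real {ω | (Q : ℝ) * Real.exp (-(Real.log Q ^ (c₀ / 2))) ≤ nbad ε (c₀ / 4) Q ω} ≤
      Real.exp (Real.log Q ^ (c₀ / 2)) * (Real.exp (-(Real.log Q / 2)) +
        (1 + Real.log Q) * Real.exp (-((Real.log Q / 2) ^ c₀) + Real.log Q ^ (c₀ / 4))) := by
  classical
  have hQ0 : (0 : ℝ) < Q := by positivity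
  have hL : 0 ≤ Real.log Q := Real.log_natCast_nonneg Q
  have h1 := markov_count ((Icc 1 Q).filter Nat.Prime) (fun q => {ω | BadP ε (c₀ / 4) q ω})
    (t := (Q : ℝ) * Real.exp (-(Real.log Q ^ (c₀ / 2)))) (by positivity)
  refine le_trans (measureReal_mono (fun ω hω => ?_) (measure_ne_top _ _)) (h1.trans ?_)
  · rw [Set.mem_setOf_eq] at hω ⊢
    refine le_trans hω ?_
    apply Nat.cast_le.2
    unfold nbad
    apply Finset.card_le_card
    intro q hq
    rw [Finset.mem_filter] at hq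
    exact (@Finset.mem_filter _ _ (_) _ _).2 ⟨Finset.mem_filter.2 ⟨hq.1, hq.2.1⟩, hq.2.2⟩
  · rw [div_le_iff₀ (by positivity)]
    have hsqrt : Real.sqrt Q = Q * Real.exp (-(Real.log Q / 2)) := by
      have e1 : Real.sqrt Q = Real.exp (Real.log Q / 2) := by
        rw [Real.sqrt_eq_rpow, Real.rpow_def_of_pos hQ0]
        congr 1
        ring
      have e2 : (Q : ℝ) = Real.exp (Real.log Q) := (Real.exp_log hQ0).symm
      rw [e1]
      nth_rewrite 2 [e2]
      rw [← Real.exp_add]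
      congr 1
      ring
    have hsum : ∑ q ∈ (Icc 1 Q).filter Nat.Prime, PT.real {ω | BadP ε (c₀ / 4) q ω} ≤
        Q * (Real.exp (-(Real.log Q / 2)) +
          (1 + Real.log Q) * Real.exp (-((Real.log Q / 2) ^ c₀) + Real.log Q ^ (c₀ / 4))) := by
      have hterm : ∀ q ∈ (Icc 1 Q).filter Nat.Prime, PT.real {ω | BadP ε (c₀ / 4) q ω} ≤
          (if q ^ 2 ≤ Q then 1 else 0) + ((q - 1).divisors.card : ℝ) *
            Real.exp (-((Real.log Q / 2) ^ c₀) + Real.log Q ^ (c₀ / 4)) := by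
        intro q hq
        rw [Finset.mem_filter, Finset.mem_Icc] at hq
        obtain ⟨⟨_, hqQ⟩, hqp⟩ := hq
        by_cases h2 : q ^ 2 ≤ Q
        · rw [if_pos h2]
          have h3 : PT.real {ω | BadP ε (c₀ / 4) q ω} ≤ 1 := measureReal_le_one
          have h4 := Real.exp_pos (-((Real.log Q / 2) ^ c₀) + Real.log Q ^ (c₀ / 4))
          have h5 : (0 : ℝ) ≤ ((q - 1).divisors.card : ℝ) := by positivity
          nlinarith
        · rw [if_neg h2, zero_add]
          push Not at h2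
          have h3 : q₀ ≤ q := by
            by_contra h4
            push Not at h4
            have : q ^ 2 ≤ q₀ ^ 2 := Nat.pow_le_pow_left h4.le 2
            omega
          refine (badP_prob hSG hqp (h q h3 hqp)).trans ?_
          apply mul_le_mul_of_nonneg_left _ (by positivity)
          apply Real.exp_le_exp.2
          have hq0 : (0 : ℝ) < q := by exact_mod_cast hqp.pos
          have h5 : Real.log Q / 2 ≤ Real.log q := by
            have h6 : (Q : ℝ) ≤ (q : ℝ) ^ 2 := by exact_mod_cast h2.le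
            have h7 := Real.log_le_log hQ0 h6
            rw [Real.log_pow] at h7
            push_cast at h7
            linarith
          have h6 : Real.log q ≤ Real.log Q := Real.log_le_log hq0 (by exact_mod_cast hqQ)
          have h7 : (Real.log Q / 2) ^ c₀ ≤ Real.log q ^ c₀ := Real.rpow_le_rpow (by linarith) h5 hc.le
          have h8 : Real.log q ^ (c₀ / 4) ≤ Real.log Q ^ (c₀ / 4) :=
            Real.rpow_le_rpow (by linarith) h6 (by linarith)
          linarith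
      refine (Finset.sum_le_sum hterm).trans ?_
      rw [Finset.sum_add_distrib, ← Finset.sum_mul, mul_add]
      apply add_le_add
      · rw [← hsqrt, Finset.sum_ite, Finset.sum_const_zero, add_zero, Finset.sum_const, nsmul_eq_mul, mul_one]
        have h2 : ((Icc 1 Q).filter Nat.Prime).filter (fun q => q ^ 2 ≤ Q) ⊆ Icc 1 (Nat.sqrt Q) := by
          intro q hq
          rw [Finset.mem_filter, Finset.mem_filter, Finset.mem_Icc] at hq
          rw [Finset.mem_Icc]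
          refine ⟨hq.1.1.1, ?_⟩
          rw [Nat.le_sqrt']
          exact hq.2
        have h3 := Finset.card_le_card h2
        rw [Nat.card_Icc, Nat.add_sub_cancel] at h3
        calc ((((Icc 1 Q).filter Nat.Prime).filter (fun q => q ^ 2 ≤ Q)).card : ℝ) ≤ (Nat.sqrt Q : ℝ) := by
              exact_mod_cast h3
          _ ≤ Real.sqrt Q := Real.nat_sqrt_le_real_sqrt
      · rw [← mul_assoc]
        apply mul_le_mul_of_nonneg_right _ (Real.exp_pos _).le
        exact hSG.2 Q (by omega)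
    refine hsum.trans (le_of_eq ?_)
    rw [Real.exp_neg (Real.log Q ^ (c₀ / 2))]
    have := (Real.exp_pos (Real.log Q ^ (c₀ / 2))).ne'
    field_simp

theorem part1_eps (hF : S_FAM) (hU : S_U4) (hH : S_HMC) (hB : S_BLK) (hSG : S_SG) {ε : ℝ} (hε : 0 < ε)
    (hε1 : ε ≤ 1) : ∃ c : ℝ, 0 < c ∧ ∀ᵐ ω ∂PT, ∃ Q₀ : ℕ, ∀ Q : ℕ, Q₀ ≤ Q →
      (nbad ε c Q ω : ℝ) ≤ Q * Real.exp (-(Real.log Q ^ c)) := by
  obtain ⟨c₀, hc, hc1, q₀, h⟩ := chars_law hF hU hH hB hε hε1
  refine ⟨c₀ / 4, by positivity, ?_⟩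
  have hx : Tendsto (fun j : ℕ => Real.log ((2 ^ j : ℕ) : ℝ)) atTop atTop :=
    tendsto_L.comp (tendsto_pow_atTop_atTop_of_one_lt (by norm_num : 1 < 2))
  have hQq : Tendsto (fun j : ℕ => 2 ^ j) atTop atTop := tendsto_pow_atTop_atTop_of_one_lt (by norm_num : 1 < 2)
  obtain ⟨J, hJ⟩ := eventually_atTop.1 ((hx.eventually (ev_bc hc hc1)).and
    ((hQq.eventually_ge_atTop (q₀ ^ 2)).and ((hQq.eventually_ge_atTop 3).and (eventually_ge_atTop 1))))
  have hE : ∀ j ≥ J, PT.real {ω | ((2 ^ j : ℕ) : ℝ) * Real.exp (-(Real.log ((2 ^ j : ℕ) : ℝ) ^ (c₀ / 2))) ≤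
      nbad ε (c₀ / 4) (2 ^ j) ω} ≤ 4 * (1 / (j : ℝ) ^ 2) := by
    intro j hj
    obtain ⟨a1, a2, a3, a4⟩ := hJ j hj
    refine (nbad_prob hSG hc h a2 a3).trans (a1.trans ?_)
    have h1 : Real.log ((2 ^ j : ℕ) : ℝ) = j * Real.log 2 := by
      push_cast
      rw [Real.log_pow]
    rw [h1, mul_pow]
    have h2 : (1 : ℝ) / 2 ≤ Real.log 2 := by
      have := Real.log_two_gt_d9
      linarith
    have h3 : (1 / 4 : ℝ) ≤ Real.log 2 ^ 2 := by nlinarith
    have h4 : (0 : ℝ) < (j : ℝ) ^ 2 := by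
      have : (1 : ℝ) ≤ j := by exact_mod_cast a4
      positivity
    rw [mul_one_div, div_le_div_iff₀ (by positivity) h4]
    nlinarith
  have hbc := bc hE
  have hev : ∀ᶠ L : ℝ in atTop, 2 * Real.exp (-(L ^ (c₀ / 2))) ≤ Real.exp (-(L ^ (c₀ / 4))) := by
    have h1 := ev_small (η := c₀) hc 2
    filter_upwards [h1, eventually_ge_atTop 1] with L h2 h3
    refine le_trans ?_ h2
    apply mul_le_mul_of_nonneg_right _ (Real.exp_pos _).le
    nlinarith
  obtain ⟨N₁, hN₁⟩ := eventually_atTop.1 (tendsto_L.eventually hev)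
  filter_upwards [hbc] with ω hω
  obtain ⟨J', hJ'⟩ := eventually_atTop.1 hω
  refine ⟨max (max N₁ 1) (2 ^ J'), fun Q hQ => ?_⟩
  have hQN : N₁ ≤ Q := le_trans (le_trans (le_max_left _ _) (le_max_left _ _)) hQ
  have hQ1 : 1 ≤ Q := le_trans (le_trans (le_max_right _ _) (le_max_left _ _)) hQ
  have hQJ : 2 ^ J' ≤ Q := le_trans (le_max_right _ _) hQ
  obtain ⟨j, hj⟩ : ∃ j, j = Nat.log 2 Q := ⟨_, rfl⟩
  have hj1 : 2 ^ j ≤ Q := by rw [hj]; exact Nat.pow_log_le_self 2 (by omega)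
  have hj2 : Q < 2 ^ (j + 1) := by rw [hj]; exact Nat.lt_pow_succ_log_self (by norm_num) Q
  have hj3 : J' ≤ j := by
    rw [hj]
    exact Nat.le_log_of_pow_le (by norm_num) hQJ
  have h1 := hJ' (j + 1) (by omega)
  rw [not_le] at h1
  have h2 : (nbad ε (c₀ / 4) Q ω : ℝ) ≤ nbad ε (c₀ / 4) (2 ^ (j + 1)) ω := by exact_mod_cast nbad_mono hj2.le ω
  have hQ0 : (0 : ℝ) < Q := by exact_mod_cast hQ1
  have h3 : ((2 ^ (j + 1) : ℕ) : ℝ) ≤ 2 * Q := by
    have : 2 ^ (j + 1) ≤ 2 * Q := by rw [pow_succ]; omega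
    exact_mod_cast this
  have h4 : Real.log Q ≤ Real.log ((2 ^ (j + 1) : ℕ) : ℝ) := Real.log_le_log hQ0 (by exact_mod_cast hj2.le)
  have h5 : Real.exp (-(Real.log ((2 ^ (j + 1) : ℕ) : ℝ) ^ (c₀ / 2))) ≤ Real.exp (-(Real.log Q ^ (c₀ / 2))) := by
    apply Real.exp_le_exp.2
    have := Real.rpow_le_rpow (Real.log_natCast_nonneg Q) h4 (show 0 ≤ c₀ / 2 by positivity)
    linarith
  calc (nbad ε (c₀ / 4) Q ω : ℝ) ≤
      ((2 ^ (j + 1) : ℕ) : ℝ) * Real.exp (-(Real.log ((2 ^ (j + 1) : ℕ) : ℝ) ^ (c₀ / 2))) := h2.trans h1.le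
    _ ≤ (2 * Q) * Real.exp (-(Real.log Q ^ (c₀ / 2))) :=
        mul_le_mul h3 h5 (Real.exp_pos _).le (by positivity)
    _ = Q * (2 * Real.exp (-(Real.log Q ^ (c₀ / 2)))) := by ring
    _ ≤ Q * Real.exp (-(Real.log Q ^ (c₀ / 4))) := mul_le_mul_of_nonneg_left (hN₁ Q hQN) hQ0.le

end Pool.Agent.Q255.FG
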