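import Pool.Agent.Q255.FG.Part1b
import Pool.Agent.H357R2.SI.Common

/-!
# Project FG: all primes
-/

set_option autoImplicit false

open MeasureTheory Finset Filter Topology

namespace Pool.Agent.Q255.FG

open Q289.PAM Pool.Agent.Q255.RM

/-- Borel-Cantelli -/
lemma bc' {E : ℕ → Set Om} {g : ℕ → ℝ} (hg : Summable g) {J : ℕ} (h : ∀ j ≥ J, PT.real (E j) ≤ g j) :
    ∀ᵐ ω ∂PT, ∀ᶠ j in atTop, ω ∉ E j := by
  have hs : Summable fun j : ℕ => PT.real (E j) := by
    rw [← summable_nat_add_iff J]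
    exact Summable.of_nonneg_of_le (fun j => measureReal_nonneg) (fun j => h _ (by omega))
      ((summable_nat_add_iff J).2 hg)
  have h2 : ∑' j, PT (E j) ≠ ⊤ := by
    have h3 : ∀ j, PT (E j) = ENNReal.ofReal (PT.real (E j)) := fun j => by
      rw [measureReal_def, ENNReal.ofReal_toReal (measure_ne_top _ _)]
    simp_rw [h3]
    rw [← ENNReal.ofReal_tsum_of_nonneg (fun j => measureReal_nonneg) hs]
    exact ENNReal.ofReal_ne_top
  exact ae_eventually_notMem h2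

/-- upper bound for one modulus -/
def UpFail (ε : ℝ) (q : ℕ) : Set Om :=
  {ω | ∃ χ : DirichletCharacter ℂ q, ∃ n ≤ q, big (1 + ε) q ≤ ‖S ω (fun m : ℕ => χ m) n‖}

lemma up_fail_prob (hU : S_U4) {ε : ℝ} (hε : 0 < ε) (hε1 : ε ≤ 1) :
    ∃ q₀ : ℕ, ∀ q : ℕ, q₀ ≤ q → PT.real (UpFail ε q) ≤ (q : ℝ) ^ (-(1 + ε)) := by
  classical
  obtain ⟨N₀, hN₀⟩ := hU ε hε
  refine ⟨max N₀ 2, fun q hq => ?_⟩
  have hq0 : N₀ ≤ q := le_trans (le_max_left _ _) hq
  have hq2 : 2 ≤ q := le_trans (le_max_right _ _) hq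
  haveI : NeZero q := ⟨by omega⟩
  have hqR : (1 : ℝ) ≤ q := by exact_mod_cast (by omega : 1 ≤ q)
  have hqp : (0 : ℝ) < q := by linarith
  have hsub : UpFail ε q ⊆ ⋃ χ ∈ (univ : Finset (DirichletCharacter ℂ q)),
      {ω | ∃ n ≤ q, big (1 + ε) q ≤ ‖S ω (fun m : ℕ => χ m) n‖} := by
    intro ω hω
    obtain ⟨χ, h⟩ := hω
    simp only [Set.mem_iUnion]
    exact ⟨χ, Finset.mem_univ _, h⟩
  refine (measureReal_mono hsub (measure_ne_top _ _)).trans ((measureReal_biUnion_finset_le _ _).trans ?_)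
  have h1 : ∀ χ : DirichletCharacter ℂ q,
      PT.real {ω | ∃ n ≤ q, big (1 + ε) q ≤ ‖S ω (fun m : ℕ => χ m) n‖} ≤
        (q : ℝ) ^ (ε - 2 * (1 + ε) ^ 2) := fun χ =>
    hN₀ q hq0 (1 + ε) (by linarith) (by linarith) _ fun n => DirichletCharacter.norm_le_one χ _
  refine (Finset.sum_le_sum fun χ _ => h1 χ).trans ?_
  rw [Finset.sum_const, nsmul_eq_mul, Finset.card_univ, ← Nat.card_eq_fintype_card,
    DirichletCharacter.card_eq_totient_of_hasEnoughRootsOfUnity ℂ q]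
  calc (q.totient : ℝ) * (q : ℝ) ^ (ε - 2 * (1 + ε) ^ 2) ≤ (q : ℝ) * (q : ℝ) ^ (ε - 2 * (1 + ε) ^ 2) := by
        apply mul_le_mul_of_nonneg_right _ (by positivity)
        exact_mod_cast Nat.totient_le q
    _ = (q : ℝ) ^ (1 + (ε - 2 * (1 + ε) ^ 2)) := by
        rw [Real.rpow_add hqp, Real.rpow_one]
    _ ≤ (q : ℝ) ^ (-(1 + ε)) := by
        apply Real.rpow_le_rpow_of_exponent_le hqR
        nlinarith

theorem part2_up (hU : S_U4) : ∀ᵐ ω ∂PT, ∀ ε : ℝ, 0 < ε → ∃ Q₀ : ℕ, ∀ q : ℕ, Q₀ ≤ q →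
    ∀ χ : DirichletCharacter ℂ q, ∀ n ≤ q, ‖S ω (fun m : ℕ => χ m) n‖ < big (1 + ε) q := by
  have h1 : ∀ k : ℕ, ∀ᵐ ω ∂PT, ∀ᶠ q : ℕ in atTop, ω ∉ UpFail (1 / ((k : ℝ) + 1)) q := by
    intro k
    have hk : 0 < 1 / ((k : ℝ) + 1) := by positivity
    have hk1 : 1 / ((k : ℝ) + 1) ≤ 1 := by
      rw [div_le_one (by positivity)]
      have : (0 : ℝ) ≤ k := by positivity
      linarith
    obtain ⟨q₀, h⟩ := up_fail_prob hU hk hk1
    exact bc' (Real.summable_nat_rpow.2 (by linarith)) h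
  filter_upwards [ae_all_iff.2 h1] with ω hω ε hε
  obtain ⟨k, hk⟩ := exists_nat_one_div_lt hε
  obtain ⟨Q₀, hQ⟩ := eventually_atTop.1 (hω k)
  refine ⟨Q₀, fun q hq χ n hn => ?_⟩
  by_contra h
  push Not at h
  exact hQ q hq ⟨χ, n, hn, (big_mono (by linarith) q).trans h⟩

/-- the family of all non-principal characters modulo the primes in `(N, 2N]` -/
noncomputable def fml (N : ℕ) : Finset (ℕ → ℂ) := by
  classical
  exact ((Ioc N (2 * N)).filter Nat.Prime).biUnion chars'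

lemma mem_chars' {q : ℕ} (hq : q.Prime) {a : ℕ → ℂ} :
    a ∈ chars' q ↔ ∃ χ : DirichletCharacter ℂ q, χ ≠ 1 ∧ a = fun n : ℕ => χ (n : ZMod q) := by
  classical
  unfold chars'
  rw [dif_neg hq.ne_zero]
  simp only [Finset.mem_image, Finset.mem_filter, Finset.mem_univ, true_and]
  constructor
  · rintro ⟨χ, h0, h⟩
    exact ⟨χ, h0, h.symm⟩
  · rintro ⟨χ, h0, h⟩
    exact ⟨χ, h0, h.symm⟩

lemma chars'_sub {q : ℕ} (hq : q.Prime) : chars' q ⊆ chars q := by
  intro a ha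
  obtain ⟨χ, _, h⟩ := (mem_chars' hq).1 ha
  exact (mem_chars hq).2 ⟨χ, h⟩

lemma card_chars' {q : ℕ} (hq : q.Prime) : (chars' q).card = q - 2 := by
  classical
  haveI : NeZero q := ⟨hq.ne_zero⟩
  unfold chars'
  rw [dif_neg hq.ne_zero, Finset.card_image_of_injective _ (char_inj q), Finset.filter_ne',
    Finset.card_erase_of_mem (Finset.mem_univ _), Finset.card_univ, ← Nat.card_eq_fintype_card, card_char hq]
  omega

lemma mem_fml {N : ℕ} {a : ℕ → ℂ} :
    a ∈ fml N ↔ ∃ q, N < q ∧ q ≤ 2 * N ∧ q.Prime ∧ a ∈ chars' q := by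
  classical
  unfold fml
  simp only [Finset.mem_biUnion, Finset.mem_filter, Finset.mem_Ioc]
  constructor
  · rintro ⟨q, ⟨⟨h1, h2⟩, h3⟩, h4⟩
    exact ⟨q, h1, h2, h3, h4⟩
  · rintro ⟨q, h1, h2, h3, h4⟩
    exact ⟨q, ⟨⟨h1, h2⟩, h3⟩, h4⟩

lemma fml_disj (N : ℕ) :
    (↑((Ioc N (2 * N)).filter Nat.Prime) : Set ℕ).PairwiseDisjoint chars' := by
  intro q hq r hr hqr
  have hqp : q.Prime := (Finset.mem_filter.1 hq).2
  have hrp : r.Prime := (Finset.mem_filter.1 hr).2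
  show Disjoint (chars' q) (chars' r)
  rw [Finset.disjoint_left]
  intro a ha hb
  have h1 : ‖a q‖ = 1 := norm_char hrp (chars'_sub hrp hb) hqp hqr
  obtain ⟨χ, _, rfl⟩ := (mem_chars' hqp).1 ha
  have h2 : χ ((q : ℕ) : ZMod q) = 0 := by
    haveI : Fact q.Prime := ⟨hqp⟩
    rw [ZMod.natCast_self]
    exact χ.map_nonunit not_isUnit_zero
  simp only [h2, norm_zero] at h1
  exact zero_ne_one h1

lemma card_fml (N : ℕ) :
    (fml N).card = ∑ q ∈ (Ioc N (2 * N)).filter Nat.Prime, (q - 2) := by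
  classical
  unfold fml
  rw [Finset.card_biUnion (fml_disj N)]
  exact Finset.sum_congr rfl fun q hq => card_chars' (Finset.mem_filter.1 hq).2

lemma hm_fml (hH : S_HML) {N : ℕ} (hN : 1 ≤ N) : HM (fml N) ((N : ℝ) ^ 2) := by
  classical
  intro P Y m c hP hY
  have h2 := hH N (fun _ => 1) hN (fun _ => by simp) P Y m c hP
  simp only [mul_one] at h2
  have h1 : ∑ ψ ∈ fml N, ‖∑ p ∈ P, c p * ψ p‖ ^ (2 * m) ≤
      ∑ q ∈ (Ioc N (2 * N)).filter Nat.Prime, ∑ ψ ∈ chars' q, ‖∑ p ∈ P, c p * ψ p‖ ^ (2 * m) := by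
    unfold fml
    rw [Finset.sum_biUnion (fml_disj N)]
  refine h1.trans (h2.trans ?_)
  have h5 : (0 : ℝ) ≤ (Nat.factorial m) * (∑ p ∈ P, ‖c p‖ ^ 2) ^ m := by positivity
  calc 6 * ((Y : ℝ) ^ m + 4 * (N : ℝ) ^ 2) * (Nat.factorial m) * (∑ p ∈ P, ‖c p‖ ^ 2) ^ m =
      6 * ((Y : ℝ) ^ m + 4 * (N : ℝ) ^ 2) * ((Nat.factorial m) * (∑ p ∈ P, ‖c p‖ ^ 2) ^ m) := by ring
    _ ≤ 60 * (N : ℝ) ^ 2 * ((Nat.factorial m) * (∑ p ∈ P, ‖c p‖ ^ 2) ^ m) := by
        apply mul_le_mul_of_nonneg_right _ h5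
        have : (0 : ℝ) ≤ (N : ℝ) ^ 2 := by positivity
        linarith
    _ = _ := by ring

lemma fml_large {ε : ℝ} (hε : 0 < ε) : ∀ᶠ N : ℕ in atTop, (N : ℝ) ^ (2 - ε) ≤ (fml N).card := by
  obtain ⟨X₀, hX3, hX⟩ := Pool.Agent.H357R2.SI.pnt (1 / 10) (by norm_num)
  have h1 := (isLittleO_log_rpow_atTop hε).bound (show (0 : ℝ) < 1 / 8 by norm_num)
  filter_upwards [eventually_ge_atTop X₀, tendsto_natCast_atTop_atTop.eventually h1,
    tendsto_L.eventually_ge_atTop 10, eventually_ge_atTop 3] with N hN h2 h3 h4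
  have hN3 : (3 : ℝ) ≤ N := by exact_mod_cast h4
  have hN0 : (0 : ℝ) < N := by linarith
  obtain ⟨-, h5⟩ := hX N hN
  obtain ⟨h6, -⟩ := hX (2 * N) (by omega)
  have h7 := Pool.Agent.H357R2.SI.pc_eq_sub (show N ≤ 2 * N by omega)
  have hl0 : 0 < Real.log N := by linarith
  have hl2 : Real.log ((2 * N : ℕ) : ℝ) ≤ 11 / 10 * Real.log N := by
    push_cast
    rw [Real.log_mul (by norm_num) hN0.ne']
    have := Real.log_two_lt_d9
    linarith
  have hl3 : 0 < Real.log ((2 * N : ℕ) : ℝ) := by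
    apply Real.log_pos
    push_cast
    linarith
  have h8 : (N : ℝ) / (2 * Real.log N) ≤ (Pool.Agent.H357R2.SI.pc N (2 * N) : ℝ) := by
    rw [h7]
    have a1 : (1 - 1 / 10) * ((2 * N : ℕ) : ℝ) / (11 / 10 * Real.log N) ≤
        (1 - 1 / 10) * ((2 * N : ℕ) : ℝ) / Real.log ((2 * N : ℕ) : ℝ) :=
      div_le_div_of_nonneg_left (by positivity) hl3 hl2
    have a2 : (1 - 1 / 10) * ((2 * N : ℕ) : ℝ) / (11 / 10 * Real.log N) = (18 / 11) * (N / Real.log N) := by
      push_cast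
      field_simp
      norm_num
    have a3 : (1 + 1 / 10) * (N : ℝ) / Real.log N = (11 / 10) * (N / Real.log N) := by
      field_simp
      norm_num
    have a4 : (N : ℝ) / (2 * Real.log N) = (1 / 2) * (N / Real.log N) := by
      field_simp
    have a5 : 0 < (N : ℝ) / Real.log N := by positivity
    rw [a4]
    rw [a3] at h5
    linarith
  have h9 : ((N : ℝ) - 1) * (Pool.Agent.H357R2.SI.pc N (2 * N) : ℝ) ≤ (fml N).card := by
    rw [card_fml]
    push_cast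
    have : ∑ _q ∈ (Ioc N (2 * N)).filter Nat.Prime, ((N : ℝ) - 1) ≤
        ∑ q ∈ (Ioc N (2 * N)).filter Nat.Prime, (((q - 2 : ℕ)) : ℝ) := by
      apply Finset.sum_le_sum
      intro q hq
      rw [Finset.mem_filter, Finset.mem_Ioc] at hq
      have h10 : ((N - 1 : ℕ) : ℝ) ≤ ((q - 2 : ℕ) : ℝ) := by
        apply Nat.cast_le.2
        omega
      rw [Nat.cast_sub (by omega)] at h10
      push_cast at h10
      exact h10
    rw [Finset.sum_const, nsmul_eq_mul, mul_comm] at this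
    exact this
  have h10 : 4 * Real.log N ≤ (N : ℝ) ^ ε := by
    rw [Real.norm_of_nonneg hl0.le, Real.norm_of_nonneg (by positivity)] at h2
    have : 0 < (N : ℝ) ^ ε := by positivity
    linarith
  refine le_trans ?_ h9
  have h11 : (N : ℝ) ^ (2 - ε) = (N : ℝ) ^ 2 / (N : ℝ) ^ ε := by
    rw [Real.rpow_sub hN0, Real.rpow_two]
  calc (N : ℝ) ^ (2 - ε) = (N : ℝ) ^ 2 / (N : ℝ) ^ ε := h11
    _ ≤ (N : ℝ) ^ 2 / (4 * Real.log N) := div_le_div_of_nonneg_left (by positivity) (by positivity) h10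
    _ = ((N : ℝ) / 2) * ((N : ℝ) / (2 * Real.log N)) := by field_simp; norm_num
    _ ≤ ((N : ℝ) - 1) * ((N : ℝ) / (2 * Real.log N)) := by
        apply mul_le_mul_of_nonneg_right (by linarith) (by positivity)
    _ ≤ ((N : ℝ) - 1) * (Pool.Agent.H357R2.SI.pc N (2 * N) : ℝ) :=
        mul_le_mul_of_nonneg_left h8 (by linarith)

lemma fml_card_le {N : ℕ} (hN : 2 ≤ N) : ((fml N).card : ℝ) ≤ (N : ℝ) ^ 3 := by
  have h1 : (fml N).card ≤ N * (2 * N) := by
    rw [card_fml]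
    calc ∑ q ∈ (Ioc N (2 * N)).filter Nat.Prime, (q - 2) ≤ ∑ q ∈ Ioc N (2 * N), (q - 2) :=
          Finset.sum_le_sum_of_subset (Finset.filter_subset _ _)
      _ ≤ ∑ _q ∈ Ioc N (2 * N), (2 * N) := by
          apply Finset.sum_le_sum
          intro q hq
          rw [Finset.mem_Ioc] at hq
          omega
      _ = N * (2 * N) := by
          rw [Finset.sum_const, Nat.card_Ioc, smul_eq_mul]
          congr 1
          omega
  have h2 : N * (2 * N) ≤ N ^ 3 := by nlinarith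
  exact_mod_cast h1.trans h2

/-- comparison of the thresholds -/
lemma big_cmp {ε : ℝ} (hε : 0 < ε) (hε1 : ε ≤ 1) : ∀ᶠ N : ℕ in atTop, ∀ q : ℕ, N < q → q ≤ 2 * N →
    big (1 - ε) q ≤ big (1 - ε / 2) N := by
  have hl : Tendsto (fun N : ℕ => Real.log (Real.log N)) atTop atTop := Real.tendsto_log_atTop.comp tendsto_L
  filter_upwards [tendsto_L.eventually_ge_atTop (2 / ε), tendsto_L.eventually_ge_atTop 2,
    hl.eventually_ge_atTop 1, eventually_ge_atTop 2] with N h1 h2 h3 h4 q hq1 hq2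
  have hN0 : (0 : ℝ) < N := by positivity
  have hL0 : 0 < Real.log N := by linarith
  have hLq : Real.log q ≤ Real.log N * (1 + 1 / Real.log N) := by
    have e1 : Real.log N * (1 + 1 / Real.log N) = Real.log N + 1 := by field_simp
    rw [e1]
    have : Real.log q ≤ Real.log (2 * N) := by
      apply Real.log_le_log
      · exact_mod_cast (by omega : 0 < q)
      · exact_mod_cast hq2
    rw [Real.log_mul (by norm_num) hN0.ne'] at this
    have := Real.log_two_lt_d9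
    linarith
  have hLN : Real.log N ≤ Real.log q := Real.log_le_log hN0 (by exact_mod_cast hq1.le)
  have hlq : Real.log (Real.log q) ≤ Real.log (Real.log N) * (1 + 1 / Real.log N) := by
    have e1 : Real.log (Real.log q) ≤ Real.log (Real.log N * (1 + 1 / Real.log N)) :=
      Real.log_le_log (by linarith) hLq
    rw [Real.log_mul hL0.ne' (by positivity)] at e1
    have e2 : Real.log (1 + 1 / Real.log N) ≤ 1 / Real.log N := by
      have := Real.log_le_sub_one_of_pos (show 0 < 1 + 1 / Real.log N by positivity)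
      linarith
    have e3 : 1 / Real.log N ≤ Real.log (Real.log N) * (1 / Real.log N) := by
      have : 0 < 1 / Real.log N := by positivity
      nlinarith
    linarith
  have hlq0 : 0 ≤ Real.log (Real.log q) := Real.log_nonneg (by linarith)
  unfold big
  apply Real.exp_le_exp.2
  have h5 : Real.sqrt (Real.log q * Real.log (Real.log q)) ≤
      (1 + 1 / Real.log N) * Real.sqrt (Real.log N * Real.log (Real.log N)) := by
    apply Real.sqrt_le_iff.2
    refine ⟨by positivity, ?_⟩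
    rw [mul_pow, Real.sq_sqrt (by positivity)]
    calc Real.log q * Real.log (Real.log q) ≤
        (Real.log N * (1 + 1 / Real.log N)) * (Real.log (Real.log N) * (1 + 1 / Real.log N)) :=
          mul_le_mul hLq hlq hlq0 (by positivity)
      _ = _ := by ring
  have h6 : 0 ≤ Real.sqrt (Real.log N * Real.log (Real.log N)) := Real.sqrt_nonneg _
  calc (1 - ε) * Real.sqrt (Real.log q * Real.log (Real.log q)) ≤
      (1 - ε) * ((1 + 1 / Real.log N) * Real.sqrt (Real.log N * Real.log (Real.log N))) :=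
        mul_le_mul_of_nonneg_left h5 (by linarith)
    _ = ((1 - ε) * (1 + 1 / Real.log N)) * Real.sqrt (Real.log N * Real.log (Real.log N)) := by ring
    _ ≤ (1 - ε / 2) * Real.sqrt (Real.log N * Real.log (Real.log N)) := by
        apply mul_le_mul_of_nonneg_right _ h6
        have h7 : 1 / Real.log N ≤ ε / 2 := by
          rw [div_le_iff₀ hL0]
          have := mul_le_mul_of_nonneg_left h1 (show 0 ≤ ε / 2 by positivity)
          have e1 : ε / 2 * (2 / ε) = 1 := by field_simp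
          linarith
        have h8 : 0 < 1 / Real.log N := by positivity
        nlinarith

/-- the lower bound fails for the dyadic interval -/
def LoFail (v : ℝ) (N : ℕ) : Set Om := {ω | ∀ a ∈ fml N, ∀ n ≤ N, ‖S ω a n‖ < big v N}

lemma lo_fail_prob (hF : S_FAM) (hH : S_HML) (hB : S_BLK) {ε : ℝ} (hε : 0 < ε) (hε1 : ε ≤ 1 / 2) :
    ∃ c : ℝ, 0 < c ∧ ∃ N₀ : ℕ, ∀ N : ℕ, N₀ ≤ N →
      PT.real (LoFail (1 - ε / 2) N) ≤ Real.exp (-(Real.log N ^ c)) := by
  classical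
  obtain ⟨η, hη0, hη1, N₁, hN₁⟩ := hF (ε / 4) (by positivity) (by linarith)
  obtain ⟨N₂, hN₂⟩ := hB η hη0 hη1 (ε / 4 / 8) (by positivity)
  obtain ⟨N₃, hN₃⟩ := eventually_atTop.1 ((tendsto_L.eventually_gt_atTop 1).and
    ((fml_large (ε := ε) hε).and (eventually_ge_atTop 2)))
  refine ⟨η / 4, by positivity, max (max N₁ N₂) N₃, fun N hN => ?_⟩
  have hn1 : N₁ ≤ N := le_trans (le_trans (le_max_left _ _) (le_max_left _ _)) hN
  have hn2 : N₂ ≤ N := le_trans (le_trans (le_max_right _ _) (le_max_left _ _)) hN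
  obtain ⟨hL, hbigc, hN2⟩ := hN₃ N (le_trans (le_max_right _ _) hN)
  have hNR : (2 : ℝ) ≤ N := by exact_mod_cast hN2
  have hN0 : (0 : ℝ) < N := by linarith
  have hT1 : (N : ℝ) ^ (1 / 2 : ℝ) ≤ (N : ℝ) ^ 2 := by
    rw [← Real.rpow_natCast]
    apply Real.rpow_le_rpow_of_exponent_le (by linarith)
    norm_num
  have hT2 : (N : ℝ) ^ 2 ≤ (N : ℝ) ^ 3 := pow_le_pow_right₀ (by linarith) (by norm_num)
  have hB1 := hN₂ N hn2 ((N : ℝ) ^ 2) hT1 hT2 (fml N) (hm_fml hH (by omega))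
  have hexp : 2 * (1 - ε / 2) ^ 2 + ε / 4 ≤ 2 - ε := by nlinarith
  have h1 := hN₁ N hn1 (fml N) ?_ (fml_card_le hN2) ?_ (1 - ε / 2) (by linarith) (by linarith)
    (le_trans (Real.rpow_le_rpow_of_exponent_le (by linarith) hexp) hbigc)
  · refine le_trans (measureReal_mono (fun ω hω => ?_) (measure_ne_top _ _)) h1
    rw [Set.mem_setOf_eq]
    have h2 : ((fml N).filter fun a => ∃ n ≤ N, big (1 - ε / 2) N ≤ ‖S ω a n‖) = ∅ := by
      rw [Finset.filter_eq_empty_iff]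
      intro a ha
      push Not
      exact hω a ha
    rw [h2, Finset.card_empty, Nat.cast_zero]
    have h3 : (0 : ℝ) < (fml N).card := lt_of_lt_of_le (by positivity) hbigc
    positivity
  · intro a ha
    obtain ⟨q, hq1, hq2, hqp, haq⟩ := mem_fml.1 ha
    have ha' := chars'_sub hqp haq
    refine ⟨cm_chars hqp ha', fun p hp => ?_⟩
    refine norm_char hqp ha' ?_ ?_
    · unfold mid at hp
      exact (Finset.mem_filter.1 hp).2.1
    · have := mid_lt hη0 hL hp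
      omega
  · intro a ha
    obtain ⟨q, hq1, hq2, hqp, haq⟩ := mem_fml.1 ha
    exact bad_of_blk hB1 (Finset.Subset.refl _) (cm_chars hqp (chars'_sub hqp haq)).2.2

theorem part2_lo (hF : S_FAM) (hH : S_HML) (hB : S_BLK) : ∀ᵐ ω ∂PT, ∀ ε : ℝ, 0 < ε → ∃ Q₀ : ℕ,
    ∀ Q : ℕ, Q₀ ≤ Q → ∃ q : ℕ, q.Prime ∧ Q < q ∧ q ≤ 4 * Q ∧ ∃ χ : DirichletCharacter ℂ q, χ ≠ 1 ∧
      ∃ n ≤ q, big (1 - ε) q ≤ ‖S ω (fun m : ℕ => χ m) n‖ := by
  have h1 : ∀ k : ℕ, ∀ᵐ ω ∂PT, ∀ᶠ j : ℕ in atTop, ω ∉ LoFail (1 - 1 / ((k : ℝ) + 2) / 2) (2 ^ j) := by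
    intro k
    have hk : 0 < 1 / ((k : ℝ) + 2) := by positivity
    have hk1 : 1 / ((k : ℝ) + 2) ≤ 1 / 2 := by
      apply div_le_div_of_nonneg_left (by norm_num) (by norm_num)
      have : (0 : ℝ) ≤ k := by positivity
      linarith
    obtain ⟨c, hc, N₀, h⟩ := lo_fail_prob hF hH hB hk hk1
    have hev : ∀ᶠ x : ℝ in atTop, Real.exp (-(x ^ c)) ≤ 1 / x ^ 2 := by
      have h1 : Tendsto (fun x : ℝ => x ^ c) atTop atTop := tendsto_rpow_atTop hc
      have h3 := (tendsto_rpow_mul_exp_neg_mul_atTop_nhds_zero (2 / c) 1 one_pos).comp h1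
      filter_upwards [h3.eventually (gt_mem_nhds (show (0 : ℝ) < 1 by norm_num)), eventually_gt_atTop 0]
        with x h5 h7
      have e1 : (x ^ c) ^ (2 / c) = x ^ 2 := by
        rw [← Real.rpow_mul h7.le, ← Real.rpow_natCast]
        congr 1
        field_simp
        norm_num
      simp only [Function.comp, e1, neg_mul, one_mul] at h5
      rw [le_div_iff₀ (by positivity), mul_comm]
      exact h5.le
    have hx : Tendsto (fun j : ℕ => Real.log ((2 ^ j : ℕ) : ℝ)) atTop atTop :=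
      tendsto_L.comp (tendsto_pow_atTop_atTop_of_one_lt (by norm_num : 1 < 2))
    have hQq : Tendsto (fun j : ℕ => 2 ^ j) atTop atTop :=
      tendsto_pow_atTop_atTop_of_one_lt (by norm_num : 1 < 2)
    obtain ⟨J, hJ⟩ := eventually_atTop.1 ((hx.eventually hev).and
      ((hQq.eventually_ge_atTop N₀).and (eventually_ge_atTop 1)))
    have hE : ∀ j ≥ J, PT.real (LoFail (1 - 1 / ((k : ℝ) + 2) / 2) (2 ^ j)) ≤ 4 * (1 / (j : ℝ) ^ 2) := by
      intro j hj
      obtain ⟨a1, a2, a4⟩ := hJ j hj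
      refine (h _ a2).trans (a1.trans ?_)
      have h1 : Real.log ((2 ^ j : ℕ) : ℝ) = j * Real.log 2 := by
        push_cast
        rw [Real.log_pow]
      rw [h1, mul_pow]
      have h2 : (1 : ℝ) / 2 ≤ Real.log 2 := by
        have := Real.log_two_gt_d9
        linarith
      have h3 : (1 / 4 : ℝ) ≤ Real.log 2 ^ 2 := by nlinarith
      have h4 : (0 : ℝ) < (j : ℝ) ^ 2 := by
        have : (1 : ℝ) ≤ j := by exact_mod_cast a4
        positivity
      rw [mul_one_div, div_le_div_iff₀ (by positivity) h4]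
      nlinarith
    exact bc hE
  filter_upwards [ae_all_iff.2 h1] with ω hω ε hε
  obtain ⟨k, hk⟩ := exists_nat_one_div_lt hε
  have hk0 : 0 < 1 / ((k : ℝ) + 2) := by positivity
  have hk1 : 1 / ((k : ℝ) + 2) ≤ 1 := by
    rw [div_le_one (by positivity)]
    have : (0 : ℝ) ≤ k := by positivity
    linarith
  have hk2 : 1 / ((k : ℝ) + 2) ≤ ε := by
    refine le_trans ?_ hk.le
    apply div_le_div_of_nonneg_left (by norm_num) (by positivity)
    linarith
  obtain ⟨J, hJ⟩ := eventually_atTop.1 (hω k)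
  obtain ⟨N₁, hN₁⟩ := eventually_atTop.1 (big_cmp hk0 hk1)
  refine ⟨max (max N₁ 1) (2 ^ J), fun Q hQ => ?_⟩
  have hQN : N₁ ≤ Q := le_trans (le_trans (le_max_left _ _) (le_max_left _ _)) hQ
  have hQ1 : 1 ≤ Q := le_trans (le_trans (le_max_right _ _) (le_max_left _ _)) hQ
  have hQJ : 2 ^ J ≤ Q := le_trans (le_max_right _ _) hQ
  obtain ⟨j, hj⟩ : ∃ j, j = Nat.log 2 Q := ⟨_, rfl⟩
  have hj1 : 2 ^ j ≤ Q := by rw [hj]; exact Nat.pow_log_le_self 2 (by omega)
  have hj2 : Q < 2 ^ (j + 1) := by rw [hj]; exact Nat.lt_pow_succ_log_self (by norm_num) Q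
  have hj3 : J ≤ j := by
    rw [hj]
    exact Nat.le_log_of_pow_le (by norm_num) hQJ
  have h2 := hJ (j + 1) (by omega)
  unfold LoFail at h2
  simp only [Set.mem_setOf_eq, not_forall] at h2
  obtain ⟨a, ha, n, hn, h3⟩ := h2
  push Not at h3
  obtain ⟨q, hq1, hq2, hqp, haq⟩ := mem_fml.1 ha
  obtain ⟨χ, hχ, rfl⟩ := (mem_chars' hqp).1 haq
  have e1 : 2 ^ (j + 1) = 2 * 2 ^ j := by rw [pow_succ]; ring
  refine ⟨q, hqp, by omega, by omega, χ, hχ, n, by omega, ?_⟩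
  refine (big_mono (by linarith) q).trans ((hN₁ (2 ^ (j + 1)) (by omega) q hq1 hq2).trans h3)

end Pool.Agent.Q255.FG
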