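import Pool.Agent.Q255.FG.Defs

/-!
# Project FG: the statements

`f ω` is the random completely multiplicative function with independent uniform values `f ω p`
(`Pool.Agent.Q255.RM.Basic`: `f`, `f_mul`, `norm_f`, `f_cont`, `orth`), `PT` the uniform probability on the
infinite torus `Om = ℕ → UnitAddCircle` (`Pool.Agent.Q289.PAM.Torus`).
-/

set_option autoImplicit false

open MeasureTheory Finset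

namespace Pool.Agent.Q255.FG

open Q289.PAM Pool.Agent.Q255.RM

/-- **ONE** (integrals over the circle, `u = x.toCircle` uniform on the unit circle).
Proof. `∫ u^n = 0` for `n ≠ 0` (Fourier; `fourierCoeff`, or `integral_fourier`-type lemmas, or invariance
under the translation by a point `y` with `y.toCircle ^ n ≠ 1`). So with `v = (w u).re = (w u + conj)/2`:
`∫ v = 0`, `∫ v² = ‖w‖²/2`, `∫ v³ = 0`.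
(a) `e^v ≤ 1 + v + v²/2 + |v|³` for `|v| ≤ 1`, so the integral is `≤ 1 + ‖w‖²/4 + ‖w‖³ ≤ exp(...)`.
(b) `e^v ≥ 1 + v + v²/2 + v³/6` for all real `v` (fourth derivative positive).
(c) `‖1 - w u‖² = 1 - 2 v + ‖w‖²`.
(d) `-log ‖1 - z‖ ≤ Re z + 2 ‖z‖²` for `‖z‖ ≤ 3/4` (see LG below, or the series of the logarithm), so
`‖1 - w u‖^(-2k) ≤ exp (4 k ‖w‖²) exp (Re (2 k w u))` and (a) with `2 k w`. -/
def S_ONE : Prop :=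
  (∀ w : ℂ, ‖w‖ ≤ 1 → ∫ x : UnitAddCircle, Real.exp (w * (x.toCircle : ℂ)).re ≤
      Real.exp (‖w‖ ^ 2 / 4 + ‖w‖ ^ 3)) ∧
  (∀ w : ℂ, 1 + ‖w‖ ^ 2 / 4 ≤ ∫ x : UnitAddCircle, Real.exp (w * (x.toCircle : ℂ)).re) ∧
  (∀ w : ℂ, ∫ x : UnitAddCircle, ‖1 - w * (x.toCircle : ℂ)‖ ^ 2 = 1 + ‖w‖ ^ 2) ∧
  (∀ (w : ℂ) (k : ℕ), ‖w‖ ≤ 3 / 4 → 2 * k * ‖w‖ ≤ 1 →
    ∫ x : UnitAddCircle, (‖1 - w * (x.toCircle : ℂ)‖⁻¹) ^ (2 * k) ≤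
      Real.exp ((k * ‖w‖) ^ 2 + 8 * (k * ‖w‖) ^ 3 + 4 * k * ‖w‖ ^ 2))

/-- **LG**: two-sided bound of the logarithm.
Proof. `-log ‖1 - z‖ = Re (-log (1 - z)) = Re ∑_{j ≥ 1} z^j / j` and `∑_{j ≥ 2} ‖z‖^j / j ≤
‖z‖² / (2 (1 - ‖z‖)) ≤ 2 ‖z‖²`. Mathlib has `Complex.norm_log_one_add_sub_self_le` and
`Complex.hasSum_taylorSeries_neg_log`. -/
def S_LG : Prop :=
  ∀ z : ℂ, ‖z‖ ≤ 3 / 4 → Real.exp (z.re - 2 * ‖z‖ ^ 2) ≤ ‖1 - z‖⁻¹ ∧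
    ‖1 - z‖⁻¹ ≤ Real.exp (z.re + 2 * ‖z‖ ^ 2)

/-- **PROD** (independence): `iIndepFun_infinitePi` and the product formula for expectations. -/
def S_PROD : Prop :=
  ∀ (P : Finset ℕ) (g : ℕ → UnitAddCircle → ℝ), (∀ p ∈ P, Continuous (g p)) →
    ∫ ω, ∏ p ∈ P, g p (ω p) ∂PT = ∏ p ∈ P, ∫ x : UnitAddCircle, g p x

/-- **DOM** (domination). For finite sets `A` of positive integers and `k ≥ 1`:
(i) coefficients bounded by `b n` give a smaller `2k`-th moment than the coefficients `b n`;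
(ii) for nonnegative coefficients the `2k`-th moments of disjoint pieces add up to at most the moment of
the whole; in particular (iii) monotone in the set.
Proof. `(∑_{n ∈ A} c n f n)^k = ∑_m C_m f(m)` with `C_m = ∑ ∏ c (v i)`, the sum over `v ∈ A^k`
(`Fintype.piFinset fun _ : Fin k => A`) with `∏ v i = m`, and `∫ ‖∑_m C_m f(m)‖² = ∑_m ‖C_m‖²` (`orth`). Now
(i) `‖C_m‖ ≤ B_m`; (ii) the sets `A_i^k` are disjoint subsets of `B^k` (`k ≥ 1`), so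
`∑_i (C^i_m)² ≤ (∑_i C^i_m)² ≤ C_m²`. Compare `pow_expand` in `Pool.Agent.Q255.RM.Poly`. -/
def S_DOM : Prop :=
  (∀ (A : Finset ℕ) (c : ℕ → ℂ) (b : ℕ → ℝ) (k : ℕ), (∀ n ∈ A, 1 ≤ n ∧ ‖c n‖ ≤ b n) →
    ∫ ω, ‖∑ n ∈ A, c n * f ω n‖ ^ (2 * k) ∂PT ≤ ∫ ω, ‖∑ n ∈ A, (b n : ℂ) * f ω n‖ ^ (2 * k) ∂PT) ∧
  (∀ (s : Finset ℕ) (A : ℕ → Finset ℕ) (B : Finset ℕ) (b : ℕ → ℝ) (k : ℕ), 1 ≤ k →
    (∀ n ∈ B, 1 ≤ n ∧ 0 ≤ b n) → (∀ i ∈ s, A i ⊆ B) → (s : Set ℕ).PairwiseDisjoint A →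
    ∑ i ∈ s, ∫ ω, ‖∑ n ∈ A i, (b n : ℂ) * f ω n‖ ^ (2 * k) ∂PT ≤
      ∫ ω, ‖∑ n ∈ B, (b n : ℂ) * f ω n‖ ^ (2 * k) ∂PT)

/-- **A1**: sums over primes. (i) `∑_{p ∈ P} p^(-1-α) ≤ log (1 + 1/α)` for every finite set of primes:
`∑ p^(-s) ≤ ∑ -log (1 - p^(-s)) = log ζ(s)` and `ζ(s) ≤ 1 + 1/(s-1)` (`s = 1 + α`), or with finite Euler products
`∏_{p ∈ P} (1 - p^(-s))⁻¹ ≤ ∑_n n^(-s) ≤ 1 + ∫_1^∞ x^(-s) dx`.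
(ii) Mertens: `∑_{y < p ≤ x} 1/p = log log x - log log y + O(1)` (the library has Mertens' second theorem in many
places). (iii) `∑_{n ∈ A, n > y} n^(-3/2) ≤ 4 y^(-1/2)` and (iv) `∑_{n ∈ A, n > y} n^(-2) ≤ 2 / y` for `y ≥ 1`. -/
def S_A1 : Prop :=
  (∀ (P : Finset ℕ) (α : ℝ), (∀ p ∈ P, p.Prime) → 0 < α →
    ∑ p ∈ P, (p : ℝ) ^ (-(1 + α)) ≤ Real.log (1 + 1 / α)) ∧
  (∃ C : ℝ, ∀ x y : ℝ, 2 ≤ y → y ≤ x →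
    |∑ p ∈ (Icc 1 ⌊x⌋₊).filter (fun p : ℕ => p.Prime ∧ y < (p : ℝ)), (1 / (p : ℝ)) -
      (Real.log (Real.log x) - Real.log (Real.log y))| ≤ C) ∧
  (∀ (A : Finset ℕ) (y : ℝ), 1 ≤ y → (∀ n ∈ A, y < n) →
    ∑ n ∈ A, (n : ℝ) ^ (-(3 / 2) : ℝ) ≤ 4 * y ^ (-(1 / 2) : ℝ)) ∧
  (∀ (A : Finset ℕ) (y : ℝ), 1 ≤ y → (∀ n ∈ A, y < n) → ∑ n ∈ A, (1 / (n : ℝ) ^ 2) ≤ 2 / y)

/-- **U0** (moments of the truncated Euler product; `(primorial N) ^ J` is divisible exactly by the integers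
composed of primes `≤ N` with exponents `≤ J`).
Proof. With `z_p = f(p) p^(-1/2-α)` the sum is `∏_{p ≤ N} ∑_{j ≤ J} z_p^j` (multiplicativity), and
`‖∑_{j ≤ J} z^j‖ = ‖1 - z^(J+1)‖ / ‖1 - z‖ ≤ (1 + r²) / ‖1 - z‖`, `r = p^(-1/2-α)`, as `J ≥ 1`. By PROD the
moment is at most `∏_p (1 + r²)^(2k) ∫ ‖1 - r u‖^(-2k)`.
* `(1 + r²)^(2k) ≤ exp (2k r²)`, and `∑ p^(-1-2α) ≤ log (1 + 1/α)` by A1;
* primes `p > 16 k²` (so `2 k r ≤ 1/2`, and `r ≤ p^(-1/2) ≤ 3/4`): ONE (d) gives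
  `exp (k² r² + 8 k³ r³ + 4 k r²)`; `∑_{p > 16 k²} 8 k³ p^(-3/2) ≤ 8 k³ · 4 / (4 k) = 8 k²`;
* primes `p ≤ 16 k²`: `‖1 - r u‖⁻¹ ≤ (1 - r)⁻¹ ≤ exp (2 r)` as `r ≤ 2^(-1/2)` (`-log (1 - r) ≤ 1.74 r`), so
  the factor is at most `exp (4 k r)`, and `∑_{n ≤ 16 k²} 4 k n^(-1/2) ≤ 8 k · 4 k = 32 k²`.
Total `exp (k² log (1 + 1/α) + 40 k² + 6 k log (1 + 1/α))`. -/
def S_U0 : Prop :=
  ∃ C : ℝ, 0 < C ∧ ∀ (α : ℝ) (k N J : ℕ), 0 < α → α ≤ 1 → 1 ≤ k → 1 ≤ J →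
    ∫ ω, ‖∑ n ∈ ((primorial N) ^ J).divisors, (((n : ℝ) ^ (-(1 / 2 + α)) : ℝ) : ℂ) * f ω n‖ ^ (2 * k) ∂PT ≤
      Real.exp ((k : ℝ) ^ 2 * Real.log (1 + 1 / α) + C * (k : ℝ) ^ 2 + C * k * Real.log (1 + 1 / α))

/-- **U2** (uniform moments). Proof (from U0, DOM). Put `α = k / log N ≤ 1`. For `n ≤ N`:
`n^(-1/2) ≤ N^α n^(-1/2-α)`, `N^(2kα) = exp (2 k²)`, and every `n ≤ N` divides `(primorial N)^J` if `2^J > N`.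
So by DOM (i), (ii) the moment is at most `exp (2k²)` times the one of U0. -/
def S_U2 : Prop :=
  ∃ C : ℝ, 0 < C ∧ ∀ k N : ℕ, 1 ≤ k → 2 ≤ N → (k : ℝ) ≤ Real.log N →
    ∫ ω, ‖∑ n ∈ Icc 1 N, (((Real.sqrt (n : ℕ))⁻¹ : ℝ) : ℂ) * f ω n‖ ^ (2 * k) ∂PT ≤
      Real.exp ((k : ℝ) ^ 2 * Real.log (1 + Real.log N / k) + C * (k : ℝ) ^ 2 +
        C * k * Real.log (1 + Real.log N / k))

/-- **U3** (maximal inequality, Rademacher-Menshov for `2k`-th moments).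
Proof. Every `[1, N]`, `N ≤ 2^r`, is a disjoint union of at most one dyadic block `(i 2^j, (i+1) 2^j]` of each
size `2^j`, `0 ≤ j ≤ r`. So `max_N ‖S_N‖ ≤ ∑_{j ≤ r} m_j` with `m_j = max_i ‖block (i,j)‖`, and
`(∑_j m_j)^(2k) ≤ (r+1)^(2k-1) ∑_j m_j^(2k) ≤ (r+1)^(2k-1) ∑_j ∑_i ‖block (i,j)‖^(2k)`. By DOM (i) the moment of a
block is at most that of the block with `a = 1`, and by DOM (ii) for each `j` their sum over `i` is at most the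
moment of the whole sum. -/
def S_U3 : Prop :=
  ∀ (a : ℕ → ℂ), (∀ n, ‖a n‖ ≤ 1) → ∀ (k r : ℕ), 1 ≤ k →
    ∫ ω, ((range (2 ^ r + 1)).sup' ⟨0, by simp⟩ fun N => ‖S ω a N‖) ^ (2 * k) ∂PT ≤
      ((r : ℝ) + 1) ^ (2 * k) *
        ∫ ω, ‖∑ n ∈ Icc 1 (2 ^ r), (((Real.sqrt (n : ℕ))⁻¹ : ℝ) : ℂ) * f ω n‖ ^ (2 * k) ∂PT

/-- **U4** (large deviations, upper bound). Proof (from U2, U3). `L = log N`, `l = log L`. Take `2^(r-1) < N ≤ 2^r`,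
`k = ⌈2 v √(L/l)⌉`; the maximum over `n ≤ N` is at most that over `n ≤ 2^r`. By Markov's inequality the probability is at most
`exp (-2 k v √(L l)) (r+1)^(2k) exp (k² log (1 + log (2^r)/k) + C k² + C k log (1 + log (2^r)/k))`.
Here `2 k v √(L l) ≥ 4 v² L`; `k² ≤ 4 v² L/l + O(√(L/l)) + 1`, `log (1 + log (2^r)/k) ≤ l/2 + log l / 2 + C(ε)`
(because `k ≥ 2 ε √(L/l)`), so `k² log (...) ≤ 2 v² L + o(L)`; all other terms are `O(√(L l)) = o(L)`, uniformly in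
`ε ≤ v ≤ 2`. -/
def S_U4 : Prop :=
  ∀ ε : ℝ, 0 < ε → ∃ N₀ : ℕ, ∀ N : ℕ, N₀ ≤ N → ∀ v : ℝ, ε ≤ v → v ≤ 2 → ∀ a : ℕ → ℂ, (∀ n, ‖a n‖ ≤ 1) →
    PT.real {ω | ∃ n ≤ N, big v N ≤ ‖S ω a n‖} ≤ (N : ℝ) ^ (ε - 2 * v ^ 2)

/-- **LT** (the sum up to `N` at `1/2 + δ` is the Euler product over `p ≤ N` up to `1`, off an event of tiny
probability). Proof. `δ = dl N = 5 √(l/L)`. Let `J` be so large that `2^J > N` and that (uniformly in `ω`) the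
product `F` differs from `F_J = ∏_{p ≤ N} ∑_{j ≤ J} (f(p) a(p) p^(-1/2-δ))^j = ∑_{n ∣ (primorial N)^J} f(n) a(n)
n^(-1/2-δ)` by at most `1/2`. Then `F_J - ∑_{n ≤ N}` is the sum `R` over the divisors `n > N`, where
`n^(-1/2-δ) ≤ N^(-δ/2) n^(-1/2-δ/2)`. By DOM and U0 (with `α = δ/2`) for `m = ⌈4 √(L/l)⌉`:
`∫ ‖R‖^(2m) ≤ N^(-mδ) exp (m² log (1 + 2/δ) + C m² + C m log (1 + 2/δ))`, `m δ L ≥ 20 L`,
`m² log (1 + 2/δ) ≤ (16 + o(1)) (L/l) (l/2) = (8 + o(1)) L`; Markov: `P(‖R‖ ≥ 1/2) ≤ 2^(2m) ∫ ‖R‖^(2m) ≤ N^(-11)`. -/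
def S_LT : Prop :=
  ∃ N₀ : ℕ, ∀ N : ℕ, N₀ ≤ N → ∀ a : ℕ → ℂ, CM a →
    PT.real {ω | 1 ≤ ‖∑ n ∈ Icc 1 N, f ω n * a n * (((n : ℝ) ^ (-(1 / 2 + dl N)) : ℝ) : ℂ) -
      ∏ p ∈ (range (N + 1)).filter Nat.Prime,
        (1 - f ω p * a p * (((p : ℝ) ^ (-(1 / 2 + dl N)) : ℝ) : ℂ))⁻¹‖} ≤ (N : ℝ) ^ (-6 : ℝ)

/-- **ABEL** (summation by parts): bounds for all `S ω a n`, `n ≤ N`, pass to the sum with the additional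
decreasing weight `n^(-δ)`. -/
def S_ABEL : Prop :=
  ∀ (ω : Om) (a : ℕ → ℂ) (N : ℕ) (δ B : ℝ), 0 ≤ δ → (∀ n ≤ N, ‖S ω a n‖ ≤ B) →
    ‖∑ n ∈ Icc 1 N, f ω n * a n * (((n : ℝ) ^ (-(1 / 2 + δ)) : ℝ) : ℂ)‖ ≤ B

/-- **EXPM** (exponential moments, from ONE and PROD; the primes of `P` and `P'` are different). -/
def S_EXPM : Prop :=
  (∀ (P : Finset ℕ) (w : ℕ → ℂ), (∀ p ∈ P, p.Prime) →
    Real.exp (∑ p ∈ P, (‖w p‖ ^ 2 / 4 - ‖w p‖ ^ 4 / 32)) ≤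
      ∫ ω, Real.exp (∑ p ∈ P, w p * f ω p).re ∂PT) ∧
  (∀ (P : Finset ℕ) (w : ℕ → ℂ), (∀ p ∈ P, p.Prime ∧ ‖w p‖ ≤ 1) →
      ∫ ω, Real.exp (∑ p ∈ P, w p * f ω p).re ∂PT ≤
        Real.exp (∑ p ∈ P, (‖w p‖ ^ 2 / 4 + ‖w p‖ ^ 3))) ∧
  (∀ (P P' : Finset ℕ) (w c : ℕ → ℂ), (∀ p ∈ P, p.Prime ∧ ‖w p‖ ≤ 1) → (∀ p ∈ P', p.Prime) → Disjoint P P' →
      ∫ ω, Real.exp (∑ p ∈ P, w p * f ω p).re * ∏ p ∈ P', ‖1 - c p * f ω p‖ ^ 2 ∂PT ≤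
        Real.exp (∑ p ∈ P, (‖w p‖ ^ 2 / 4 + ‖w p‖ ^ 3)) * ∏ p ∈ P', (1 + ‖c p‖ ^ 2))

open Classical in
/-- **LS** (abstract second moment argument with tilted weights and a barrier).
Proof. `M = card I`, `E = exp (k² s)`. `G_i(ω)`: `(1-ε) k s ≤ X i ω ≤ (1+ε) k s` and `Y i ω ≤ Λ`.
`W_i = exp (2 k X_i)` on `G_i`, `0` elsewhere; `W = ∑ W_i`.
(1) `∫ W_i ≥ ∫ exp (2kX_i) - ∫_{X_i > (1+ε)ks} - ∫_{X_i < (1-ε)ks} - ∫_{Y_i > Λ}`. On `X_i > (1+ε) k s`: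
`exp (2kX_i) ≤ exp (2(1+ε)k X_i) exp (-2εk(1+ε)ks)`, integral `≤ exp ((1+ε)²k²s + θ - 2ε(1+ε)k²s) =
E exp (-ε² k² s + θ)`; on `X_i < (1-ε)ks`: `exp (2kX_i) ≤ exp (2(1-ε)kX_i) exp (2εk(1-ε)ks)`, integral
`≤ exp ((1-ε)²k²s + θ + 2ε(1-ε)k²s) = E exp (-ε²k²s + θ)`; on `Y_i > Λ`: `≤ exp (2kX_i) Y_i / Λ`, integral `≤ B E / Λ`.
So `∫ W_i ≥ E (1 - η)`, `η = θ + 3 exp (-ε²k²s) + B/Λ` (`e^(1/4) ≤ 3/2`). If `η ≥ 1/2` the claim is trivial (its right side is `≥ 1`).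
(2) For `j ∉ bad i`: `∫ W_i W_j ≤ E² e^θ`. For `j ∈ bad i`: `W_i W_j ≤ exp (2k(1+ε)ks) W_j`, integral
`≤ exp (2(1+ε)k²s + k²s + θ)`. So `∫ W² ≤ M² E² e^θ (1 + d)`, `d = D exp ((1+2ε)k²s) / M`.
(3) Chebyshev: `P(W ≤ (∫W)/2) ≤ 4 (∫W² - (∫W)²)/(∫W)² ≤ 16 (e^θ(1+d) - (1-η)²) ≤ 100 (θ + exp(-ε²k²s) + B/Λ + d)`.
(4) If `W > (∫W)/2 ≥ M E / 4` then, as every `W_i ≤ exp (2k(1+ε)ks)` and vanishes off `G_i`, the number of `i` with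
`G_i` is at least `(M/4) exp (k²s - 2(1+ε)k²s) = (M/4) exp (-(1+2ε)k²s)`. -/
def S_LS : Prop :=
  ∀ (I : Finset (ℕ → ℂ)) (X Y : (ℕ → ℂ) → Om → ℝ) (k s ε θ B Λ D : ℝ) (bad : (ℕ → ℂ) → Finset (ℕ → ℂ)),
    I.Nonempty → 0 < k → 0 < s → 0 < ε → ε ≤ 1 / 4 → 0 ≤ θ → θ ≤ 1 / 4 → 0 < B → 0 < Λ → 0 ≤ D →
    (∀ i ∈ I, Continuous (X i)) → (∀ i ∈ I, Continuous (Y i)) → (∀ i ω, 0 ≤ Y i ω) →
    (∀ i ∈ I, Real.exp (k ^ 2 * s - θ) ≤ ∫ ω, Real.exp (2 * k * X i ω) ∂PT) →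
    (∀ i ∈ I, ∫ ω, Real.exp (2 * k * X i ω) ∂PT ≤ Real.exp (k ^ 2 * s + θ)) →
    (∀ i ∈ I, ∫ ω, Real.exp (2 * ((1 + ε) * k) * X i ω) ∂PT ≤ Real.exp (((1 + ε) * k) ^ 2 * s + θ)) →
    (∀ i ∈ I, ∫ ω, Real.exp (2 * ((1 - ε) * k) * X i ω) ∂PT ≤ Real.exp (((1 - ε) * k) ^ 2 * s + θ)) →
    (∀ i ∈ I, ∫ ω, Real.exp (2 * k * X i ω) * Y i ω ∂PT ≤ B * Real.exp (k ^ 2 * s)) →
    (∀ i ∈ I, ∀ j ∈ I, j ∉ bad i →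
      ∫ ω, Real.exp (2 * k * X i ω) * Real.exp (2 * k * X j ω) ∂PT ≤ Real.exp (2 * (k ^ 2 * s) + θ)) →
    (∀ i ∈ I, ((bad i).card : ℝ) ≤ D) →
    PT.real {ω | ((I.filter fun i => (1 - ε) * k * s ≤ X i ω ∧ Y i ω ≤ Λ).card : ℝ) <
        (I.card : ℝ) / 4 * Real.exp (-((1 + 2 * ε) * (k ^ 2 * s)))} ≤
      100 * (θ + Real.exp (-(ε ^ 2 * (k ^ 2 * s))) + B / Λ +
        D * Real.exp ((1 + 2 * ε) * (k ^ 2 * s)) / I.card)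

open Classical in
/-- **FAM** (large deviations, lower bound, for a family with few bad pairs; from LT, ABEL, EXPM, LS, LG, A1).
Proof. `κ = 2 (1+ε')² v²`, `s = ∑_{p ∈ mid} p^(-1-2δ)`, which is between `(1/2 - 3η) l` and `l/2` for large `N`,
`k = √(κ L / s)`, `X_i = Re ∑_{p ∈ mid} f(p) a(p) p^(-1/2-δ)`, `Y_i = ∏ ‖1 - f(p) a(p) p^(-1/2-δ)‖²` over the other
primes `p ≤ N`, `Λ = exp (2 ε' k s)`. -/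
def S_FAM : Prop :=
  ∀ ε : ℝ, 0 < ε → ε ≤ 1 → ∃ η : ℝ, 0 < η ∧ η < 1 / 8 ∧ ∃ N₀ : ℕ, ∀ N : ℕ, N₀ ≤ N → ∀ I : Finset (ℕ → ℂ),
    (∀ a ∈ I, CM a ∧ ∀ p ∈ mid N η, ‖a p‖ = 1) → (I.card : ℝ) ≤ (N : ℝ) ^ 3 →
    (∀ a ∈ I, ((I.filter fun b => Real.exp (-(Real.log N ^ (η / 2))) < corr N η a b).card : ℝ) ≤
      (N : ℝ) ^ (ε / 8)) →
    ∀ v : ℝ, ε ≤ v → v ≤ 2 → (N : ℝ) ^ (2 * v ^ 2 + ε) ≤ I.card →
    PT.real {ω | ((I.filter fun a => ∃ n ≤ N, big v N ≤ ‖S ω a n‖).card : ℝ) <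
        I.card * (N : ℝ) ^ (-(2 * v ^ 2 + ε))} ≤ Real.exp (-(Real.log N ^ (η / 4)))

/-- **TUP**: at most `m!` ordered factorisations into primes.
Proof. If `t, t'` are `m`-tuples of primes with the same product then the multisets of their values are equal
(unique factorisation: `Nat.primeFactorsList_unique`), so `t' = t ∘ σ` for a permutation `σ` of `Fin m`. -/
def S_TUP : Prop :=
  ∀ (P : Finset ℕ) (m : ℕ) (t : Fin m → ℕ), (∀ p ∈ P, p.Prime) → (∀ i, (t i).Prime) →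
    ((Fintype.piFinset fun _ : Fin m => P).filter fun t' => ∏ i, t' i = ∏ i, t i).card ≤ Nat.factorial m

/-- the functions `n ↦ χ(n)`, `χ` a character modulo `q` -/
noncomputable def chars (q : ℕ) : Finset (ℕ → ℂ) := by
  classical
  exact if h : q = 0 then ∅ else
    haveI : NeZero q := ⟨h⟩
    (univ : Finset (DirichletCharacter ℂ q)).image fun χ n => χ (n : ZMod q)

/-- the functions `n ↦ χ(n)`, `χ` a non-principal character modulo `q` -/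
noncomputable def chars' (q : ℕ) : Finset (ℕ → ℂ) := by
  classical
  exact if h : q = 0 then ∅ else
    haveI : NeZero q := ⟨h⟩
    ((univ : Finset (DirichletCharacter ℂ q)).filter (· ≠ 1)).image fun χ n => χ (n : ZMod q)

/-- **HMC**: the high moment inequality for the characters modulo a prime `q`, `T = q - 1`, also after
multiplication by a fixed bounded function `b`.
Proof. `(∑ c p b p χ p)^m = ∑_t C_t χ(n_t)` over the `m`-tuples `t ∈ P^m`, `n_t = ∏ t i ≤ Y^m ≤ q - 1 < q`, prime to `q`.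
`∑_χ ‖·‖² = ∑_{t,t'} C_t conj C_t' ∑_χ χ(n_t) conj χ(n_t') = (q-1) ∑_{n_t = n_t'} C_t conj C_t' ≤ (q-1) ∑_{n_t = n_t'}
(‖C_t‖² + ‖C_t'‖²)/2 ≤ (q-1) m! ∑_t ‖C_t‖² = (q-1) m! (∑ ‖c p b p‖²)^m` by TUP. -/
def S_HMC : Prop :=
  ∀ (q : ℕ) (b : ℕ → ℂ), q.Prime → (∀ n, ‖b n‖ ≤ 1) →
    ∀ (P : Finset ℕ) (Y m : ℕ) (c : ℕ → ℂ), (∀ p ∈ P, p.Prime ∧ p ≤ Y) → Y ^ m ≤ q - 1 →
    ∑ ψ ∈ chars q, ‖∑ p ∈ P, c p * b p * ψ p‖ ^ (2 * m) ≤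
      (q - 1 : ℝ) * (Nat.factorial m) * (∑ p ∈ P, ‖c p‖ ^ 2) ^ m

/-- **HML**: the same for all non-principal characters modulo the primes `q ∈ (Q, 2Q]`, from the
multiplicative large sieve `Pool.Agent.Helper112.mult_large_sieve` (`F = 2Q`, length `Y^m`; the weight `f/φ(f)` is
`≥ 1`; a non-principal character modulo a prime is primitive) and TUP: with `(∑ c p b p χ p)^m = ∑_n α_n χ(n)`,
`α_n = ∑_{n_t = n} C_t`, one has `∑_n |α_n|² ≤ m! ∑_t |C_t|²`. -/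
def S_HML : Prop :=
  ∀ (Q : ℕ) (b : ℕ → ℂ), 1 ≤ Q → (∀ n, ‖b n‖ ≤ 1) →
    ∀ (P : Finset ℕ) (Y m : ℕ) (c : ℕ → ℂ), (∀ p ∈ P, p.Prime ∧ p ≤ Y) →
    ∑ q ∈ (Ioc Q (2 * Q)).filter Nat.Prime, ∑ ψ ∈ chars' q, ‖∑ p ∈ P, c p * b p * ψ p‖ ^ (2 * m) ≤
      6 * ((Y : ℝ) ^ m + 4 * (Q : ℝ) ^ 2) * (Nat.factorial m) * (∑ p ∈ P, ‖c p‖ ^ 2) ^ m

open Classical in
/-- **BLK** (few members have a large prime sum). `L = log N`, `l = log L`, `N^(1/2) ≤ T ≤ N^3`.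
Proof. Let `ρ = ε/20`, `z_0 = exp (L^η)`, `z_{j+1} = z_j^(1+ρ)`, `j < B`, `z_B ≥ exp (L^(1/2-η))`, `B ≤ C(ρ) l`.
If the sum over `mid` has norm `> λ = exp (-L^(η/2))` then for some `j` the sum over the primes of `mid` in
`(z_j, z_{j+1}]` has norm `≥ λ/B`. Fix `j`, `z = z_j`, `Y = ⌊min (z^(1+ρ), exp (L^(1/2-η)))⌋`, `m = ⌊log T / log Y⌋`, so
`Y^m ≤ T`, `m ≤ 3 L`. By `HM`, with `‖c p‖ ≤ p^(-1-2δ) ≤ 1/p` and `∑_{p > z} p^(-2) ≤ 2/z`: the number of `ψ` in question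
is at most `60 T m! (2/z)^m (B/λ)^(2m) ≤ 60 T (6 L B² λ^(-2) / z)^m`. Since `z ≥ exp (L^η)` and `6 L B² λ^(-2) ≤
exp (3 L^(η/2))`, this is at most `60 T z^(-(1-ρ) m)` for large `N`; `m ≥ log T / ((1+ρ) log z) - 1`, so it is
`≤ 60 T z T^(-(1-ρ)/(1+ρ)) ≤ 60 exp (L^(1/2-η)) T^(2ρ)`. Sum over `j < B`. -/
def S_BLK : Prop :=
  ∀ η : ℝ, 0 < η → η < 1 / 8 → ∀ ε : ℝ, 0 < ε → ∃ N₀ : ℕ, ∀ N : ℕ, N₀ ≤ N → ∀ T : ℝ,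
    (N : ℝ) ^ (1 / 2 : ℝ) ≤ T → T ≤ (N : ℝ) ^ 3 → ∀ X : Finset (ℕ → ℂ), HM X T →
    ∀ b : ℕ → ℂ, (∀ n, ‖b n‖ ≤ 1) →
    ((X.filter fun ψ => Real.exp (-(Real.log N ^ (η / 2))) <
      ‖∑ p ∈ mid N η, (((p : ℝ) ^ (-(1 + 2 * dl N)) : ℝ) : ℂ) * b p * ψ p‖).card : ℝ) ≤ (N : ℝ) ^ ε

/-- **SG**: the dual group of a prime modulus has at most `d(q-1)` subgroups (it is cyclic), and
`∑_{q ≤ Q} d(q-1) ≤ Q (1 + log Q)`. -/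
def S_SG : Prop :=
  (∀ q : ℕ, q.Prime → Nat.card (Subgroup (DirichletCharacter ℂ q)) ≤ (q - 1).divisors.card) ∧
  (∀ Q : ℕ, 1 ≤ Q → ∑ q ∈ (Icc 1 Q).filter Nat.Prime, ((q - 1).divisors.card : ℝ) ≤ Q * (1 + Real.log Q))

end Pool.Agent.Q255.FG
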