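import Pool.Agent.Q255.FG.Stm
import Pool.Agent.Q162.FG.LT
import Pool.Agent.Q154.FG.One
import Pool.Agent.Q211.FG.A1
import Pool.Agent.Q211.FG.EXPM

/-!
# Project FG: moments of the truncated Euler product
-/

set_option autoImplicit false

open MeasureTheory Finset

namespace Pool.Agent.Q255.FG

open Q289.PAM Pool.Agent.Q255.RM

lemma sum_inv_sqrt (M : ℕ) : ∑ n ∈ Icc 1 M, (Real.sqrt (n : ℕ))⁻¹ ≤ 2 * Real.sqrt M := by
  induction M with
  | zero => simp
  | succ M ih =>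
    rw [Finset.sum_Icc_succ_top (by omega)]
    have h1 : 0 < Real.sqrt ((M + 1 : ℕ) : ℝ) := Real.sqrt_pos.2 (by positivity)
    have h2 : Real.sqrt ((M + 1 : ℕ) : ℝ) ^ 2 = (M : ℝ) + 1 := by
      rw [Real.sq_sqrt (by positivity)]; push_cast; ring
    have h3 : Real.sqrt (M : ℝ) ^ 2 = (M : ℝ) := Real.sq_sqrt (by positivity)
    have h4 : 0 ≤ Real.sqrt (M : ℝ) := Real.sqrt_nonneg _
    have h5 : (Real.sqrt ((M + 1 : ℕ) : ℝ))⁻¹ ≤
        2 * Real.sqrt ((M + 1 : ℕ) : ℝ) - 2 * Real.sqrt (M : ℝ) := by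
      rw [inv_le_iff_one_le_mul₀ h1]
      nlinarith [sq_nonneg (Real.sqrt ((M + 1 : ℕ) : ℝ) - Real.sqrt (M : ℝ))]
    linarith

/-- large primes -/
lemma one_large (h1 : S_ONE) {r : ℝ} (hr : 0 ≤ r) {k J : ℕ} (hk : 1 ≤ k) (hJ : 1 ≤ J) (hkr : 2 * k * r ≤ 1)
    (hr2 : r ≤ 3 / 4) :
    ∫ x : UnitAddCircle, ‖∑ j ∈ range (J + 1), ((r : ℂ) * (x.toCircle : ℂ)) ^ j‖ ^ (2 * k) ≤
      Real.exp (((k : ℝ) ^ 2 + 6 * k) * r ^ 2 + 8 * (k : ℝ) ^ 3 * r ^ 3) := by
  have hn : ‖(r : ℂ)‖ = r := by rw [Complex.norm_real, Real.norm_of_nonneg hr]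
  have h2 := h1.2.2.2 (r : ℂ) k (by rw [hn]; exact hr2) (by rw [hn]; exact hkr)
  rw [hn] at h2
  have hne : ∀ x : UnitAddCircle, 0 < ‖1 - (r : ℂ) * (x.toCircle : ℂ)‖ := by
    intro x
    have h3 : ‖(r : ℂ) * (x.toCircle : ℂ)‖ = r := by rw [norm_mul, hn, Circle.norm_coe, mul_one]
    have h4 := norm_sub_norm_le (1 : ℂ) ((r : ℂ) * (x.toCircle : ℂ))
    rw [h3, norm_one] at h4
    linarith
  have hcc : Continuous fun x : UnitAddCircle => ((x.toCircle : Circle) : ℂ) :=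
    continuous_subtype_val.comp AddCircle.continuous_toCircle
  have hc1 : Continuous fun x : UnitAddCircle =>
      ‖∑ j ∈ range (J + 1), ((r : ℂ) * (x.toCircle : ℂ)) ^ j‖ ^ (2 * k) := by
    refine Continuous.pow (Continuous.norm (continuous_finsetSum _ fun j _ => ?_)) _
    exact (continuous_const.mul hcc).pow j
  have hc2 : Continuous fun x : UnitAddCircle =>
      (1 + r ^ 2) ^ (2 * k) * (‖1 - (r : ℂ) * (x.toCircle : ℂ)‖⁻¹) ^ (2 * k) := by
    refine continuous_const.mul (Continuous.pow (Continuous.inv₀ ?_ fun x => (hne x).ne') _)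
    exact (continuous_const.sub (continuous_const.mul hcc)).norm
  have hpt : ∀ x : UnitAddCircle, ‖∑ j ∈ range (J + 1), ((r : ℂ) * (x.toCircle : ℂ)) ^ j‖ ^ (2 * k) ≤
      (1 + r ^ 2) ^ (2 * k) * (‖1 - (r : ℂ) * (x.toCircle : ℂ)‖⁻¹) ^ (2 * k) := by
    intro x
    set z : ℂ := (r : ℂ) * (x.toCircle : ℂ) with hz
    have hzn : ‖z‖ = r := by rw [hz, norm_mul, hn, Circle.norm_coe, mul_one]
    have h3 : (1 - z) * ∑ j ∈ range (J + 1), z ^ j = 1 - z ^ (J + 1) := by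
      have := mul_neg_geom_sum z (J + 1)
      exact this
    have h4 : ‖1 - z‖ * ‖∑ j ∈ range (J + 1), z ^ j‖ ≤ 1 + r ^ 2 := by
      rw [← norm_mul, h3]
      refine (norm_sub_le _ _).trans ?_
      rw [norm_one, norm_pow, hzn]
      have : r ^ (J + 1) ≤ r ^ 2 := pow_le_pow_of_le_one hr (by linarith) (by omega)
      linarith
    rw [← mul_pow]
    refine pow_le_pow_left₀ (norm_nonneg _) ?_ _
    rw [← div_eq_mul_inv, le_div_iff₀ (hne x), mul_comm]
    exact h4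
  have h5 : ∫ x : UnitAddCircle, ‖∑ j ∈ range (J + 1), ((r : ℂ) * (x.toCircle : ℂ)) ^ j‖ ^ (2 * k) ≤
      ∫ x : UnitAddCircle, (1 + r ^ 2) ^ (2 * k) * (‖1 - (r : ℂ) * (x.toCircle : ℂ)‖⁻¹) ^ (2 * k) :=
    integral_mono (hc1.integrable_of_hasCompactSupport (HasCompactSupport.of_compactSpace _))
      (hc2.integrable_of_hasCompactSupport (HasCompactSupport.of_compactSpace _)) hpt
  refine h5.trans ?_
  rw [integral_const_mul]
  have h6 : (1 + r ^ 2) ^ (2 * k) ≤ Real.exp (2 * k * r ^ 2) := by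
    have h7 : 1 + r ^ 2 ≤ Real.exp (r ^ 2) := by
      have := Real.add_one_le_exp (r ^ 2)
      linarith
    calc (1 + r ^ 2) ^ (2 * k) ≤ Real.exp (r ^ 2) ^ (2 * k) := pow_le_pow_left₀ (by positivity) h7 _
      _ = Real.exp (2 * k * r ^ 2) := by
          rw [← Real.exp_nat_mul]
          congr 1
          push_cast
          ring
  calc (1 + r ^ 2) ^ (2 * k) * ∫ x : UnitAddCircle, (‖1 - (r : ℂ) * (x.toCircle : ℂ)‖⁻¹) ^ (2 * k)
      ≤ Real.exp (2 * k * r ^ 2) * Real.exp ((k * r) ^ 2 + 8 * (k * r) ^ 3 + 4 * k * r ^ 2) := by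
        refine mul_le_mul h6 h2 (integral_nonneg fun x => by positivity) (Real.exp_pos _).le
    _ = _ := by
        rw [← Real.exp_add]
        congr 1
        ring

/-- small primes -/
lemma one_small {r : ℝ} (hr : 0 ≤ r) (hr2 : r ≤ 3 / 4) (k J : ℕ) :
    ∫ x : UnitAddCircle, ‖∑ j ∈ range (J + 1), ((r : ℂ) * (x.toCircle : ℂ)) ^ j‖ ^ (2 * k) ≤
      Real.exp (8 * k * r) := by
  have hn : ‖(r : ℂ)‖ = r := by rw [Complex.norm_real, Real.norm_of_nonneg hr]
  have hcc : Continuous fun x : UnitAddCircle => ((x.toCircle : Circle) : ℂ) :=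
    continuous_subtype_val.comp AddCircle.continuous_toCircle
  have hc1 : Continuous fun x : UnitAddCircle =>
      ‖∑ j ∈ range (J + 1), ((r : ℂ) * (x.toCircle : ℂ)) ^ j‖ ^ (2 * k) := by
    refine Continuous.pow (Continuous.norm (continuous_finsetSum _ fun j _ => ?_)) _
    exact (continuous_const.mul hcc).pow j
  have h4r : (1 - r)⁻¹ ≤ Real.exp (4 * r) := by
    have h1 : (1 - r)⁻¹ = r / (1 - r) + 1 := by
      have : (1 - r) ≠ 0 := by linarith
      field_simp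
      ring
    have h2 : r / (1 - r) ≤ 4 * r := by
      rw [div_le_iff₀ (by linarith)]
      nlinarith
    rw [h1]
    exact (Real.add_one_le_exp _).trans (Real.exp_le_exp.2 h2)
  have hpt : ∀ x : UnitAddCircle, ‖∑ j ∈ range (J + 1), ((r : ℂ) * (x.toCircle : ℂ)) ^ j‖ ^ (2 * k) ≤
      Real.exp (8 * k * r) := by
    intro x
    have h1 : ‖∑ j ∈ range (J + 1), ((r : ℂ) * (x.toCircle : ℂ)) ^ j‖ ≤ (1 - r)⁻¹ := by
      refine (norm_sum_le _ _).trans ?_
      have e : ∀ j ∈ range (J + 1), ‖((r : ℂ) * (x.toCircle : ℂ)) ^ j‖ = r ^ j := by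
        intro j _
        rw [norm_pow, norm_mul, hn, Circle.norm_coe, mul_one]
      rw [Finset.sum_congr rfl e]
      have h2 := (hasSum_geometric_of_lt_one hr (by linarith : r < 1))
      exact h2.summable.sum_le_tsum _ (fun j _ => by positivity) |>.trans h2.tsum_eq.le
    calc ‖∑ j ∈ range (J + 1), ((r : ℂ) * (x.toCircle : ℂ)) ^ j‖ ^ (2 * k) ≤ Real.exp (4 * r) ^ (2 * k) :=
          pow_le_pow_left₀ (norm_nonneg _) (h1.trans h4r) _
      _ = Real.exp (8 * k * r) := by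
          rw [← Real.exp_nat_mul]
          congr 1
          push_cast
          ring
  calc ∫ x : UnitAddCircle, ‖∑ j ∈ range (J + 1), ((r : ℂ) * (x.toCircle : ℂ)) ^ j‖ ^ (2 * k)
      ≤ ∫ _ : UnitAddCircle, Real.exp (8 * k * r) :=
        integral_mono (hc1.integrable_of_hasCompactSupport (HasCompactSupport.of_compactSpace _))
          (integrable_const _) hpt
    _ = Real.exp (8 * k * r) := by simp

theorem u0 (h1 : S_ONE) (h2 : S_PROD) (h3 : S_A1) : S_U0 := by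
  classical
  refine ⟨72, by norm_num, fun α k N J hα hα1 hk hJ => ?_⟩
  have hk1 : (1 : ℝ) ≤ k := by exact_mod_cast hk
  set P : Finset ℕ := (range (N + 1)).filter Nat.Prime with hP
  have hPp : ∀ p ∈ P, p.Prime := fun p hp => (Finset.mem_filter.1 hp).2
  set r : ℕ → ℝ := fun p => (p : ℝ) ^ (-(1 / 2 + α)) with hr
  have hr0 : ∀ p, 0 ≤ r p := fun p => Real.rpow_nonneg (Nat.cast_nonneg _) _
  -- the Euler product
  have hE : ∀ ω : Om, ‖∑ n ∈ ((primorial N) ^ J).divisors,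
      (((n : ℝ) ^ (-(1 / 2 + α)) : ℝ) : ℂ) * f ω n‖ ^ (2 * k) =
      ∏ p ∈ P, ‖∑ j ∈ range (J + 1), ((r p : ℂ) * ((ω p).toCircle : ℂ)) ^ j‖ ^ (2 * k) := by
    intro ω
    have h4 := Pool.Agent.Q162.FG.euler (fun n => (((n : ℝ) ^ (-(1 / 2 + α)) : ℝ) : ℂ) * f ω n)
      (by simp [f_one]) (fun m n hm hn => by
        rw [f_mul ω hm hn]
        push_cast
        rw [Real.mul_rpow (Nat.cast_nonneg _) (Nat.cast_nonneg _)]
        push_cast
        ring) P hPp J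
    have h5 : (∏ p ∈ P, p) = primorial N := rfl
    rw [h5] at h4
    rw [← h4, norm_prod, Finset.prod_pow]
    refine congrArg (· ^ (2 * k)) (Finset.prod_congr rfl fun p hp => ?_)
    rw [Pool.Agent.Q211.FG.f_prime ω (hPp p hp)]
  rw [integral_congr_ae (Filter.Eventually.of_forall hE)]
  have hcc : Continuous fun x : UnitAddCircle => ((x.toCircle : Circle) : ℂ) :=
    continuous_subtype_val.comp AddCircle.continuous_toCircle
  rw [h2 P (fun p x => ‖∑ j ∈ range (J + 1), ((r p : ℂ) * (x.toCircle : ℂ)) ^ j‖ ^ (2 * k)) (fun p _ => by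
    refine Continuous.pow (Continuous.norm (continuous_finsetSum _ fun j _ => ?_)) _
    exact (continuous_const.mul hcc).pow j)]
  -- bounds for r
  have hr2 : ∀ p ∈ P, r p ≤ 3 / 4 := by
    intro p hp
    have hp2 : (2 : ℝ) ≤ p := by exact_mod_cast (hPp p hp).two_le
    have a1 : r p ≤ (p : ℝ) ^ (-(1 / 2) : ℝ) :=
      Real.rpow_le_rpow_of_exponent_le (by linarith) (by linarith)
    have a2 : (p : ℝ) ^ (-(1 / 2) : ℝ) ≤ (2 : ℝ) ^ (-(1 / 2) : ℝ) :=
      Real.rpow_le_rpow_of_nonpos (by norm_num) hp2 (by norm_num)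
    have a3 : (2 : ℝ) ^ (-(1 / 2) : ℝ) ≤ 3 / 4 := by
      rw [Real.rpow_neg (by norm_num), ← Real.sqrt_eq_rpow, inv_le_iff_one_le_mul₀ (by positivity)]
      have : (4 / 3 : ℝ) ≤ Real.sqrt 2 := by
        apply Real.le_sqrt_of_sq_le
        norm_num
      linarith
    linarith
  have hrs : ∀ p ∈ P, r p ≤ (Real.sqrt p)⁻¹ := by
    intro p hp
    have hp2 : (2 : ℝ) ≤ p := by exact_mod_cast (hPp p hp).two_le
    have a1 : r p ≤ (p : ℝ) ^ (-(1 / 2) : ℝ) :=
      Real.rpow_le_rpow_of_exponent_le (by linarith) (by linarith)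
    rwa [Real.rpow_neg (by linarith), ← Real.sqrt_eq_rpow] at a1
  have hbig : ∀ p ∈ P, (16 : ℝ) * k ^ 2 < p → 2 * k * r p ≤ 1 := by
    intro p hp hpk
    have a1 := hrs p hp
    have a2 : (4 : ℝ) * k ≤ Real.sqrt p := by
      apply Real.le_sqrt_of_sq_le
      nlinarith
    have a3 : (Real.sqrt p)⁻¹ ≤ (4 * (k : ℝ))⁻¹ := inv_anti₀ (by positivity) a2
    have a4 : 2 * k * (4 * (k : ℝ))⁻¹ ≤ 1 := by
      rw [← div_eq_mul_inv, div_le_one (by positivity)]
      linarith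
    calc 2 * k * r p ≤ 2 * k * (4 * (k : ℝ))⁻¹ := by gcongr; linarith
      _ ≤ 1 := a4
  -- the exponents
  set E : ℕ → ℝ := fun p => if (16 : ℝ) * k ^ 2 < p then
      ((k : ℝ) ^ 2 + 6 * k) * r p ^ 2 + 8 * (k : ℝ) ^ 3 * r p ^ 3 else 8 * k * r p with hEdef
  have hfac : ∀ p ∈ P, ∫ x : UnitAddCircle,
      ‖∑ j ∈ range (J + 1), ((r p : ℂ) * (x.toCircle : ℂ)) ^ j‖ ^ (2 * k) ≤ Real.exp (E p) := by
    intro p hp
    by_cases h : (16 : ℝ) * k ^ 2 < p
    · simp only [hEdef, if_pos h]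
      exact one_large h1 (hr0 p) hk hJ (hbig p hp h) (hr2 p hp)
    · simp only [hEdef, if_neg h]
      exact one_small (hr0 p) (hr2 p hp) k J
  refine (Finset.prod_le_prod (fun p _ => integral_nonneg fun x => by positivity) hfac).trans ?_
  rw [← Real.exp_sum]
  apply Real.exp_le_exp.2
  -- split the sum
  rw [← Finset.sum_filter_add_sum_filter_not P (fun p : ℕ => (16 : ℝ) * k ^ 2 < p)]
  have hA : ∑ p ∈ P.filter (fun p : ℕ => (16 : ℝ) * k ^ 2 < p), E p ≤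
      ((k : ℝ) ^ 2 + 6 * k) * Real.log (1 + 1 / α) + 8 * (k : ℝ) ^ 2 := by
    have e1 : ∑ p ∈ P.filter (fun p : ℕ => (16 : ℝ) * k ^ 2 < p), E p =
        ((k : ℝ) ^ 2 + 6 * k) * ∑ p ∈ P.filter (fun p : ℕ => (16 : ℝ) * k ^ 2 < p), r p ^ 2 +
        8 * (k : ℝ) ^ 3 * ∑ p ∈ P.filter (fun p : ℕ => (16 : ℝ) * k ^ 2 < p), r p ^ 3 := by
      rw [Finset.mul_sum, Finset.mul_sum, ← Finset.sum_add_distrib]
      refine Finset.sum_congr rfl fun p hp => ?_
      simp only [hEdef, if_pos (Finset.mem_filter.1 hp).2]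
    have e2 : ∑ p ∈ P.filter (fun p : ℕ => (16 : ℝ) * k ^ 2 < p), r p ^ 2 ≤ Real.log (1 + 1 / α) := by
      have b1 := h3.1 (P.filter (fun p : ℕ => (16 : ℝ) * k ^ 2 < p)) (2 * α)
        (fun p hp => hPp p (Finset.mem_filter.1 hp).1) (by linarith)
      have b2 : ∀ p ∈ P.filter (fun p : ℕ => (16 : ℝ) * k ^ 2 < p), r p ^ 2 = (p : ℝ) ^ (-(1 + 2 * α)) := by
        intro p _
        rw [hr]
        simp only
        rw [← Real.rpow_natCast, ← Real.rpow_mul (Nat.cast_nonneg _)]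
        congr 1
        push_cast
        ring
      rw [Finset.sum_congr rfl b2]
      refine b1.trans (Real.log_le_log (by positivity) ?_)
      have : 1 / (2 * α) ≤ 1 / α := one_div_le_one_div_of_le hα (by linarith)
      linarith
    have e3 : ∑ p ∈ P.filter (fun p : ℕ => (16 : ℝ) * k ^ 2 < p), r p ^ 3 ≤ 1 / k := by
      have b1 := h3.2.2.1 (P.filter (fun p : ℕ => (16 : ℝ) * k ^ 2 < p)) (16 * (k : ℝ) ^ 2)
        (by nlinarith) (fun p hp => (Finset.mem_filter.1 hp).2)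
      have b2 : ∀ p ∈ P.filter (fun p : ℕ => (16 : ℝ) * k ^ 2 < p), r p ^ 3 ≤ (p : ℝ) ^ (-(3 / 2) : ℝ) := by
        intro p hp
        have hp2 : (2 : ℝ) ≤ p := by exact_mod_cast (hPp p (Finset.mem_filter.1 hp).1).two_le
        rw [hr]
        simp only
        rw [← Real.rpow_natCast, ← Real.rpow_mul (Nat.cast_nonneg _)]
        apply Real.rpow_le_rpow_of_exponent_le (by linarith)
        push_cast
        linarith
      refine (Finset.sum_le_sum b2).trans (b1.trans ?_)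
      have b3 : (16 * (k : ℝ) ^ 2) ^ (-(1 / 2) : ℝ) = (4 * (k : ℝ))⁻¹ := by
        rw [Real.rpow_neg (by positivity), ← Real.sqrt_eq_rpow]
        congr 1
        rw [show (16 : ℝ) * k ^ 2 = (4 * k) ^ 2 by ring, Real.sqrt_sq (by positivity)]
      rw [b3]
      have : (k : ℝ) ≠ 0 := by positivity
      apply le_of_eq
      field_simp
    rw [e1]
    have c1 : ((k : ℝ) ^ 2 + 6 * k) * ∑ p ∈ P.filter (fun p : ℕ => (16 : ℝ) * k ^ 2 < p), r p ^ 2 ≤
        ((k : ℝ) ^ 2 + 6 * k) * Real.log (1 + 1 / α) := mul_le_mul_of_nonneg_left e2 (by positivity)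
    have c2 : 8 * (k : ℝ) ^ 3 * ∑ p ∈ P.filter (fun p : ℕ => (16 : ℝ) * k ^ 2 < p), r p ^ 3 ≤
        8 * (k : ℝ) ^ 3 * (1 / k) := mul_le_mul_of_nonneg_left e3 (by positivity)
    have c3 : 8 * (k : ℝ) ^ 3 * (1 / k) = 8 * (k : ℝ) ^ 2 := by
      have : (k : ℝ) ≠ 0 := by positivity
      field_simp
    linarith
  have hB : ∑ p ∈ P.filter (fun p : ℕ => ¬ (16 : ℝ) * k ^ 2 < p), E p ≤ 64 * (k : ℝ) ^ 2 := by
    have e1 : ∑ p ∈ P.filter (fun p : ℕ => ¬ (16 : ℝ) * k ^ 2 < p), E p =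
        8 * k * ∑ p ∈ P.filter (fun p : ℕ => ¬ (16 : ℝ) * k ^ 2 < p), r p := by
      rw [Finset.mul_sum]
      refine Finset.sum_congr rfl fun p hp => ?_
      simp only [hEdef, if_neg (Finset.mem_filter.1 hp).2]
    have e2 : ∑ p ∈ P.filter (fun p : ℕ => ¬ (16 : ℝ) * k ^ 2 < p), r p ≤ 8 * k := by
      calc ∑ p ∈ P.filter (fun p : ℕ => ¬ (16 : ℝ) * k ^ 2 < p), r p
          ≤ ∑ p ∈ P.filter (fun p : ℕ => ¬ (16 : ℝ) * k ^ 2 < p), (Real.sqrt (p : ℕ))⁻¹ :=
            Finset.sum_le_sum fun p hp => hrs p (Finset.mem_filter.1 hp).1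
        _ ≤ ∑ n ∈ Icc 1 (16 * k ^ 2), (Real.sqrt (n : ℕ))⁻¹ := by
            refine Finset.sum_le_sum_of_subset_of_nonneg ?_ fun n _ _ => by positivity
            intro p hp
            rw [Finset.mem_filter] at hp
            rw [Finset.mem_Icc]
            refine ⟨(hPp p hp.1).one_lt.le, ?_⟩
            have := not_lt.1 hp.2
            exact_mod_cast this
        _ ≤ 2 * Real.sqrt ((16 * k ^ 2 : ℕ) : ℝ) := sum_inv_sqrt _
        _ = 8 * k := by
            push_cast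
            rw [show (16 : ℝ) * k ^ 2 = (4 * k) ^ 2 by ring, Real.sqrt_sq (by positivity)]
            ring
    rw [e1]
    have c1 : 8 * k * ∑ p ∈ P.filter (fun p : ℕ => ¬ (16 : ℝ) * k ^ 2 < p), r p ≤ 8 * k * (8 * (k : ℝ)) :=
      mul_le_mul_of_nonneg_left e2 (by positivity)
    nlinarith
  have hlog : 0 ≤ Real.log (1 + 1 / α) := Real.log_nonneg (by
    have : 0 < 1 / α := by positivity
    linarith)
  have hk2 : 0 ≤ (k : ℝ) * Real.log (1 + 1 / α) := by positivity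
  nlinarith [hA, hB]

end Pool.Agent.Q255.FG
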